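import Pool.Agent.N30.SR.Stm
import Pool.Agent.W32.QS.Div
import Pool.Agent.N852.Div

/-!
# SR/SUM: summation over `n` (helper999)
-/

set_option autoImplicit false

open Complex MeasureTheory Set Filter Topology
open Pool.Agent.W188.QS (XX cp fp)

namespace Pool.Agent.N30.SR.LSUM

lemma dk_card (r n : ℕ) :
    (ArithmeticFunction.zeta ^ r : ArithmeticFunction ℕ) n ≤ n.divisors.card ^ r := by
  induction r generalizing n with
  | zero =>
    rw [pow_zero, ArithmeticFunction.one_apply]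
    split_ifs <;> simp
  | succ r ih =>
    rw [pow_succ, ArithmeticFunction.mul_zeta_apply]
    refine (Finset.sum_le_sum (g := fun _ => n.divisors.card ^ r) ?_).trans ?_
    · intro d hd
      refine (ih d).trans (Nat.pow_le_pow_left (Finset.card_le_card
        (Nat.divisors_subset_of_dvd ?_ (Nat.dvd_of_mem_divisors hd))) _)
      intro h
      rw [h] at hd
      simp at hd
    · rw [Finset.sum_const, smul_eq_mul, pow_succ, mul_comm]

lemma dK_nonneg (K n : ℕ) : 0 ≤ dK K n := by unfold dK; positivity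

lemma dK_zero (K : ℕ) (hK : 1 ≤ K) : dK K 0 = 0 := by
  unfold dK
  simp

lemma dK_bound (K : ℕ) (hK : 1 ≤ K) (e : ℝ) (he : 0 < e) :
    ∃ D : ℝ, 0 < D ∧ ∀ n : ℕ, n ≠ 0 → dK K n ≤ D * (n : ℝ) ^ e := by
  have hK0 : (0 : ℝ) < K := by exact_mod_cast hK
  obtain ⟨C, hC, h⟩ := Pool.Agent.N852.divisor_bound (e / K) (by positivity)
  refine ⟨C ^ K, by positivity, fun n hn => ?_⟩
  have h1 : dK K n ≤ ((n.divisors.card : ℕ) : ℝ) ^ K := by
    unfold dK
    exact_mod_cast dk_card K n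
  have h2 : ((n.divisors.card : ℕ) : ℝ) ^ K ≤ (C * (n : ℝ) ^ (e / K)) ^ K :=
    pow_le_pow_left₀ (by positivity) (h n hn) K
  have h3 : (C * (n : ℝ) ^ (e / K)) ^ K = C ^ K * (n : ℝ) ^ e := by
    rw [mul_pow, ← Real.rpow_natCast ((n : ℝ) ^ (e / K)) K, ← Real.rpow_mul (by positivity)]
    congr 2
    field_simp
  linarith

lemma XX_diff (s : ℂ) (hs : 0 < s.re) : DifferentiableAt ℂ XX s := by
  have h1 : DifferentiableAt ℂ Complex.Gamma s := by
    refine Complex.differentiableAt_Gamma s (fun m hm => ?_)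
    rw [hm] at hs
    simp at hs
    have : (0 : ℝ) ≤ m := by positivity
    linarith
  have h2 : DifferentiableAt ℂ (fun s : ℂ => (2 * (Real.pi : ℂ)) ^ (-s)) s := by
    refine DifferentiableAt.const_cpow (differentiableAt_id.neg) (Or.inl ?_)
    have := Real.pi_ne_zero
    simp [this]
  have h3 : DifferentiableAt ℂ (fun s : ℂ => Complex.cos (Real.pi * s / 2)) s := by
    fun_prop
  have : XX = fun s : ℂ => 2 * (2 * (Real.pi : ℂ)) ^ (-s) * Gamma s * Complex.cos (Real.pi * s / 2) := by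
    funext s; rfl
  rw [this]
  exact (((differentiableAt_const _).mul h2).mul h1).mul h3

lemma XX_cont (c : ℝ) (hc : 0 < c) : Continuous (fun t : ℝ => XX ((c : ℂ) + (t : ℂ) * I)) := by
  rw [continuous_iff_continuousAt]
  intro t
  have h := (XX_diff ((c : ℂ) + (t : ℂ) * I) (by simpa using hc)).continuousAt
  exact ContinuousAt.comp (f := fun t : ℝ => (c : ℂ) + (t : ℂ) * I) h (by fun_prop)

lemma norm_cpow_line (c t : ℝ) (n : ℕ) (hn : 1 ≤ n) :
    ‖(n : ℂ) ^ (-((c : ℂ) + (t : ℂ) * I))‖ = (n : ℝ) ^ (-c) := by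
  rw [Complex.norm_natCast_cpow_of_pos (by omega)]
  simp

lemma Y_cont (c : ℝ) (hc : 0 < c) (n : ℕ) (hn : 1 ≤ n) : Continuous (Y c n) := by
  unfold Y
  refine (XX_cont c hc).mul ?_
  have hn0 : (n : ℂ) ≠ 0 := by exact_mod_cast (by omega : n ≠ 0)
  exact Continuous.const_cpow (by fun_prop) (Or.inl hn0)

/-- `Σ_{n ≤ N} n^(-1/2) ≤ 2 √N` -/
lemma sum_sqrt (N : ℕ) : ∑ n ∈ Finset.Icc 1 N, (n : ℝ) ^ (-(1 / 2 : ℝ)) ≤ 2 * √N := by
  induction N with
  | zero => simp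
  | succ N ih =>
    rw [Finset.sum_Icc_succ_top (by omega)]
    have h1 : (((N + 1 : ℕ) : ℝ)) ^ (-(1 / 2 : ℝ)) = 1 / √((N : ℝ) + 1) := by
      rw [Real.rpow_neg (by positivity), Real.sqrt_eq_rpow]
      push_cast
      exact (one_div _).symm
    rw [h1]
    have ha : 0 ≤ √(N : ℝ) := Real.sqrt_nonneg _
    have hb : 0 < √((N : ℝ) + 1) := Real.sqrt_pos.2 (by positivity)
    have hab : √(N : ℝ) ≤ √((N : ℝ) + 1) := Real.sqrt_le_sqrt (by linarith)
    have h2 : √((N : ℝ) + 1) ^ 2 = N + 1 := Real.sq_sqrt (by positivity)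
    have h3 : √(N : ℝ) ^ 2 = N := Real.sq_sqrt (by positivity)
    have h4 : 1 / √((N : ℝ) + 1) ≤ 2 * √((N : ℝ) + 1) - 2 * √(N : ℝ) := by
      rw [div_le_iff₀ hb]
      nlinarith
    push_cast
    linarith

/-- the harmonic sum -/
lemma sum_harm (N : ℕ) : ∑ j ∈ Finset.range (N + 1), 1 / (1 + (j : ℝ)) ≤ 1 + Real.log ((N : ℝ) + 1) := by
  have h := harmonic_le_one_add_log (N + 1)
  have h2 : ((harmonic (N + 1) : ℚ) : ℝ) = ∑ j ∈ Finset.range (N + 1), 1 / (1 + (j : ℝ)) := by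
    unfold harmonic
    push_cast
    refine Finset.sum_congr rfl fun j _ => ?_
    rw [one_div, add_comm]
  rw [h2] at h
  push_cast at h
  exact h

/-- the shifted harmonic sum -/
lemma sum_shift (N m : ℕ) (hm : m ≤ N) :
    ∑ n ∈ Finset.Icc 1 N, 1 / (1 + |(n : ℝ) - m|) ≤ 2 * (1 + Real.log ((N : ℝ) + 1)) := by
  have h1 : ∑ n ∈ Finset.Icc 1 N, 1 / (1 + |(n : ℝ) - m|) =
      ∑ n ∈ (Finset.Icc 1 N).filter (fun n => m ≤ n), 1 / (1 + |(n : ℝ) - m|) +
      ∑ n ∈ (Finset.Icc 1 N).filter (fun n => ¬ m ≤ n), 1 / (1 + |(n : ℝ) - m|) :=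
    (Finset.sum_filter_add_sum_filter_not _ _ _).symm
  have h2 : ∑ n ∈ (Finset.Icc 1 N).filter (fun n => m ≤ n), 1 / (1 + |(n : ℝ) - m|) ≤
      ∑ j ∈ Finset.range (N + 1), 1 / (1 + (j : ℝ)) := by
    have e : ∑ n ∈ (Finset.Icc 1 N).filter (fun n => m ≤ n), 1 / (1 + |(n : ℝ) - m|) =
        ∑ j ∈ ((Finset.Icc 1 N).filter (fun n => m ≤ n)).image (fun n => n - m), 1 / (1 + (j : ℝ)) := by
      rw [Finset.sum_image]
      · refine Finset.sum_congr rfl fun n hn => ?_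
        rw [Finset.mem_filter] at hn
        have : (m : ℝ) ≤ n := by exact_mod_cast hn.2
        rw [Nat.cast_sub hn.2, abs_of_nonneg (by linarith)]
      · intro a ha b hb hab
        simp only [Finset.coe_filter, Set.mem_setOf_eq] at ha hb
        simp only at hab
        omega
    rw [e]
    refine Finset.sum_le_sum_of_subset_of_nonneg ?_ (fun j _ _ => by positivity)
    intro j hj
    simp only [Finset.mem_image, Finset.mem_filter, Finset.mem_Icc] at hj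
    obtain ⟨n, hn, rfl⟩ := hj
    rw [Finset.mem_range]
    omega
  have h3 : ∑ n ∈ (Finset.Icc 1 N).filter (fun n => ¬ m ≤ n), 1 / (1 + |(n : ℝ) - m|) ≤
      ∑ j ∈ Finset.range (N + 1), 1 / (1 + (j : ℝ)) := by
    have e : ∑ n ∈ (Finset.Icc 1 N).filter (fun n => ¬ m ≤ n), 1 / (1 + |(n : ℝ) - m|) =
        ∑ j ∈ ((Finset.Icc 1 N).filter (fun n => ¬ m ≤ n)).image (fun n => m - n), 1 / (1 + (j : ℝ)) := by
      rw [Finset.sum_image]
      · refine Finset.sum_congr rfl fun n hn => ?_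
        rw [Finset.mem_filter] at hn
        have h0 : n ≤ m := by omega
        have : (n : ℝ) ≤ m := by exact_mod_cast h0
        rw [Nat.cast_sub h0, abs_of_nonpos (by linarith)]
        congr 1
        ring
      · intro a ha b hb hab
        simp only [Finset.coe_filter, Set.mem_setOf_eq] at ha hb
        simp only at hab
        omega
    rw [e]
    refine Finset.sum_le_sum_of_subset_of_nonneg ?_ (fun j _ _ => by positivity)
    intro j hj
    simp only [Finset.mem_image, Finset.mem_filter, Finset.mem_Icc] at hj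
    obtain ⟨n, hn, rfl⟩ := hj
    rw [Finset.mem_range]
    omega
  have h4 := sum_harm N
  rw [h1]
  linarith

/-- the sum near the stationary point -/
lemma sum_near (T : ℝ) (hT : 12 ≤ T) :
    ∑ n ∈ Finset.Icc 1 ⌊T⌋₊, √T / (√T + |T - 2 * Real.pi * n|) ≤ √T * (4 * (1 + Real.log (2 * T))) := by
  have hpi := Real.pi_gt_three
  have hT0 : (0 : ℝ) ≤ T := by linarith
  set x : ℝ := T / (2 * Real.pi) with hx
  have hx0 : 0 ≤ x := by positivity
  set m : ℕ := ⌊x⌋₊ with hm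
  have hmx : (m : ℝ) ≤ x := Nat.floor_le hx0
  have hmx' : x < m + 1 := Nat.lt_floor_add_one x
  have hmN : m ≤ ⌊T⌋₊ := by
    apply Nat.floor_le_floor
    rw [hx, div_le_iff₀ (by positivity)]
    nlinarith
  have hsT : 1 ≤ √T := by
    rw [Real.one_le_sqrt]; linarith
  have h1 : ∀ n ∈ Finset.Icc 1 ⌊T⌋₊, √T / (√T + |T - 2 * Real.pi * n|) ≤
      √T * (2 * (1 / (1 + |(n : ℝ) - m|))) := by
    intro n _
    have e1 : T - 2 * Real.pi * n = 2 * Real.pi * (x - n) := by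
      rw [hx]; field_simp
    have e2 : |T - 2 * Real.pi * n| = 2 * Real.pi * |x - n| := by
      rw [e1, abs_mul, abs_of_pos (by positivity)]
    have e3 : |(n : ℝ) - m| ≤ |x - n| + 1 := by
      have : |(n : ℝ) - m| ≤ |(n : ℝ) - x| + |x - m| := abs_sub_le _ _ _
      rw [abs_sub_comm (n : ℝ) x, abs_of_nonneg (by linarith : 0 ≤ x - m)] at this
      linarith
    have e4 : 0 ≤ |x - n| := abs_nonneg _
    have e5 : 1 + |(n : ℝ) - m| ≤ 2 * (√T + |T - 2 * Real.pi * n|) := by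
      rw [e2]
      nlinarith
    have e6 : 0 < 1 + |(n : ℝ) - m| := by positivity
    rw [div_eq_mul_one_div]
    refine mul_le_mul_of_nonneg_left ?_ (by positivity)
    rw [div_le_iff₀ (by positivity), mul_comm 2 _, mul_assoc, one_div, ← div_eq_inv_mul,
      le_div_iff₀ e6]
    linarith
  refine (Finset.sum_le_sum h1).trans ?_
  rw [← Finset.mul_sum, ← Finset.mul_sum]
  refine mul_le_mul_of_nonneg_left ?_ (by positivity)
  have h2 := sum_shift ⌊T⌋₊ m hmN
  have h3 : Real.log ((⌊T⌋₊ : ℝ) + 1) ≤ Real.log (2 * T) := by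
    apply Real.log_le_log (by positivity)
    have := Nat.floor_le hT0
    linarith
  linarith

lemma summ (K : ℕ) (hK : 1 ≤ K) (η : ℝ) (hη : 0 < η) :
    Summable (fun n : ℕ => dK K n * (n : ℝ) ^ (-(1 + η))) := by
  obtain ⟨D, hD, hdK⟩ := dK_bound K hK (η / 2) (by positivity)
  refine Summable.of_nonneg_of_le (fun n => mul_nonneg (dK_nonneg K n) (by positivity)) (fun n => ?_)
    (((Real.summable_nat_rpow (p := -(1 + η / 2))).2 (by linarith)).mul_left D)
  rcases Nat.eq_zero_or_pos n with h | h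
  · subst h
    rw [dK_zero K hK]
    simp only [zero_mul]
    positivity
  · have h1 := hdK n (by omega)
    have hn : (0 : ℝ) < n := by exact_mod_cast h
    have h2 : D * (n : ℝ) ^ (-(1 + η / 2)) = D * (n : ℝ) ^ (η / 2) * (n : ℝ) ^ (-(1 + η)) := by
      rw [mul_assoc, ← Real.rpow_add hn]
      congr 2
      ring
    rw [h2]
    exact mul_le_mul_of_nonneg_right h1 (by positivity)

lemma hasSum_pt (K : ℕ) (hK : 1 ≤ K) (η : ℝ) (hη : 0 < η) (t : ℝ) :
    HasSum (fun n : ℕ => ((dK K n : ℝ) : ℂ) * Y (1 + η) n t)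
      (riemannZeta (((1 + η : ℝ) : ℂ) + (t : ℂ) * I) ^ K * XX (((1 + η : ℝ) : ℂ) + (t : ℂ) * I)) := by
  obtain ⟨C₁, hC₁, -, -, hser⟩ := Pool.Agent.W32.QS.qs_div K hK
  set s : ℂ := ((1 + η : ℝ) : ℂ) + (t : ℂ) * I with hs
  have hre : s.re = 1 + η := by simp [hs]
  have h1 := (hser s (by rw [hre]; linarith)).2
  have hS : Summable (fun n : ℕ => ((dK K n : ℝ) : ℂ) * (n : ℂ) ^ (-s)) := by
    refine Summable.of_norm ((summ K hK η hη).congr (fun n => ?_))
    rcases Nat.eq_zero_or_pos n with h | h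
    · subst h
      rw [dK_zero K hK]
      simp
    · rw [norm_mul, Complex.norm_of_nonneg (dK_nonneg K n), hs, norm_cpow_line _ _ n h]
  have h2 : riemannZeta s ^ K = ∑' n : ℕ, ((dK K n : ℝ) : ℂ) * (n : ℂ) ^ (-s) := by
    rw [h1]
    refine tsum_congr fun n => ?_
    unfold dK
    rw [Complex.ofReal_natCast]
  have h3 := hS.hasSum.mul_right (XX s)
  rw [← h2] at h3
  refine h3.congr_fun ?_
  intro n
  unfold Y
  rw [← hs]
  ring

lemma hasSum_int (K : ℕ) (hK : 1 ≤ K) (η : ℝ) (hη : 0 < η) (T : ℝ) :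
    HasSum (fun n : ℕ => ((dK K n : ℝ) : ℂ) * ∫ t in (12 : ℝ)..T, Y (1 + η) n t)
      (∫ t in (12 : ℝ)..T, riemannZeta (((1 + η : ℝ) : ℂ) + (t : ℂ) * I) ^ K *
        XX (((1 + η : ℝ) : ℂ) + (t : ℂ) * I)) := by
  have hc : (0 : ℝ) < 1 + η := by linarith
  obtain ⟨M, hM⟩ := (isCompact_uIcc (a := (12 : ℝ)) (b := T)).exists_bound_of_continuousOn
    (XX_cont (1 + η) hc).continuousOn
  have key := intervalIntegral.hasSum_integral_of_dominated_convergence (μ := volume) (a := 12) (b := T)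
    (F := fun (n : ℕ) (t : ℝ) => ((dK K n : ℝ) : ℂ) * Y (1 + η) n t)
    (f := fun t => riemannZeta (((1 + η : ℝ) : ℂ) + (t : ℂ) * I) ^ K *
      XX (((1 + η : ℝ) : ℂ) + (t : ℂ) * I))
    (fun n _ => dK K n * (n : ℝ) ^ (-(1 + η)) * M) ?_ ?_ ?_ ?_ ?_
  · simpa only [intervalIntegral.integral_const_mul] using key
  · intro n
    rcases Nat.eq_zero_or_pos n with h | h
    · subst h
      rw [dK_zero K hK]
      simp only [Complex.ofReal_zero, zero_mul]
      exact aestronglyMeasurable_const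
    · exact ((Y_cont (1 + η) hc n h).const_mul _).aestronglyMeasurable
  · intro n
    refine Filter.Eventually.of_forall fun t ht => ?_
    have hMt := hM t (uIoc_subset_uIcc ht)
    rcases Nat.eq_zero_or_pos n with h | h
    · subst h
      rw [dK_zero K hK]
      simp
    · rw [norm_mul, Complex.norm_of_nonneg (dK_nonneg K n)]
      unfold Y
      rw [norm_mul, norm_cpow_line _ _ n h]
      have h1 : ‖XX (((1 + η : ℝ) : ℂ) + (t : ℂ) * I)‖ * (n : ℝ) ^ (-(1 + η)) ≤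
          M * (n : ℝ) ^ (-(1 + η)) := mul_le_mul_of_nonneg_right hMt (by positivity)
      calc dK K n * (‖XX (((1 + η : ℝ) : ℂ) + (t : ℂ) * I)‖ * (n : ℝ) ^ (-(1 + η)))
          ≤ dK K n * (M * (n : ℝ) ^ (-(1 + η))) := mul_le_mul_of_nonneg_left h1 (dK_nonneg K n)
        _ = dK K n * (n : ℝ) ^ (-(1 + η)) * M := by ring
  · exact Filter.Eventually.of_forall fun t _ => (summ K hK η hη).mul_right M
  · exact intervalIntegrable_const
  · exact Filter.Eventually.of_forall fun t _ => hasSum_pt K hK η hη t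

lemma hasSum_DD (K : ℕ) (hK : 1 ≤ K) (T : ℝ) (hT : 12 ≤ T) :
    HasSum (fun n : ℕ => ((dK K n : ℝ) : ℂ) *
      ((if 2 * Real.pi * n ≤ T then 2 * Real.pi else 0 : ℝ) : ℂ))
      ((2 * Real.pi * DD K (T / (2 * Real.pi)) : ℝ) : ℂ) := by
  have hpi := Real.pi_pos
  have h1 : HasSum (fun n : ℕ => dK K n * (if 2 * Real.pi * n ≤ T then 2 * Real.pi else 0 : ℝ))
      (2 * Real.pi * DD K (T / (2 * Real.pi))) := by
    have h2 := hasSum_sum_of_ne_finset_zero (L := SummationFilter.unconditional ℕ) (f := fun n : ℕ => dK K n *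
      (if 2 * Real.pi * n ≤ T then 2 * Real.pi else 0 : ℝ))
      (s := Finset.Icc 1 ⌊T / (2 * Real.pi)⌋₊) ?_
    · have h3 : ∑ n ∈ Finset.Icc 1 ⌊T / (2 * Real.pi)⌋₊, dK K n *
          (if 2 * Real.pi * n ≤ T then 2 * Real.pi else 0 : ℝ) = 2 * Real.pi * DD K (T / (2 * Real.pi)) := by
        unfold DD
        rw [Finset.mul_sum]
        refine Finset.sum_congr rfl fun n hn => ?_
        rw [Finset.mem_Icc] at hn
        have h4 : (n : ℝ) ≤ T / (2 * Real.pi) := (Nat.le_floor_iff (by positivity)).1 hn.2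
        rw [le_div_iff₀ (by positivity)] at h4
        rw [if_pos (by linarith), mul_comm]
      rw [← h3]
      exact h2
    · intro n hn
      rw [Finset.mem_Icc, not_and_or] at hn
      rcases hn with hn | hn
      · have : n = 0 := by omega
        subst this
        rw [dK_zero K hK, zero_mul]
      · rw [Nat.le_floor_iff (by positivity), le_div_iff₀ (by positivity)] at hn
        rw [if_neg (by linarith), mul_zero]
  have h5 := Complex.hasSum_ofReal.2 h1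
  refine h5.congr_fun ?_
  intro n
  push_cast
  rfl

lemma hasSum_bd (K : ℕ) (hK : 1 ≤ K) (η : ℝ) (hη : 0 < η) (T : ℝ) (hT : 12 ≤ T) :
    HasSum (fun n : ℕ => dK K n * bd η T n)
      ((∑' n : ℕ, dK K n * (n : ℝ) ^ (-(1 + η))) * T ^ (1 / 2 + η) +
        ∑ n ∈ Finset.Icc 1 ⌊T⌋₊, dK K n * ((n : ℝ) ^ (η - 1 / 2) + √T / (√T + |T - 2 * Real.pi * n|))) := by
  have hT0 : (0 : ℝ) ≤ T := by linarith
  have h1 := (summ K hK η hη).hasSum.mul_right (T ^ (1 / 2 + η))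
  have h2 := hasSum_sum_of_ne_finset_zero (L := SummationFilter.unconditional ℕ) (f := fun n : ℕ => dK K n *
      (if (n : ℝ) ≤ T then (n : ℝ) ^ (η - 1 / 2) + √T / (√T + |T - 2 * Real.pi * n|) else 0))
      (s := Finset.Icc 1 ⌊T⌋₊) ?_
  · have h3 : ∑ n ∈ Finset.Icc 1 ⌊T⌋₊, dK K n *
        (if (n : ℝ) ≤ T then (n : ℝ) ^ (η - 1 / 2) + √T / (√T + |T - 2 * Real.pi * n|) else 0) =
        ∑ n ∈ Finset.Icc 1 ⌊T⌋₊, dK K n * ((n : ℝ) ^ (η - 1 / 2) + √T / (√T + |T - 2 * Real.pi * n|)) := by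
      refine Finset.sum_congr rfl fun n hn => ?_
      rw [Finset.mem_Icc] at hn
      rw [if_pos ((Nat.le_floor_iff hT0).1 hn.2)]
    rw [h3] at h2
    refine (h1.add h2).congr_fun ?_
    intro n
    unfold bd
    ring
  · intro n hn
    rw [Finset.mem_Icc, not_and_or] at hn
    rcases hn with hn | hn
    · have : n = 0 := by omega
      subst this
      rw [dK_zero K hK, zero_mul]
    · rw [Nat.le_floor_iff hT0] at hn
      rw [if_neg hn, mul_zero]

lemma sum_main (K : ℕ) (hK : 1 ≤ K) (ε η : ℝ) (hη : 0 < η) (hε : 2 * η ≤ ε) :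
    ∃ A : ℝ, 0 ≤ A ∧ ∀ T : ℝ, 12 ≤ T →
      ∑ n ∈ Finset.Icc 1 ⌊T⌋₊, dK K n * ((n : ℝ) ^ (η - 1 / 2) + √T / (√T + |T - 2 * Real.pi * n|)) ≤
        A * T ^ (1 / 2 + ε) := by
  obtain ⟨D, hD, hdK⟩ := dK_bound K hK (η / 2) (by positivity)
  refine ⟨D * (2 + 4 * (1 + 2 ^ (η / 2) / (η / 2))), by positivity, fun T hT => ?_⟩
  have hT0 : (0 : ℝ) < T := by linarith
  have hT1 : (1 : ℝ) ≤ T := by linarith
  have hfl : ((⌊T⌋₊ : ℕ) : ℝ) ≤ T := Nat.floor_le hT0.le
  have h1 : ∀ n ∈ Finset.Icc 1 ⌊T⌋₊,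
      dK K n * ((n : ℝ) ^ (η - 1 / 2) + √T / (√T + |T - 2 * Real.pi * n|)) ≤
      D * T ^ (η / 2) * (T ^ η * (n : ℝ) ^ (-(1 / 2 : ℝ)) + √T / (√T + |T - 2 * Real.pi * n|)) := by
    intro n hn
    rw [Finset.mem_Icc] at hn
    have hn0 : (0 : ℝ) < n := by exact_mod_cast (by omega : 0 < n)
    have hnT : (n : ℝ) ≤ T := (Nat.le_floor_iff hT0.le).1 hn.2
    have e1 : dK K n ≤ D * T ^ (η / 2) := (hdK n (by omega)).trans
      (mul_le_mul_of_nonneg_left (Real.rpow_le_rpow hn0.le hnT (by positivity)) hD.le)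
    have e2 : (n : ℝ) ^ (η - 1 / 2) ≤ T ^ η * (n : ℝ) ^ (-(1 / 2 : ℝ)) := by
      have : (n : ℝ) ^ (η - 1 / 2) = (n : ℝ) ^ η * (n : ℝ) ^ (-(1 / 2 : ℝ)) := by
        rw [← Real.rpow_add hn0]
        congr 1
      rw [this]
      exact mul_le_mul_of_nonneg_right (Real.rpow_le_rpow hn0.le hnT hη.le) (by positivity)
    have e3 : 0 ≤ √T / (√T + |T - 2 * Real.pi * n|) := by positivity
    have e4 : 0 ≤ (n : ℝ) ^ (η - 1 / 2) := by positivity
    exact mul_le_mul e1 (by linarith) (by linarith) (by positivity)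
  refine (Finset.sum_le_sum h1).trans ?_
  rw [← Finset.mul_sum, Finset.sum_add_distrib, ← Finset.mul_sum]
  have h2 : ∑ n ∈ Finset.Icc 1 ⌊T⌋₊, (n : ℝ) ^ (-(1 / 2 : ℝ)) ≤ 2 * √T :=
    (sum_sqrt _).trans (by have := Real.sqrt_le_sqrt hfl; linarith)
  have h3 := sum_near T hT
  have h4 : 1 + Real.log (2 * T) ≤ (1 + 2 ^ (η / 2) / (η / 2)) * T ^ (η / 2) := by
    have e1 := Real.log_le_rpow_div (by positivity : (0 : ℝ) ≤ 2 * T) (by positivity : 0 < η / 2)
    rw [Real.mul_rpow (by norm_num) hT0.le] at e1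
    have e2 : 1 ≤ T ^ (η / 2) := Real.one_le_rpow hT1 (by positivity)
    have e3 : (1 + 2 ^ (η / 2) / (η / 2)) * T ^ (η / 2) =
        T ^ (η / 2) + 2 ^ (η / 2) * T ^ (η / 2) / (η / 2) := by ring
    rw [e3]
    linarith
  have hs : √T = T ^ (1 / 2 : ℝ) := Real.sqrt_eq_rpow T
  have h5 : T ^ (η / 2) * (T ^ η * (2 * √T)) ≤ 2 * T ^ (1 / 2 + ε) := by
    have : T ^ (η / 2) * (T ^ η * (2 * √T)) = 2 * T ^ (η / 2 + η + 1 / 2) := by
      rw [hs, Real.rpow_add hT0, Real.rpow_add hT0]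
      ring
    rw [this]
    exact mul_le_mul_of_nonneg_left (Real.rpow_le_rpow_of_exponent_le hT1 (by linarith)) (by norm_num)
  have h6 : T ^ (η / 2) * (√T * (4 * ((1 + 2 ^ (η / 2) / (η / 2)) * T ^ (η / 2)))) ≤
      4 * (1 + 2 ^ (η / 2) / (η / 2)) * T ^ (1 / 2 + ε) := by
    have : T ^ (η / 2) * (√T * (4 * ((1 + 2 ^ (η / 2) / (η / 2)) * T ^ (η / 2)))) =
        4 * (1 + 2 ^ (η / 2) / (η / 2)) * T ^ (η / 2 + η / 2 + 1 / 2) := by
      rw [hs, Real.rpow_add hT0, Real.rpow_add hT0]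
      ring
    rw [this]
    exact mul_le_mul_of_nonneg_left (Real.rpow_le_rpow_of_exponent_le hT1 (by linarith)) (by positivity)
  have h7 : T ^ η * ∑ n ∈ Finset.Icc 1 ⌊T⌋₊, (n : ℝ) ^ (-(1 / 2 : ℝ)) ≤ T ^ η * (2 * √T) :=
    mul_le_mul_of_nonneg_left h2 (by positivity)
  have h8 : √T * (4 * (1 + Real.log (2 * T))) ≤
      √T * (4 * ((1 + 2 ^ (η / 2) / (η / 2)) * T ^ (η / 2))) :=
    mul_le_mul_of_nonneg_left (by linarith) (by positivity)
  calc D * T ^ (η / 2) * (T ^ η * ∑ n ∈ Finset.Icc 1 ⌊T⌋₊, (n : ℝ) ^ (-(1 / 2 : ℝ)) +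
        ∑ n ∈ Finset.Icc 1 ⌊T⌋₊, √T / (√T + |T - 2 * Real.pi * n|))
      ≤ D * T ^ (η / 2) * (T ^ η * (2 * √T) +
        √T * (4 * ((1 + 2 ^ (η / 2) / (η / 2)) * T ^ (η / 2)))) :=
        mul_le_mul_of_nonneg_left (by linarith) (by positivity)
    _ = D * (T ^ (η / 2) * (T ^ η * (2 * √T)) +
        T ^ (η / 2) * (√T * (4 * ((1 + 2 ^ (η / 2) / (η / 2)) * T ^ (η / 2))))) := by ring
    _ ≤ D * (2 * T ^ (1 / 2 + ε) + 4 * (1 + 2 ^ (η / 2) / (η / 2)) * T ^ (1 / 2 + ε)) :=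
        mul_le_mul_of_nonneg_left (by linarith) hD.le
    _ = D * (2 + 4 * (1 + 2 ^ (η / 2) / (η / 2))) * T ^ (1 / 2 + ε) := by ring

end Pool.Agent.N30.SR.LSUM

namespace Pool.Agent.N30.SR

open LSUM

theorem t_SUM (hN : S_NEAR) : S_SUM := by
  intro K hK ε η hη hηε hη2
  obtain ⟨C₀, hC₀, hNear⟩ := hN η hη hη2
  obtain ⟨A, hA, hmain⟩ := sum_main K hK ε η hη hηε
  set S : ℝ := ∑' n : ℕ, dK K n * (n : ℝ) ^ (-(1 + η)) with hS
  have hS0 : 0 ≤ S := tsum_nonneg fun n => mul_nonneg (dK_nonneg K n) (by positivity)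
  refine ⟨C₀ * (S + A), by positivity, fun T hT => ?_⟩
  have h1 := (hasSum_int K hK η hη T).sub (hasSum_DD K hK T hT)
  have h2 := (hasSum_bd K hK η hη T hT).mul_left C₀
  have h3 := h1.norm_le_of_bounded h2 ?_
  · refine h3.trans ?_
    have h4 := hmain T hT
    have h5 : T ^ (1 / 2 + η) ≤ T ^ (1 / 2 + ε) :=
      Real.rpow_le_rpow_of_exponent_le (by linarith) (by linarith)
    have h6 : S * T ^ (1 / 2 + η) ≤ S * T ^ (1 / 2 + ε) := mul_le_mul_of_nonneg_left h5 hS0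
    rw [← hS, mul_assoc, add_mul]
    exact mul_le_mul_of_nonneg_left (by linarith) hC₀
  · intro n
    rcases Nat.eq_zero_or_pos n with h | h
    · subst h
      rw [dK_zero K hK]
      simp
    · rw [← mul_sub, norm_mul, Complex.norm_of_nonneg (dK_nonneg K n)]
      calc dK K n * _ ≤ dK K n * (C₀ * bd η T n) :=
            mul_le_mul_of_nonneg_left (hNear T n hT h) (dK_nonneg K n)
        _ = C₀ * (dK K n * bd η T n) := by ring

end Pool.Agent.N30.SR
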