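import Pool.Agent.N30.SR.Stm
import Pool.Agent.W338.QS.Line
import Pool.Agent.W22.QS.Basic

set_option autoImplicit false

/-!
# Project SR (helper30), PART: integration by parts

Written by helper134.
-/

open Complex MeasureTheory Set Filter Topology Polynomial
open Pool.Agent.W188.QS (XX cp fp)

namespace Pool.Agent.N30.SR

namespace PART_

theorem im_s (c t : ℝ) : ((c : ℂ) + (t : ℂ) * I).im = t := by simp

theorem re_s (c t : ℝ) : ((c : ℂ) + (t : ℂ) * I).re = c := by simp

/-- the derivative of `Y` -/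
theorem hasDerivAt_Y (c t : ℝ) (n : ℕ) (hn : 1 ≤ n) (ht : 1 ≤ t) :
    HasDerivAt (Y c n) (I * (logDeriv XX ((c : ℂ) + (t : ℂ) * I) - (Real.log n : ℂ)) * Y c n t) t := by
  have hb := Pool.Agent.W22.QS.qs_basic ((c : ℂ) + (t : ℂ) * I) (by rw [im_s]; exact ht)
  have hn0 : (n : ℂ) ≠ 0 := by
    have : n ≠ 0 := by omega
    exact_mod_cast this
  have h0 : HasDerivAt (fun w : ℂ => (c : ℂ) + w * I) (1 * I) (t : ℂ) :=
    ((hasDerivAt_id (t : ℂ)).mul_const I).const_add (c : ℂ)
  have h1 : HasDerivAt (fun w : ℂ => XX ((c : ℂ) + w * I))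
      (deriv XX ((c : ℂ) + (t : ℂ) * I) * (1 * I)) (t : ℂ) :=
    HasDerivAt.comp (h₂ := XX) (h := fun w : ℂ => (c : ℂ) + w * I) (t : ℂ) hb.1.hasDerivAt h0
  have h2 : HasDerivAt (fun w : ℂ => (n : ℂ) ^ (-((c : ℂ) + w * I)))
      ((n : ℂ) ^ (-((c : ℂ) + (t : ℂ) * I)) * Complex.log n * (-(1 * I))) (t : ℂ) :=
    h0.neg.const_cpow (Or.inl hn0)
  have h3 := (h1.mul h2).comp_ofReal
  refine h3.congr_deriv ?_
  rw [← Complex.natCast_log]
  unfold Y logDeriv
  simp only [Pi.div_apply]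
  have h4 := hb.2.1
  field_simp
  ring

theorem hasDerivAt_gn (n : ℕ) (t : ℝ) (hn : 1 ≤ n) (ht : 0 < t) :
    HasDerivAt (gn n) (1 / t) t := by
  have hn0 : (0 : ℝ) < n := by exact_mod_cast hn
  have hpi := Real.pi_pos
  have h1 : HasDerivAt (fun x : ℝ => x / (2 * Real.pi * n)) (1 / (2 * Real.pi * n)) t :=
    (hasDerivAt_id t).div_const _
  have h2 := h1.log (by positivity)
  refine h2.congr_deriv ?_
  field_simp

theorem gn_eq (n : ℕ) (t : ℝ) (hn : 1 ≤ n) (ht : 0 < t) :
    gn n t = Real.log (t / (2 * Real.pi)) - Real.log n := by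
  have hn0 : (0 : ℝ) < n := by exact_mod_cast hn
  have hpi := Real.pi_pos
  unfold gn
  rw [← Real.log_div (by positivity) (by positivity)]
  congr 1
  field_simp

theorem gn_ne (n : ℕ) (t : ℝ) (hn : 1 ≤ n) (ht : 0 < t) (h : t ≠ 2 * Real.pi * n) :
    gn n t ≠ 0 := by
  have hn0 : (0 : ℝ) < n := by exact_mod_cast hn
  have hpi := Real.pi_pos
  intro h0
  apply h
  have h1 := Real.eq_one_of_pos_of_log_eq_zero (by positivity) h0
  rw [div_eq_one_iff_eq (by positivity)] at h1
  exact h1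

/-- the logarithmic derivative is continuous -/
theorem cont_L (c : ℝ) (a b : ℝ) (ha : 12 ≤ a) :
    ContinuousOn (fun t : ℝ => logDeriv XX ((c : ℂ) + (t : ℂ) * I)) (Icc a b) := by
  have ho : IsOpen {s : ℂ | 1 < s.im} := isOpen_lt continuous_const Complex.continuous_im
  have hd : DifferentiableOn ℂ XX {s : ℂ | 1 < s.im} := fun s hs =>
    (Pool.Agent.W22.QS.qs_basic s (le_of_lt hs)).1.differentiableWithinAt
  have hd' := hd.deriv ho
  have hcs : Continuous (fun t : ℝ => (c : ℂ) + (t : ℂ) * I) := by fun_prop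
  have hm : MapsTo (fun t : ℝ => (c : ℂ) + (t : ℂ) * I) (Icc a b) {s : ℂ | 1 < s.im} := by
    intro t ht
    show 1 < ((c : ℂ) + (t : ℂ) * I).im
    rw [im_s]
    linarith [ht.1]
  have h1 := hd'.continuousOn.comp hcs.continuousOn hm
  have h2 := hd.continuousOn.comp hcs.continuousOn hm
  refine h1.div h2 fun t ht => ?_
  exact (Pool.Agent.W22.QS.qs_basic ((c : ℂ) + (t : ℂ) * I) (by rw [im_s]; linarith [ht.1])).2.1

end PART_

open PART_ in
theorem t_PART : S_PART := by
  intro c a b n hc1 hc2 ha hab hn hne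
  obtain ⟨-, -, -, -, -, -, -, hline, -⟩ := Pool.Agent.W338.QS.qs_line
  set L : ℝ → ℂ := fun t => logDeriv XX ((c : ℂ) + (t : ℂ) * I) with hL
  have hLc : ContinuousOn L (Icc a b) := cont_L c a b ha
  have hg : ∀ t ∈ Icc a b, gn n t ≠ 0 := fun t ht =>
    gn_ne n t hn (by linarith [ht.1]) (hne t ht)
  have hgc : ContinuousOn (gn n) (Icc a b) := fun t ht =>
    (hasDerivAt_gn n t hn (by linarith [ht.1])).continuousAt.continuousWithinAt
  have hgC : ContinuousOn (fun t => ((gn n t : ℝ) : ℂ)) (Icc a b) :=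
    Complex.continuous_ofReal.comp_continuousOn hgc
  have hYc : ContinuousOn (Y c n) (Icc a b) := fun t ht =>
    (hasDerivAt_Y c t n hn (by linarith [ht.1])).continuousAt.continuousWithinAt
  have htc : ContinuousOn (fun t : ℝ => (t : ℂ)) (Icc a b) := Complex.continuous_ofReal.continuousOn
  have hlogc : ContinuousOn (fun t : ℝ => ((Real.log (t / (2 * Real.pi)) : ℝ) : ℂ)) (Icc a b) := by
    refine Complex.continuous_ofReal.comp_continuousOn ?_
    refine ContinuousOn.log (continuousOn_id.div_const _) fun t ht => ?_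
    have hpi := Real.pi_pos
    have : 0 < t := by linarith [ht.1]
    show t / (2 * Real.pi) ≠ 0
    positivity
  -- the remainder
  set R : ℝ → ℂ := fun t => (L t - ((Real.log (t / (2 * Real.pi)) : ℝ) : ℂ)) * Y c n t /
    ((gn n t : ℝ) : ℂ) + I * Y c n t / ((t : ℂ) * ((gn n t : ℝ) : ℂ) ^ 2) with hR
  have hg0 : ∀ t ∈ Icc a b, ((gn n t : ℝ) : ℂ) ≠ 0 := fun t ht => by
    exact_mod_cast hg t ht
  have ht0 : ∀ t ∈ Icc a b, (t : ℂ) ≠ 0 := fun t ht => by
    have : t ≠ 0 := by linarith [ht.1]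
    exact_mod_cast this
  have hRc : ContinuousOn R (Icc a b) := by
    refine ContinuousOn.add (((hLc.sub hlogc).mul hYc).div hgC hg0) ?_
    refine (continuousOn_const.mul hYc).div (htc.mul (hgC.pow 2)) fun t ht => ?_
    exact mul_ne_zero (ht0 t ht) (pow_ne_zero _ (hg0 t ht))
  set F : ℝ → ℂ := fun t => Y c n t / (I * ((gn n t : ℝ) : ℂ)) with hF
  have hFd : ∀ t ∈ uIcc a b, HasDerivAt F (Y c n t + R t) t := by
    intro t ht
    rw [uIcc_of_le hab] at ht
    have htp : 0 < t := by linarith [ht.1]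
    have h1 := hasDerivAt_Y c t n hn (by linarith [ht.1])
    have h2 : HasDerivAt (fun t : ℝ => I * ((gn n t : ℝ) : ℂ)) (I * ((1 / t : ℝ) : ℂ)) t :=
      ((hasDerivAt_gn n t hn htp).ofReal_comp).const_mul I
    have h3 := h1.div h2 (mul_ne_zero I_ne_zero (hg0 t ht))
    refine h3.congr_deriv ?_
    have h4 : ((Real.log n : ℝ) : ℂ) = ((Real.log (t / (2 * Real.pi)) : ℝ) : ℂ) -
        ((gn n t : ℝ) : ℂ) := by
      rw [gn_eq n t hn htp]
      push_cast
      ring
    have h5 := hg0 t ht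
    have h6 := ht0 t ht
    rw [h4, hR]
    simp only [hL]
    push_cast
    have hI : (I : ℂ) ^ 2 = -1 := I_sq
    field_simp
    generalize logDeriv XX ((c : ℂ) + (t : ℂ) * I) = l
    generalize Y c n t = y
    ring_nf
    rw [hI]
    ring
  have hint : IntervalIntegrable (fun t => Y c n t + R t) volume a b := by
    apply ContinuousOn.intervalIntegrable
    rw [uIcc_of_le hab]
    exact hYc.add hRc
  have hYi : IntervalIntegrable (Y c n) volume a b := by
    apply ContinuousOn.intervalIntegrable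
    rw [uIcc_of_le hab]
    exact hYc
  have hRi : IntervalIntegrable R volume a b := by
    apply ContinuousOn.intervalIntegrable
    rw [uIcc_of_le hab]
    exact hRc
  have hftc := intervalIntegral.integral_eq_sub_of_hasDerivAt hFd hint
  rw [intervalIntegral.integral_add hYi hRi] at hftc
  have hYeq : ∫ t in a..b, Y c n t = F b - F a - ∫ t in a..b, R t := by
    rw [← hftc]
    ring
  have hFn : ∀ t, ‖F t‖ = ‖Y c n t‖ / |gn n t| := by
    intro t
    rw [hF]
    simp only [norm_div, norm_mul, Complex.norm_I, one_mul, Complex.norm_real, Real.norm_eq_abs]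
  have hRn : ∀ t ∈ Icc a b, ‖R t‖ ≤ ‖Y c n t‖ * (1 / (t * gn n t ^ 2) + 14 / (t * |gn n t|)) := by
    intro t ht
    have htp : 0 < t := by linarith [ht.1]
    have hgp : 0 < |gn n t| := abs_pos.2 (hg t ht)
    have h1 : ‖L t - ((Real.log (t / (2 * Real.pi)) : ℝ) : ℂ)‖ ≤ 14 / t := by
      have := hline ((c : ℂ) + (t : ℂ) * I) (by rw [re_s]; linarith) (by rw [re_s]; exact hc2)
        (by rw [im_s]; linarith [ht.1])
      rw [im_s] at this
      exact this
    have h2 : ‖(L t - ((Real.log (t / (2 * Real.pi)) : ℝ) : ℂ)) * Y c n t /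
        ((gn n t : ℝ) : ℂ)‖ ≤ ‖Y c n t‖ * (14 / (t * |gn n t|)) := by
      rw [norm_div, norm_mul, Complex.norm_real, Real.norm_eq_abs, div_le_iff₀ hgp]
      have e1 : ‖Y c n t‖ * (14 / (t * |gn n t|)) * |gn n t| = 14 / t * ‖Y c n t‖ := by
        field_simp
      rw [e1]
      exact mul_le_mul_of_nonneg_right h1 (norm_nonneg _)
    have h3 : ‖I * Y c n t / ((t : ℂ) * ((gn n t : ℝ) : ℂ) ^ 2)‖ =
        ‖Y c n t‖ * (1 / (t * gn n t ^ 2)) := by
      rw [norm_div, norm_mul, norm_mul, norm_pow, Complex.norm_I, one_mul, Complex.norm_real,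
        Complex.norm_real, Real.norm_eq_abs, Real.norm_eq_abs, sq_abs, abs_of_pos htp]
      ring
    refine (norm_add_le _ _).trans ?_
    rw [h3]
    linarith
  have hbc : ContinuousOn (fun t => ‖Y c n t‖ * (1 / (t * gn n t ^ 2) + 14 / (t * |gn n t|)))
      (Icc a b) := by
    refine hYc.norm.mul (ContinuousOn.add ?_ ?_)
    · refine continuousOn_const.div (continuousOn_id.mul (hgc.pow 2)) fun t ht => ?_
      have htp : t ≠ 0 := by linarith [ht.1]
      exact mul_ne_zero htp (pow_ne_zero _ (hg t ht))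
    · refine continuousOn_const.div (continuousOn_id.mul hgc.abs) fun t ht => ?_
      have htp : t ≠ 0 := by linarith [ht.1]
      exact mul_ne_zero htp (abs_ne_zero.2 (hg t ht))
  have hbi : IntervalIntegrable
      (fun t => ‖Y c n t‖ * (1 / (t * gn n t ^ 2) + 14 / (t * |gn n t|))) volume a b := by
    apply ContinuousOn.intervalIntegrable
    rw [uIcc_of_le hab]
    exact hbc
  have hRI : ‖∫ t in a..b, R t‖ ≤
      ∫ t in a..b, ‖Y c n t‖ * (1 / (t * gn n t ^ 2) + 14 / (t * |gn n t|)) :=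
    intervalIntegral.norm_integral_le_of_norm_le hab
      (ae_of_all _ fun t ht => hRn t (Ioc_subset_Icc_self ht)) hbi
  rw [hYeq]
  have e1 := norm_sub_le (F b - F a) (∫ t in a..b, R t)
  have e2 := norm_sub_le (F b) (F a)
  rw [hFn, hFn] at e2
  linarith

end Pool.Agent.N30.SR
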