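import Pool.Agent.N30.SR.Stm
import Pool.Agent.H437R2.A1

set_option autoImplicit false

/-!
# Project SR (helper30), part CVX (helper152): convexity bound between the lines 1/2 and 1
-/

open Complex MeasureTheory Set Filter Topology Polynomial
open Pool.Agent.W188.QS (XX cp fp)

namespace Pool.Agent.N30.SR

namespace CvxAux

/-- the zeta function to the right of the line `Re s = c` -/
theorem zeta_right {c : ℝ} (hc : 1 < c) : ∃ M : ℝ, 1 ≤ M ∧ ∀ s : ℂ, c ≤ s.re → ‖riemannZeta s‖ ≤ M := by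
  have hsum : Summable fun n : ℕ => 1 / ((n : ℝ) + 1) ^ c := by
    have h1 := (Real.summable_one_div_nat_rpow (p := c)).2 hc
    have h2 := (summable_nat_add_iff 1).2 h1
    refine h2.congr fun n => ?_
    push_cast
    rfl
  refine ⟨max 1 (∑' n : ℕ, 1 / ((n : ℝ) + 1) ^ c), le_max_left _ _, fun s hs => ?_⟩
  refine le_trans ?_ (le_max_right _ _)
  rw [zeta_eq_tsum_one_div_nat_add_one_cpow (lt_of_lt_of_le hc hs)]
  have hterm : ∀ n : ℕ, ‖1 / ((n : ℂ) + 1) ^ s‖ ≤ 1 / ((n : ℝ) + 1) ^ c := by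
    intro n
    have h0 : (0 : ℝ) < (n : ℝ) + 1 := by positivity
    have e : ((n : ℂ) + 1) = (((n : ℝ) + 1 : ℝ) : ℂ) := by push_cast; rfl
    rw [norm_div, norm_one, e, Complex.norm_cpow_eq_rpow_re_of_pos h0]
    apply one_div_le_one_div_of_le (by positivity)
    apply Real.rpow_le_rpow_of_exponent_le _ hs
    linarith [(Nat.cast_nonneg n : (0 : ℝ) ≤ n)]
  have hs2 : Summable fun n : ℕ => ‖1 / ((n : ℂ) + 1) ^ s‖ :=
    Summable.of_nonneg_of_le (fun n => norm_nonneg _) hterm hsum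
  refine (norm_tsum_le_tsum_norm hs2).trans ?_
  exact hs2.tsum_le_tsum hterm hsum

/-- the auxiliary function -/
noncomputable def F (T : ℝ) (w : ℂ) : ℂ := riemannZeta₁ (w + (T : ℂ) * I) * cexp (w ^ 2)

theorem F_diff (T : ℝ) : Differentiable ℂ (F T) := by
  unfold F
  refine Differentiable.mul ?_ ?_
  · exact differentiable_riemannZeta₁.comp (by fun_prop)
  · fun_prop

theorem norm_exp_sq (w : ℂ) : ‖cexp (w ^ 2)‖ = Real.exp (w.re ^ 2 - w.im ^ 2) := by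
  rw [Complex.norm_exp]
  congr 1
  rw [sq, Complex.mul_re]
  ring

/-- elementary inequality -/
theorem exp_poly (v : ℝ) : (1 + |v|) * Real.exp (-v ^ 2) ≤ 2 ∧ (1 + v ^ 2) * Real.exp (-v ^ 2) ≤ 1 := by
  have h1 : 1 + v ^ 2 ≤ Real.exp (v ^ 2) := by
    have := Real.add_one_le_exp (v ^ 2)
    linarith
  have h2 : Real.exp (v ^ 2) * Real.exp (-v ^ 2) = 1 := by
    rw [← Real.exp_add]
    simp
  have h3 : 0 < Real.exp (-v ^ 2) := Real.exp_pos _
  have h4 : (1 + v ^ 2) * Real.exp (-v ^ 2) ≤ 1 := by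
    have h5 := mul_le_mul_of_nonneg_right h1 h3.le
    rwa [h2] at h5
  refine ⟨?_, h4⟩
  have h5 : 1 + |v| ≤ 2 * (1 + v ^ 2) := by
    have h6 := sq_abs v
    nlinarith [sq_nonneg (|v| - 1), abs_nonneg v]
  calc (1 + |v|) * Real.exp (-v ^ 2) ≤ (2 * (1 + v ^ 2)) * Real.exp (-v ^ 2) :=
        mul_le_mul_of_nonneg_right h5 h3.le
    _ = 2 * ((1 + v ^ 2) * Real.exp (-v ^ 2)) := by ring
    _ ≤ 2 := by linarith

theorem norm_pt (T : ℝ) (w : ℂ) : ‖w + (T : ℂ) * I‖ ≤ |w.re| + (|w.im| + |T|) := by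
  refine (Complex.norm_le_abs_re_add_abs_im _).trans ?_
  have e1 : (w + (T : ℂ) * I).re = w.re := by simp
  have e2 : (w + (T : ℂ) * I).im = w.im + T := by simp
  rw [e1, e2]
  exact add_le_add le_rfl (abs_add_le _ _)

/-- crude bound in the strip -/
theorem F_crude {T : ℝ} (hT : 1 ≤ T) {w : ℂ} (h1 : 1 / 2 ≤ w.re) (h2 : w.re ≤ 2) :
    ‖F T w‖ ≤ 3 * (|w.im| + T + 3) ^ 2 * (Real.exp 4 * Real.exp (-w.im ^ 2)) := by
  unfold F
  rw [norm_mul, norm_exp_sq]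
  have h3 : ‖riemannZeta₁ (w + (T : ℂ) * I)‖ ≤ 3 * (‖w + (T : ℂ) * I‖ + 1) ^ 2 := by
    apply Pool.Agent.H437R2.z1_norm_le
    simpa using h1
  have h4 := norm_pt T w
  rw [abs_of_nonneg (by linarith : 0 ≤ w.re), abs_of_nonneg (by linarith : 0 ≤ T)] at h4
  have h5' : ‖w + (T : ℂ) * I‖ + 1 ≤ |w.im| + T + 3 := by linarith
  have h5 : 3 * (‖w + (T : ℂ) * I‖ + 1) ^ 2 ≤ 3 * (|w.im| + T + 3) ^ 2 :=
    mul_le_mul_of_nonneg_left (pow_le_pow_left₀ (by positivity) h5' 2) (by norm_num)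
  have h6 : Real.exp (w.re ^ 2 - w.im ^ 2) ≤ Real.exp 4 * Real.exp (-w.im ^ 2) := by
    rw [← Real.exp_add]
    apply Real.exp_le_exp.2
    nlinarith
  exact mul_le_mul (h3.trans h5) h6 (Real.exp_pos _).le (by positivity)

theorem F_bdd {T : ℝ} (hT : 1 ≤ T) {w : ℂ} (h1 : 1 / 2 ≤ w.re) (h2 : w.re ≤ 2) :
    ‖F T w‖ ≤ 6 * (T + 3) ^ 2 * Real.exp 4 := by
  refine (F_crude hT h1 h2).trans ?_
  obtain ⟨-, h3⟩ := exp_poly w.im
  have h4 : (|w.im| + T + 3) ^ 2 ≤ 2 * (T + 3) ^ 2 * (1 + w.im ^ 2) := by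
    have h5 := sq_abs w.im
    have h6 := abs_nonneg w.im
    have h7 : (|w.im| + T + 3) ^ 2 ≤ 2 * |w.im| ^ 2 + 2 * (T + 3) ^ 2 := by
      nlinarith [sq_nonneg (|w.im| - (T + 3))]
    have h8 : 1 ≤ (T + 3) ^ 2 := by nlinarith
    rw [h5] at h7
    nlinarith [sq_nonneg w.im]
  have h9 : 0 < Real.exp 4 := Real.exp_pos _
  have h10 : 0 < Real.exp (-w.im ^ 2) := Real.exp_pos _
  calc 3 * (|w.im| + T + 3) ^ 2 * (Real.exp 4 * Real.exp (-w.im ^ 2))
      ≤ 3 * (2 * (T + 3) ^ 2 * (1 + w.im ^ 2)) * (Real.exp 4 * Real.exp (-w.im ^ 2)) := by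
        gcongr
    _ = 6 * (T + 3) ^ 2 * Real.exp 4 * ((1 + w.im ^ 2) * Real.exp (-w.im ^ 2)) := by ring
    _ ≤ 6 * (T + 3) ^ 2 * Real.exp 4 * 1 := by gcongr
    _ = _ := mul_one _

/-- the left line -/
theorem F_left {κ e C₀ t₀ : ℝ} (hκ : 0 ≤ κ) (he : 0 < e) (hC₀ : 0 ≤ C₀) (ht₀ : 1 ≤ t₀)
    (H : ∀ y : ℝ, t₀ ≤ y → ‖riemannZeta (cp y)‖ ≤ C₀ * y ^ (κ + e)) {T : ℝ} (hT : 2 * t₀ ≤ T) {w : ℂ}
    (hw : w.re = 1 / 2) :
    ‖F T w‖ ≤ (3 * C₀ * 2 ^ (κ + e) * Real.exp 4 + 300 * Real.exp 4) * T ^ (1 + κ + e) := by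
  have hT1 : 1 ≤ T := by linarith
  have hT0 : 0 < T := by linarith
  have h4 : 0 < Real.exp 4 := Real.exp_pos _
  have hTp : 1 ≤ T ^ (1 + κ + e) := Real.one_le_rpow hT1 (by linarith)
  rcases le_total |w.im| (T / 2) with hv | hv
  · -- near `T`
    have hv' := abs_le.1 hv
    have hy1 : t₀ ≤ w.im + T := by linarith
    have hy2 : w.im + T ≤ 2 * T := by linarith
    have hy0 : 0 < w.im + T := by linarith
    have e1 : w + (T : ℂ) * I = cp (w.im + T) := by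
      unfold cp
      apply Complex.ext <;> simp [hw]
    have hne : cp (w.im + T) ≠ 1 := by
      intro h
      have := congrArg Complex.im h
      simp [cp] at this
      linarith
    unfold F
    rw [norm_mul, norm_exp_sq, e1, Pool.Agent.H437R2.z1_of_ne hne, norm_mul]
    have g1 : ‖cp (w.im + T) - 1‖ ≤ 3 * T := by
      refine (Complex.norm_le_abs_re_add_abs_im _).trans ?_
      have r1 : (cp (w.im + T) - 1).re = -(1 / 2) := by
        have r0 : (cp (w.im + T) - 1).re = 1 / 2 - 1 := by simp [cp]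
        rw [r0]
        norm_num
      have r2 : (cp (w.im + T) - 1).im = w.im + T := by simp [cp]
      rw [r1, r2, abs_neg, abs_of_nonneg (by norm_num : (0 : ℝ) ≤ 1 / 2), abs_of_pos hy0]
      linarith
    have g2 : ‖riemannZeta (cp (w.im + T))‖ ≤ C₀ * (2 ^ (κ + e) * T ^ (κ + e)) := by
      refine (H _ hy1).trans ?_
      rw [← Real.mul_rpow (by norm_num) hT0.le]
      gcongr
    have g3 : Real.exp (w.re ^ 2 - w.im ^ 2) ≤ Real.exp 4 := by
      apply Real.exp_le_exp.2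
      rw [hw]
      nlinarith [sq_nonneg w.im]
    have g4 : T ^ (1 + κ + e) = T * T ^ (κ + e) := by
      rw [show 1 + κ + e = 1 + (κ + e) by ring, Real.rpow_add hT0, Real.rpow_one]
    calc ‖cp (w.im + T) - 1‖ * ‖riemannZeta (cp (w.im + T))‖ * Real.exp (w.re ^ 2 - w.im ^ 2)
        ≤ (3 * T) * (C₀ * (2 ^ (κ + e) * T ^ (κ + e))) * Real.exp 4 := by gcongr
      _ = (3 * C₀ * 2 ^ (κ + e) * Real.exp 4) * T ^ (1 + κ + e) := by rw [g4]; ring
      _ ≤ _ := by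
        gcongr
        linarith
  · -- far away
    have g1 := F_crude hT1 (w := w) (by rw [hw]) (by rw [hw]; norm_num)
    obtain ⟨-, g2⟩ := exp_poly w.im
    have g3 : (|w.im| + T + 3) ^ 2 ≤ 36 * (1 + w.im ^ 2) := by
      have h5 := sq_abs w.im
      have h6 := abs_nonneg w.im
      have h7 : |w.im| + T + 3 ≤ 3 * |w.im| + 3 := by linarith
      have h8 : (|w.im| + T + 3) ^ 2 ≤ (3 * |w.im| + 3) ^ 2 := by gcongr
      nlinarith [sq_nonneg (|w.im| - 1)]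
    calc ‖F T w‖ ≤ 3 * (|w.im| + T + 3) ^ 2 * (Real.exp 4 * Real.exp (-w.im ^ 2)) := g1
      _ ≤ 3 * (36 * (1 + w.im ^ 2)) * (Real.exp 4 * Real.exp (-w.im ^ 2)) := by gcongr
      _ = 108 * Real.exp 4 * ((1 + w.im ^ 2) * Real.exp (-w.im ^ 2)) := by ring
      _ ≤ 108 * Real.exp 4 * 1 := by gcongr
      _ ≤ 300 * Real.exp 4 := by linarith
      _ ≤ (300 * Real.exp 4) * T ^ (1 + κ + e) := le_mul_of_one_le_right (by positivity) hTp
      _ ≤ _ := by
        gcongr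
        have : 0 ≤ 3 * C₀ * 2 ^ (κ + e) * Real.exp 4 := by positivity
        linarith

/-- the right line -/
theorem F_right {c M : ℝ} (hc : 1 < c) (hc2 : c ≤ 2) (hM : 1 ≤ M)
    (H : ∀ s : ℂ, c ≤ s.re → ‖riemannZeta s‖ ≤ M) {T : ℝ} (hT : 1 ≤ T) {w : ℂ} (hw : w.re = c) :
    ‖F T w‖ ≤ (4 * M * Real.exp 4) * T := by
  have h4 : 0 < Real.exp 4 := Real.exp_pos _
  have hre : (w + (T : ℂ) * I).re = c := by simp [hw]
  have hne : w + (T : ℂ) * I ≠ 1 := by
    intro h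
    have := congrArg Complex.re h
    rw [hre, Complex.one_re] at this
    linarith
  unfold F
  rw [norm_mul, norm_exp_sq, Pool.Agent.H437R2.z1_of_ne hne, norm_mul]
  have g1 : ‖w + (T : ℂ) * I - 1‖ ≤ 2 * T * (1 + |w.im|) := by
    refine (Complex.norm_le_abs_re_add_abs_im _).trans ?_
    have r1 : (w + (T : ℂ) * I - 1).re = c - 1 := by simp [hw]
    have r2 : (w + (T : ℂ) * I - 1).im = w.im + T := by simp
    rw [r1, r2, abs_of_nonneg (by linarith)]
    have h5 := abs_add_le w.im T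
    rw [abs_of_nonneg (by linarith : 0 ≤ T)] at h5
    have h6 := abs_nonneg w.im
    nlinarith
  have g2 : ‖riemannZeta (w + (T : ℂ) * I)‖ ≤ M := H _ hre.ge
  have g3 : Real.exp (w.re ^ 2 - w.im ^ 2) ≤ Real.exp 4 * Real.exp (-w.im ^ 2) := by
    rw [← Real.exp_add]
    apply Real.exp_le_exp.2
    rw [hw]
    nlinarith
  obtain ⟨g4, -⟩ := exp_poly w.im
  have g5 : 0 < Real.exp (-w.im ^ 2) := Real.exp_pos _
  calc ‖w + (T : ℂ) * I - 1‖ * ‖riemannZeta (w + (T : ℂ) * I)‖ * Real.exp (w.re ^ 2 - w.im ^ 2)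
      ≤ (2 * T * (1 + |w.im|)) * M * (Real.exp 4 * Real.exp (-w.im ^ 2)) := by gcongr
    _ = 2 * M * Real.exp 4 * T * ((1 + |w.im|) * Real.exp (-w.im ^ 2)) := by ring
    _ ≤ 2 * M * Real.exp 4 * T * 2 := by gcongr
    _ = _ := by ring

end CvxAux

open CvxAux in
/-- CVX -/
theorem t_CVX : S_CVX := by
  intro κ hκ H ε hε
  obtain ⟨e, he, he1, heε⟩ : ∃ e : ℝ, 0 < e ∧ e ≤ 1 ∧ (2 * κ + 1) * e ≤ ε := by
    refine ⟨min 1 (ε / (2 * κ + 1)), by positivity, min_le_left _ _, ?_⟩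
    have h1 : min 1 (ε / (2 * κ + 1)) ≤ ε / (2 * κ + 1) := min_le_right _ _
    have h2 : 0 < 2 * κ + 1 := by linarith
    calc (2 * κ + 1) * min 1 (ε / (2 * κ + 1)) ≤ (2 * κ + 1) * (ε / (2 * κ + 1)) :=
          mul_le_mul_of_nonneg_left h1 h2.le
      _ = ε := by field_simp
  obtain ⟨C0, t0, hC0⟩ := H e he
  obtain ⟨C₀, hC₀⟩ : ∃ C₀, C₀ = max C0 0 := ⟨_, rfl⟩
  obtain ⟨t₀, ht₀⟩ : ∃ t₀, t₀ = max t0 1 := ⟨_, rfl⟩
  have hC₀0 : 0 ≤ C₀ := by rw [hC₀]; exact le_max_right _ _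
  have ht₀1 : 1 ≤ t₀ := by rw [ht₀]; exact le_max_right _ _
  have H' : ∀ y : ℝ, t₀ ≤ y → ‖riemannZeta (cp y)‖ ≤ C₀ * y ^ (κ + e) := by
    intro y hy
    have hy0 : t0 ≤ y := by
      rw [ht₀] at hy
      exact (le_max_left _ _).trans hy
    have hy1 : 0 ≤ y := by linarith
    refine (hC0 y hy0).trans ?_
    gcongr
    rw [hC₀]
    exact le_max_left _ _
  obtain ⟨M, hM, hMz⟩ := zeta_right (c := 1 + e) (by linarith)
  obtain ⟨A, hA⟩ : ∃ A : ℝ, A = 3 * C₀ * 2 ^ (κ + e) * Real.exp 4 + 300 * Real.exp 4 := ⟨_, rfl⟩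
  obtain ⟨B, hB⟩ : ∃ B : ℝ, B = 4 * M * Real.exp 4 := ⟨_, rfl⟩
  have h4 : 1 ≤ Real.exp 4 := Real.one_le_exp (by norm_num)
  have hA1 : 1 ≤ A := by
    have : 0 ≤ 3 * C₀ * 2 ^ (κ + e) * Real.exp 4 := by positivity
    rw [hA]
    linarith
  have hB1 : 1 ≤ B := by
    rw [hB]
    nlinarith
  refine ⟨A * B + M, 2 * t₀, by positivity, by linarith, ?_⟩
  intro T σ hT hσ1 hσ2
  have hT1 : 1 ≤ T := by linarith
  have hT0 : 0 < T := by linarith
  have hmax0 : 0 ≤ max (1 - σ) 0 := le_max_right _ _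
  have hexp0 : 0 ≤ 2 * κ * max (1 - σ) 0 + ε := by positivity
  rcases le_total (1 + e) σ with hσ | hσ
  · -- to the right
    have h1 : ‖riemannZeta ((σ : ℂ) + (T : ℂ) * I)‖ ≤ M := by
      apply hMz
      simpa using hσ
    have h2 : 1 ≤ T ^ (2 * κ * max (1 - σ) 0 + ε) := Real.one_le_rpow hT1 hexp0
    have h3 : 0 ≤ A * B := by positivity
    nlinarith
  · -- three lines
    have hul : (1 / 2 : ℝ) < 1 + e := by linarith
    obtain ⟨x, hx⟩ : ∃ x : ℝ, x = (σ - 1 / 2) / (1 + e - 1 / 2) := ⟨_, rfl⟩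
    have hx0 : 0 ≤ x := by
      rw [hx]
      exact div_nonneg (by linarith) (by linarith)
    have hx1 : x ≤ 1 := by
      rw [hx, div_le_one (by linarith)]
      linarith
    have h1 := Complex.HadamardThreeLines.norm_le_interp_of_mem_verticalClosedStrip' (f := F T)
      (z := (σ : ℂ)) (a := A * T ^ (1 + κ + e)) (b := B * T) hul
      (by
        show (σ : ℂ).re ∈ Icc (1 / 2 : ℝ) (1 + e)
        rw [Complex.ofReal_re]
        exact ⟨hσ1, hσ⟩)
      (F_diff T).diffContOnCl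
      (by
        refine ⟨6 * (T + 3) ^ 2 * Real.exp 4, ?_⟩
        rintro _ ⟨w, hw, rfl⟩
        have hw' : w.re ∈ Icc (1 / 2 : ℝ) (1 + e) := hw
        exact F_bdd hT1 hw'.1 (by linarith [hw'.2]))
      (by
        intro w hw
        have hw' : w.re = 1 / 2 := hw
        rw [hA]
        exact F_left hκ he hC₀0 ht₀1 H' hT hw')
      (by
        intro w hw
        have hw' : w.re = 1 + e := hw
        rw [hB]
        exact F_right (by linarith) (by linarith) hM hMz hT1 hw')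
    rw [Complex.ofReal_re, ← hx] at h1
    -- lower bound of `F`
    have hne : (σ : ℂ) + (T : ℂ) * I ≠ 1 := by
      intro h
      have := congrArg Complex.im h
      simp at this
      linarith
    have h2 : T * ‖riemannZeta ((σ : ℂ) + (T : ℂ) * I)‖ ≤ ‖F T (σ : ℂ)‖ := by
      unfold F
      rw [norm_mul, norm_exp_sq, Pool.Agent.H437R2.z1_of_ne hne, norm_mul]
      have g1 : T ≤ ‖(σ : ℂ) + (T : ℂ) * I - 1‖ := by
        have := Complex.abs_im_le_norm ((σ : ℂ) + (T : ℂ) * I - 1)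
        have r : ((σ : ℂ) + (T : ℂ) * I - 1).im = T := by simp
        rw [r, abs_of_pos hT0] at this
        exact this
      have g2 : 1 ≤ Real.exp ((σ : ℂ).re ^ 2 - (σ : ℂ).im ^ 2) := by
        apply Real.one_le_exp
        simp
        positivity
      calc T * ‖riemannZeta ((σ : ℂ) + (T : ℂ) * I)‖
          ≤ ‖(σ : ℂ) + (T : ℂ) * I - 1‖ * ‖riemannZeta ((σ : ℂ) + (T : ℂ) * I)‖ := by gcongr
        _ ≤ _ := le_mul_of_one_le_right (by positivity) g2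
    have h3 : (A * T ^ (1 + κ + e)) ^ (1 - x) * (B * T) ^ x ≤
        A * B * (T * T ^ ((κ + e) * (1 - x))) := by
      rw [Real.mul_rpow (by positivity) (by positivity), Real.mul_rpow (by positivity) hT0.le,
        ← Real.rpow_mul hT0.le]
      have g1 : A ^ (1 - x) ≤ A := by
        have := Real.rpow_le_rpow_of_exponent_le hA1 (by linarith : 1 - x ≤ 1)
        rwa [Real.rpow_one] at this
      have g2 : B ^ x ≤ B := by
        have := Real.rpow_le_rpow_of_exponent_le hB1 hx1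
        rwa [Real.rpow_one] at this
      have g3 : T ^ ((1 + κ + e) * (1 - x)) * T ^ x = T * T ^ ((κ + e) * (1 - x)) := by
        rw [← Real.rpow_add hT0]
        conv_rhs => rw [← Real.rpow_one T, ← Real.rpow_mul hT0.le, ← Real.rpow_add hT0]
        congr 1
        ring
      calc A ^ (1 - x) * T ^ ((1 + κ + e) * (1 - x)) * (B ^ x * T ^ x)
          = A ^ (1 - x) * B ^ x * (T ^ ((1 + κ + e) * (1 - x)) * T ^ x) := by ring
        _ = A ^ (1 - x) * B ^ x * (T * T ^ ((κ + e) * (1 - x))) := by rw [g3]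
        _ ≤ A * B * (T * T ^ ((κ + e) * (1 - x))) := by gcongr
    have h5 : ‖riemannZeta ((σ : ℂ) + (T : ℂ) * I)‖ ≤ A * B * T ^ ((κ + e) * (1 - x)) := by
      have g1 : T * ‖riemannZeta ((σ : ℂ) + (T : ℂ) * I)‖ ≤ T * (A * B * T ^ ((κ + e) * (1 - x))) := by
        refine h2.trans (h1.trans (h3.trans (le_of_eq (by ring))))
      exact le_of_mul_le_mul_left g1 hT0
    have h6 : (κ + e) * (1 - x) ≤ 2 * κ * max (1 - σ) 0 + ε := by
      have g1 : 1 - x ≤ 2 * max (1 - σ) 0 + 2 * e := by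
        have g2 : 1 - x = (1 + e - σ) / (1 + e - 1 / 2) := by
          have hne' : (1 + e - 1 / 2 : ℝ) ≠ 0 := by linarith
          rw [hx, eq_div_iff hne', sub_mul, div_mul_cancel₀ _ hne']
          ring
        have g3 : (1 + e - σ) / (1 + e - 1 / 2) ≤ 2 * (1 + e - σ) := by
          rw [div_le_iff₀ (by linarith)]
          nlinarith
        have g4 := le_max_left (1 - σ) 0
        rw [g2]
        linarith
      have g5 : κ * (1 - x) ≤ κ * (2 * max (1 - σ) 0 + 2 * e) := mul_le_mul_of_nonneg_left g1 hκ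
      have g6 : e * (1 - x) ≤ e := by nlinarith
      nlinarith
    have h7 : T ^ ((κ + e) * (1 - x)) ≤ T ^ (2 * κ * max (1 - σ) 0 + ε) :=
      Real.rpow_le_rpow_of_exponent_le hT1 h6
    have h8 : 0 ≤ M * T ^ (2 * κ * max (1 - σ) 0 + ε) := by positivity
    calc ‖riemannZeta ((σ : ℂ) + (T : ℂ) * I)‖ ≤ A * B * T ^ ((κ + e) * (1 - x)) := h5
      _ ≤ A * B * T ^ (2 * κ * max (1 - σ) 0 + ε) := by gcongr
      _ ≤ (A * B + M) * T ^ (2 * κ * max (1 - σ) 0 + ε) := by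
        rw [add_mul]
        linarith

end Pool.Agent.N30.SR
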