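import Pool.Agent.N30.SR.Stm

set_option autoImplicit false

/-!
# Project SR (helper30), part EST: the estimate of the integral
-/

open Complex MeasureTheory Set Filter Topology Polynomial
open Pool.Agent.W188.QS (XX cp fp)

namespace Pool.Agent.N30.SR

namespace EST

theorem cp_re (t : ℝ) : (cp t).re = 1 / 2 := by
  unfold cp
  simp

theorem cp_im (t : ℝ) : (cp t).im = t := by
  unfold cp
  simp

theorem cp_ne (t : ℝ) : cp t ≠ 1 := by
  intro h
  have h1 := cp_re t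
  rw [h, Complex.one_re] at h1
  norm_num at h1

theorem cp_cont : Continuous cp := by
  unfold cp
  fun_prop

theorem zeta_cont : Continuous fun t : ℝ => riemannZeta (cp t) := by
  rw [continuous_iff_continuousAt]
  intro t
  exact (differentiableAt_riemannZeta (cp_ne t)).continuousAt.comp cp_cont.continuousAt

theorem zeta_abs (t : ℝ) : ‖riemannZeta (cp t)‖ = ‖riemannZeta (cp |t|)‖ := by
  rcases le_total 0 t with h | h
  · rw [abs_of_nonneg h]
  · rw [abs_of_nonpos h]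
    have h1 : cp t = starRingEnd ℂ (cp (-t)) := by
      apply Complex.ext
      · rw [Complex.conj_re, cp_re, cp_re]
      · rw [Complex.conj_im, cp_im, cp_im, neg_neg]
    rw [h1, riemannZeta_conj, Complex.norm_conj]

/-- the weighted mean value -/
theorem block {K : ℕ} (hM : Mean K) {e : ℝ} (he : 0 < e) :
    IntegrableOn (fun t : ℝ => ‖riemannZeta (cp t)‖ ^ K * t ^ (-1 - e)) (Ioi 1) := by
  obtain ⟨C, hC⟩ := hM (e / 2) (by positivity)
  have hC0 : 0 ≤ C := by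
    have h1 := hC 1 le_rfl
    rw [intervalIntegral.integral_same, Real.one_rpow, mul_one] at h1
    exact h1
  obtain ⟨f, hf⟩ : ∃ f : ℝ → ℝ, f = fun t : ℝ => ‖riemannZeta (cp t)‖ ^ K * t ^ (-1 - e) := ⟨_, rfl⟩
  rw [← hf]
  have hzc : Continuous fun t : ℝ => ‖riemannZeta (cp t)‖ ^ K := zeta_cont.norm.pow K
  have hfc : ∀ a b : ℝ, 1 ≤ a → ContinuousOn f (Icc a b) := by
    intro a b ha
    rw [hf]
    refine hzc.continuousOn.mul ?_
    refine ContinuousOn.rpow_const continuousOn_id fun t ht => Or.inl ?_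
    have := ht.1
    show t ≠ 0
    linarith
  have hf0 : ∀ t : ℝ, 0 < t → ‖f t‖ = ‖riemannZeta (cp t)‖ ^ K * t ^ (-1 - e) := by
    intro t ht
    rw [hf, Real.norm_eq_abs, abs_of_nonneg]
    positivity
  obtain ⟨r, hr⟩ : ∃ r : ℝ, r = (2 : ℝ) ^ (-(e / 2)) := ⟨_, rfl⟩
  have hr0 : 0 < r := by rw [hr]; positivity
  have hr1 : r < 1 := by
    rw [hr]
    exact Real.rpow_lt_one_of_one_lt_of_neg (by norm_num) (by linarith)
  obtain ⟨D, hD⟩ : ∃ D : ℝ, D = C * 2 ^ (1 + e / 2) := ⟨_, rfl⟩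
  have hD0 : 0 ≤ D := by rw [hD]; positivity
  have h2n : ∀ n : ℕ, (1 : ℝ) ≤ 2 ^ n := fun n => one_le_pow₀ (by norm_num)
  have hii : ∀ a b : ℝ, 1 ≤ a → a ≤ b → IntervalIntegrable (fun t => ‖f t‖) volume a b := by
    intro a b ha hab
    refine ContinuousOn.intervalIntegrable ?_
    rw [uIcc_of_le hab]
    exact (hfc a b ha).norm
  -- one block
  have hblock : ∀ n : ℕ, ∫ t in ((2 : ℝ) ^ n)..(2 ^ (n + 1)), ‖f t‖ ≤ D * r ^ n := by
    intro n
    obtain ⟨a, ha⟩ : ∃ a : ℝ, a = 2 ^ n := ⟨_, rfl⟩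
    have ha1 : 1 ≤ a := by rw [ha]; exact h2n n
    have ha0 : 0 < a := by linarith
    have h2a : (2 : ℝ) ^ (n + 1) = 2 * a := by rw [ha, pow_succ]; ring
    rw [← ha, h2a]
    have hab : a ≤ 2 * a := by linarith
    have e1 : ∫ t in a..(2 * a), ‖f t‖ ≤ ∫ t in a..(2 * a), ‖riemannZeta (cp t)‖ ^ K * a ^ (-1 - e) := by
      refine intervalIntegral.integral_mono_on hab (hii a _ ha1 hab)
        ((hzc.mul continuous_const).intervalIntegrable _ _) fun t ht => ?_
      have ht0 : 0 < t := lt_of_lt_of_le ha0 ht.1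
      rw [hf0 t ht0]
      refine mul_le_mul_of_nonneg_left ?_ (by positivity)
      exact Real.rpow_le_rpow_of_nonpos ha0 ht.1 (by linarith)
    have e2 : ∫ t in a..(2 * a), ‖riemannZeta (cp t)‖ ^ K ≤ ∫ t in (1 : ℝ)..(2 * a), ‖riemannZeta (cp t)‖ ^ K := by
      have h1 := intervalIntegral.integral_add_adjacent_intervals
        (hzc.intervalIntegrable (μ := volume) 1 a) (hzc.intervalIntegrable (μ := volume) a (2 * a))
      have h2 : 0 ≤ ∫ t in (1 : ℝ)..a, ‖riemannZeta (cp t)‖ ^ K :=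
        intervalIntegral.integral_nonneg ha1 fun t _ => by positivity
      linarith
    have e3 := hC (2 * a) (by linarith)
    refine e1.trans ?_
    rw [intervalIntegral.integral_mul_const]
    have h3 : (∫ t in a..(2 * a), ‖riemannZeta (cp t)‖ ^ K) * a ^ (-1 - e) ≤
        (C * (2 * a) ^ (1 + e / 2)) * a ^ (-1 - e) :=
      mul_le_mul_of_nonneg_right (e2.trans e3) (by positivity)
    refine h3.trans (le_of_eq ?_)
    have h4 : r ^ n = a ^ (-(e / 2)) := by
      rw [hr, ha, ← Real.rpow_natCast, ← Real.rpow_natCast, ← Real.rpow_mul (by norm_num),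
        ← Real.rpow_mul (by norm_num), mul_comm]
    rw [h4, hD, Real.mul_rpow (by norm_num) ha0.le]
    have h5 : a ^ (1 + e / 2) * a ^ (-1 - e) = a ^ (-(e / 2)) := by
      rw [← Real.rpow_add ha0]
      congr 1
      ring
    rw [← h5]
    ring
  have hsum : ∀ n : ℕ, ∫ t in (1 : ℝ)..(2 ^ n), ‖f t‖ ≤ ∑ j ∈ Finset.range n, D * r ^ j := by
    intro n
    induction n with
    | zero => simp
    | succ n ih =>
      rw [Finset.sum_range_succ, ← intervalIntegral.integral_add_adjacent_intervals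
        (hii 1 (2 ^ n) le_rfl (h2n n)) (hii (2 ^ n) (2 ^ (n + 1)) (h2n n)
          (pow_le_pow_right₀ (by norm_num) (Nat.le_succ n)))]
      exact add_le_add ih (hblock n)
  refine integrableOn_Ioi_of_intervalIntegral_norm_bounded (D * (1 - r)⁻¹) 1
    (b := fun n : ℕ => (2 : ℝ) ^ n) (l := atTop) (fun n => ?_)
    (tendsto_pow_atTop_atTop_of_one_lt (by norm_num)) (Eventually.of_forall fun n => ?_)
  · exact ((hfc 1 (2 ^ n) le_rfl).integrableOn_Icc).mono_set Ioc_subset_Icc_self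
  · refine (hsum n).trans ?_
    rw [← Finset.mul_sum]
    refine mul_le_mul_of_nonneg_left ?_ hD0
    rw [← tsum_geometric_of_lt_one hr0.le hr1]
    exact (summable_geometric_of_lt_one hr0.le hr1).sum_le_tsum _ fun j _ => by positivity

/-- the size of the main term -/
theorem MP_le (P : ℝ[X]) : ∃ C : ℝ, 0 ≤ C ∧ ∀ (s : ℂ) (τ : ℝ), 1 ≤ τ → τ ≤ ‖s - 1‖ →
    ‖MP P s‖ ≤ C / τ := by
  refine ⟨∑ j ∈ Finset.range (P.natDegree + 1), ‖((P.coeff j * (j.factorial : ℝ) : ℝ) : ℂ)‖,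
    Finset.sum_nonneg fun j _ => norm_nonneg _, fun s τ h1 h2 => ?_⟩
  unfold MP
  rw [Finset.sum_div]
  refine norm_sum_le_of_le _ fun j _ => ?_
  rw [norm_div, norm_pow]
  have h3 : τ ≤ ‖s - 1‖ ^ (j + 1) := by
    calc τ ≤ τ ^ (j + 1) := le_self_pow₀ h1 (by omega)
      _ ≤ _ := pow_le_pow_left₀ (by linarith) h2 _
  exact div_le_div_of_nonneg_left (norm_nonneg _) (by linarith) h3

/-- the function on the line -/
noncomputable def q (K : ℕ) (P : ℝ[X]) (t : ℝ) : ℂ := HH K P (((1 / 2 : ℝ) : ℂ) + (t : ℂ) * I)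

/-- the exponent on the line -/
noncomputable def s1 (t : ℝ) : ℂ := ((1 / 2 : ℝ) : ℂ) + 1 + (t : ℂ) * I

theorem s1_re (t : ℝ) : (s1 t).re = 3 / 2 := by
  unfold s1
  simp
  norm_num

theorem s1_im (t : ℝ) : (s1 t).im = t := by
  unfold s1
  simp

theorem s1_ne (t : ℝ) : s1 t ≠ 0 := by
  intro h
  have h1 := s1_re t
  rw [h, Complex.zero_re] at h1
  norm_num at h1

theorem s1_cont : Continuous s1 := by
  unfold s1
  fun_prop

theorem s1_le (t : ℝ) (ht : |t| ≤ 1) : ‖s1 t‖ ≤ 3 := by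
  have h1 := Complex.norm_le_abs_re_add_abs_im (s1 t)
  rw [s1_re, s1_im] at h1
  have : |(3 / 2 : ℝ)| = 3 / 2 := abs_of_pos (by norm_num)
  linarith

theorem le_s1 (t : ℝ) : |t| ≤ ‖s1 t‖ := by
  have h1 := Complex.abs_im_le_norm (s1 t)
  rwa [s1_im] at h1

theorem q_le (K : ℕ) {P : ℝ[X]} {C : ℝ} (hC : ∀ (s : ℂ) (τ : ℝ), 1 ≤ τ → τ ≤ ‖s - 1‖ →
    ‖MP P s‖ ≤ C / τ) {t : ℝ} (ht : 1 ≤ |t|) :
    ‖q K P t‖ ≤ (‖riemannZeta (cp |t|)‖ ^ K + C) / |t| := by
  have hs : ((1 / 2 : ℝ) : ℂ) + (t : ℂ) * I = cp t := by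
    unfold cp
    push_cast
    rfl
  unfold q HH
  rw [hs, add_div]
  refine (norm_sub_le _ _).trans (add_le_add ?_ ?_)
  · rw [norm_div, norm_pow, zeta_abs]
    have h1 : |t| ≤ ‖cp t‖ := by
      have := Complex.abs_im_le_norm (cp t)
      rwa [cp_im] at this
    exact div_le_div_of_nonneg_left (by positivity) (by linarith) h1
  · refine hC _ _ ht ?_
    have h1 := Complex.abs_im_le_norm (cp t - 1)
    rwa [Complex.sub_im, cp_im, Complex.one_im, sub_zero] at h1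

/-- integrability with a weight -/
theorem integ {K : ℕ} {P : ℝ[X]} (hM : Mean K) (hL : Integrable fun t : ℝ => q K P t / s1 t)
    {e : ℝ} (he : 0 < e) : Integrable fun t : ℝ => ‖q K P t‖ * (max 1 |t|) ^ (-e) := by
  obtain ⟨C, hC0, hC⟩ := MP_le P
  obtain ⟨V, hV⟩ : ∃ V : ℝ → ℝ, V = fun t => (‖riemannZeta (cp t)‖ ^ K + C) * t ^ (-1 - e) :=
    ⟨_, rfl⟩
  have hVi : IntegrableOn V (Ioi 1) := by
    have h1 := (block hM he).add ((integrableOn_Ioi_rpow_of_lt (show -1 - e < -1 by linarith)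
      zero_lt_one).const_mul C)
    refine h1.congr_fun (fun t _ => ?_) measurableSet_Ioi
    rw [hV]
    simp only [Pi.add_apply]
    ring
  obtain ⟨F, hF⟩ : ∃ F : ℝ → ℝ, F = (Ioi (1 : ℝ)).indicator V := ⟨_, rfl⟩
  have hFi : Integrable F := by
    rw [hF, integrable_indicator_iff measurableSet_Ioi]
    exact hVi
  have hV0 : ∀ t ∈ Ioi (1 : ℝ), 0 ≤ V t := by
    intro t ht
    have : (0 : ℝ) < t := lt_trans zero_lt_one ht
    rw [hV]
    positivity
  have hF0 : ∀ t, 0 ≤ F t := fun t => by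
    rw [hF]
    exact indicator_nonneg hV0 t
  have hdom : Integrable fun t : ℝ => 3 * ‖q K P t / s1 t‖ + F t + F (-t) :=
    ((hL.norm.const_mul 3).add hFi).add hFi.comp_neg
  have hqm : AEStronglyMeasurable (fun t : ℝ => q K P t) := by
    have h1 := hL.aestronglyMeasurable.mul s1_cont.aestronglyMeasurable
    refine h1.congr (Eventually.of_forall fun t => ?_)
    show q K P t / s1 t * s1 t = q K P t
    exact div_mul_cancel₀ _ (s1_ne t)
  have hwm : AEStronglyMeasurable (fun t : ℝ => (max 1 |t|) ^ (-e)) := by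
    refine Continuous.aestronglyMeasurable ?_
    refine Continuous.rpow_const (continuous_const.max continuous_abs) fun t => Or.inl ?_
    have : (1 : ℝ) ≤ max 1 |t| := le_max_left _ _
    show max 1 |t| ≠ 0
    linarith
  refine hdom.mono' (hqm.norm.mul hwm) (Eventually.of_forall fun t => ?_)
  have hmax : (0 : ℝ) < max 1 |t| := lt_of_lt_of_le zero_lt_one (le_max_left _ _)
  rw [Real.norm_eq_abs, abs_of_nonneg (by positivity)]
  have g1 : 0 ≤ F t := hF0 t
  have g2 : 0 ≤ F (-t) := hF0 (-t)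
  rcases le_or_gt |t| 1 with h | h
  · rw [max_eq_left h, Real.one_rpow, mul_one]
    have h1 : ‖q K P t‖ = ‖q K P t / s1 t‖ * ‖s1 t‖ := by
      rw [← norm_mul, div_mul_cancel₀ _ (s1_ne t)]
    have h2 := mul_le_mul_of_nonneg_left (s1_le t h) (norm_nonneg (q K P t / s1 t))
    linarith
  · rw [max_eq_right h.le]
    have h0 : (0 : ℝ) < |t| := by linarith
    have h1 := q_le K hC h.le (t := t)
    have h2 : ‖q K P t‖ * |t| ^ (-e) ≤ V |t| := by
      refine (mul_le_mul_of_nonneg_right h1 (by positivity)).trans (le_of_eq ?_)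
      rw [hV]
      have h3 : |t| ^ (-1 - e) = |t|⁻¹ * |t| ^ (-e) := by
        rw [← Real.rpow_neg_one, ← Real.rpow_add h0]
        congr 1
      show (‖riemannZeta (cp |t|)‖ ^ K + C) / |t| * |t| ^ (-e) =
        (‖riemannZeta (cp |t|)‖ ^ K + C) * |t| ^ (-1 - e)
      rw [h3]
      ring
    have h3 : V |t| ≤ F t + F (-t) := by
      rcases le_total 0 t with h4 | h4
      · rw [abs_of_nonneg h4] at h ⊢
        have : F t = V t := by
          rw [hF, indicator_of_mem (show t ∈ Ioi (1 : ℝ) from h)]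
        linarith
      · rw [abs_of_nonpos h4] at h ⊢
        have : F (-t) = V (-t) := by
          rw [hF, indicator_of_mem (show -t ∈ Ioi (1 : ℝ) from h)]
        linarith
    have h5 : 0 ≤ 3 * ‖q K P t / s1 t‖ := by positivity
    linarith

/-- the difference quotient -/
theorem D_le {x Y e : ℝ} (hY : 1 ≤ Y) (hYx : Y ≤ x) (he : 0 < e) (he1 : e ≤ 1) (t : ℝ) :
    ‖(((x + Y : ℝ) : ℂ) ^ s1 t - (x : ℂ) ^ s1 t) / s1 t‖ ≤
      Y * (2 * x) ^ (1 / 2 : ℝ) * (4 * (x / Y) ^ e * (max 1 |t|) ^ (-e)) := by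
  have hx0 : 0 < x := by linarith
  have hY0 : 0 < Y := by linarith
  have hB : 0 < Y * (2 * x) ^ (1 / 2 : ℝ) := by positivity
  -- the first bound
  have A1 : ‖(((x + Y : ℝ) : ℂ) ^ s1 t - (x : ℂ) ^ s1 t) / s1 t‖ ≤ Y * (2 * x) ^ (1 / 2 : ℝ) := by
    have h1 : ∫ u in x..(x + Y), (u : ℂ) ^ (s1 t - 1) =
        (((x + Y : ℝ) : ℂ) ^ s1 t - (x : ℂ) ^ s1 t) / s1 t := by
      rw [integral_cpow (Or.inl (by rw [Complex.sub_re, s1_re, Complex.one_re]; norm_num)),
        sub_add_cancel]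
    rw [← h1]
    have h2 : ∀ u ∈ Set.uIoc x (x + Y), ‖(u : ℂ) ^ (s1 t - 1)‖ ≤ (2 * x) ^ (1 / 2 : ℝ) := by
      intro u hu
      rw [uIoc_of_le (by linarith)] at hu
      have hu0 : 0 < u := hx0.trans hu.1
      rw [Complex.norm_cpow_eq_rpow_re_of_pos hu0, Complex.sub_re, s1_re, Complex.one_re]
      have : (3 / 2 - 1 : ℝ) = 1 / 2 := by norm_num
      rw [this]
      exact Real.rpow_le_rpow hu0.le (by linarith [hu.2]) (by norm_num)
    refine (intervalIntegral.norm_integral_le_of_norm_le_const h2).trans (le_of_eq ?_)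
    rw [add_sub_cancel_left, abs_of_pos hY0, mul_comm]
  have hU1 : 1 ≤ x / Y := by
    rw [one_le_div hY0]
    exact hYx
  have hUe : 1 ≤ (x / Y) ^ e := Real.one_le_rpow hU1 he.le
  rcases le_or_gt |t| 1 with h | h
  · rw [max_eq_left h, Real.one_rpow, mul_one]
    refine A1.trans ?_
    refine le_mul_of_one_le_right hB.le ?_
    linarith
  · rw [max_eq_right h.le]
    have h0 : (0 : ℝ) < |t| := by linarith
    have h3 : (x / Y) ^ e * |t| ^ (-e) = (x / Y / |t|) ^ e := by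
      rw [Real.div_rpow (by positivity) h0.le, Real.rpow_neg h0.le]
      rfl
    have h4 : 4 * (x / Y) ^ e * |t| ^ (-e) = 4 * (x / Y / |t|) ^ e := by
      rw [mul_assoc, h3]
    rw [h4]
    rcases le_or_gt |t| (x / Y) with h5 | h5
    · refine A1.trans ?_
      refine le_mul_of_one_le_right hB.le ?_
      have : 1 ≤ (x / Y / |t|) ^ e := by
        refine Real.one_le_rpow ?_ he.le
        rw [one_le_div h0]
        exact h5
      linarith
    · have A2 : ‖(((x + Y : ℝ) : ℂ) ^ s1 t - (x : ℂ) ^ s1 t) / s1 t‖ ≤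
          2 * (2 * x) ^ (3 / 2 : ℝ) / |t| := by
        rw [norm_div]
        have h6 : ‖((x + Y : ℝ) : ℂ) ^ s1 t - (x : ℂ) ^ s1 t‖ ≤ 2 * (2 * x) ^ (3 / 2 : ℝ) := by
          refine (norm_sub_le _ _).trans ?_
          rw [Complex.norm_cpow_eq_rpow_re_of_pos (by linarith : 0 < x + Y),
            Complex.norm_cpow_eq_rpow_re_of_pos hx0, s1_re]
          have h7 : (x + Y) ^ (3 / 2 : ℝ) ≤ (2 * x) ^ (3 / 2 : ℝ) :=
            Real.rpow_le_rpow (by linarith) (by linarith) (by norm_num)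
          have h8 : x ^ (3 / 2 : ℝ) ≤ (2 * x) ^ (3 / 2 : ℝ) :=
            Real.rpow_le_rpow hx0.le (by linarith) (by norm_num)
          linarith
        exact div_le_div₀ (by positivity) h6 h0 (le_s1 t)
      refine A2.trans ?_
      have h6 : (2 * x) ^ (3 / 2 : ℝ) = 2 * x * (2 * x) ^ (1 / 2 : ℝ) := by
        have : (3 / 2 : ℝ) = 1 + 1 / 2 := by norm_num
        rw [this, Real.rpow_add (by positivity), Real.rpow_one]
      have h7 : 2 * (2 * x) ^ (3 / 2 : ℝ) / |t| =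
          Y * (2 * x) ^ (1 / 2 : ℝ) * (4 * (x / Y / |t|)) := by
        rw [h6]
        field_simp
        ring
      rw [h7]
      refine mul_le_mul_of_nonneg_left ?_ hB.le
      have h8 : x / Y / |t| ≤ (x / Y / |t|) ^ e := by
        have h9 : x / Y / |t| ≤ 1 := by
          rw [div_le_one h0]
          exact h5.le
        have h10 := Real.rpow_le_rpow_of_exponent_ge (by positivity : 0 < x / Y / |t|) h9 he1
        rwa [Real.rpow_one] at h10
      linarith

end EST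

open Pool.Agent.N30.SR.EST in
theorem t_EST : S_EST := by
  intro K P _ hM hL ε hε
  obtain ⟨hLi, hLf⟩ := hL
  have hLi' : Integrable fun t : ℝ => q K P t / s1 t := hLi
  obtain ⟨e, he⟩ : ∃ e, e = min ε 1 := ⟨_, rfl⟩
  have he0 : 0 < e := by rw [he]; exact lt_min hε one_pos
  have he1 : e ≤ 1 := by rw [he]; exact min_le_right _ _
  have heε : e ≤ ε := by rw [he]; exact min_le_left _ _
  have hG := integ hM hLi' he0
  obtain ⟨A, hA⟩ : ∃ A : ℝ, A = ∫ t : ℝ, ‖q K P t‖ * (max 1 |t|) ^ (-e) := ⟨_, rfl⟩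
  have hA0 : 0 ≤ A := by
    rw [hA]
    refine integral_nonneg fun t => ?_
    have hmax : (0 : ℝ) < max 1 |t| := lt_of_lt_of_le zero_lt_one (le_max_left _ _)
    show 0 ≤ ‖q K P t‖ * (max 1 |t|) ^ (-e)
    positivity
  refine ⟨8 * A, by positivity, fun x Y hY hYx => ?_⟩
  have hx1 : 1 ≤ x := hY.trans hYx
  have hx0 : 0 < x := by linarith
  have hY0 : 0 < Y := by linarith
  -- integrability of the two integrands
  have hint : ∀ z : ℝ, 1 ≤ z → Integrable fun t : ℝ => q K P t * (z : ℂ) ^ s1 t / s1 t := by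
    intro z hz
    have hz0 : 0 < z := by linarith
    have h1 : Integrable fun t : ℝ => (z : ℂ) ^ s1 t * (q K P t / s1 t) := by
      refine hLi'.bdd_mul (c := z ^ (3 / 2 : ℝ)) ?_ (Eventually.of_forall fun t => ?_)
      · refine Continuous.aestronglyMeasurable ?_
        refine Continuous.const_cpow s1_cont (Or.inl ?_)
        exact_mod_cast hz0.ne'
      · rw [Complex.norm_cpow_eq_rpow_re_of_pos hz0, s1_re]
    refine h1.congr (Eventually.of_forall fun t => ?_)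
    show (z : ℂ) ^ s1 t * (q K P t / s1 t) = q K P t * (z : ℂ) ^ s1 t / s1 t
    ring
  have h1 : (IE K P (x + Y) : ℂ) = (1 / (2 * Real.pi) : ℝ) *
      ∫ t : ℝ, q K P t * ((x + Y : ℝ) : ℂ) ^ s1 t / s1 t := hLf (x + Y) (by linarith)
  have h2 : (IE K P x : ℂ) = (1 / (2 * Real.pi) : ℝ) *
      ∫ t : ℝ, q K P t * (x : ℂ) ^ s1 t / s1 t := hLf x hx1
  have h3 : ((IE K P (x + Y) - IE K P x : ℝ) : ℂ) = (1 / (2 * Real.pi) : ℝ) *
      ∫ t : ℝ, (q K P t * ((x + Y : ℝ) : ℂ) ^ s1 t / s1 t - q K P t * (x : ℂ) ^ s1 t / s1 t) := by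
    rw [integral_sub (hint (x + Y) (by linarith)) (hint x hx1), mul_sub, ← h1, ← h2]
    push_cast
    rfl
  have h4 : |IE K P (x + Y) - IE K P x| = ‖((IE K P (x + Y) - IE K P x : ℝ) : ℂ)‖ := by
    rw [Complex.norm_real, Real.norm_eq_abs]
  rw [h4, h3, norm_mul, Complex.norm_real, Real.norm_eq_abs]
  have hpi : |1 / (2 * Real.pi)| ≤ 1 := by
    have := Real.pi_gt_three
    rw [abs_of_pos (by positivity), div_le_one (by positivity)]
    linarith
  have h5 : ‖∫ t : ℝ, (q K P t * ((x + Y : ℝ) : ℂ) ^ s1 t / s1 t -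
      q K P t * (x : ℂ) ^ s1 t / s1 t)‖ ≤
      ∫ t : ℝ, (Y * (2 * x) ^ (1 / 2 : ℝ) * (4 * (x / Y) ^ e)) *
        (‖q K P t‖ * (max 1 |t|) ^ (-e)) := by
    refine norm_integral_le_of_norm_le (hG.const_mul _) (Eventually.of_forall fun t => ?_)
    have h6 : q K P t * ((x + Y : ℝ) : ℂ) ^ s1 t / s1 t - q K P t * (x : ℂ) ^ s1 t / s1 t =
        q K P t * ((((x + Y : ℝ) : ℂ) ^ s1 t - (x : ℂ) ^ s1 t) / s1 t) := by ring
    rw [h6, norm_mul]
    have h7 := mul_le_mul_of_nonneg_left (D_le hY hYx he0 he1 t) (norm_nonneg (q K P t))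
    refine h7.trans (le_of_eq ?_)
    ring
  rw [integral_const_mul, ← hA] at h5
  have h8 : |1 / (2 * Real.pi)| * ‖∫ t : ℝ, (q K P t * ((x + Y : ℝ) : ℂ) ^ s1 t / s1 t -
      q K P t * (x : ℂ) ^ s1 t / s1 t)‖ ≤ 1 * (Y * (2 * x) ^ (1 / 2 : ℝ) * (4 * (x / Y) ^ e) * A) :=
    mul_le_mul hpi h5 (norm_nonneg _) zero_le_one
  refine h8.trans ?_
  have h9 : (2 * x) ^ (1 / 2 : ℝ) ≤ 2 * x ^ (1 / 2 : ℝ) := by
    rw [Real.mul_rpow (by norm_num) hx0.le]
    refine mul_le_mul_of_nonneg_right ?_ (by positivity)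
    have : (2 : ℝ) ^ (1 / 2 : ℝ) ≤ 2 ^ (1 : ℝ) :=
      Real.rpow_le_rpow_of_exponent_le (by norm_num) (by norm_num)
    rwa [Real.rpow_one] at this
  have h10 : (x / Y) ^ e ≤ x ^ ε := by
    calc (x / Y) ^ e ≤ x ^ e := by
          refine Real.rpow_le_rpow (by positivity) ?_ he0.le
          exact div_le_self hx0.le hY
      _ ≤ x ^ ε := Real.rpow_le_rpow_of_exponent_le hx1 heε
  have h11 : x ^ (1 / 2 + ε) = x ^ (1 / 2 : ℝ) * x ^ ε := Real.rpow_add hx0 _ _
  rw [h11, one_mul]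
  have h12 : (2 * x) ^ (1 / 2 : ℝ) * (x / Y) ^ e ≤ 2 * x ^ (1 / 2 : ℝ) * x ^ ε :=
    mul_le_mul h9 h10 (by positivity) (by positivity)
  have h13 : Y * (2 * x) ^ (1 / 2 : ℝ) * (4 * (x / Y) ^ e) * A =
      4 * Y * A * ((2 * x) ^ (1 / 2 : ℝ) * (x / Y) ^ e) := by ring
  have h14 : 8 * A * (Y * (x ^ (1 / 2 : ℝ) * x ^ ε)) =
      4 * Y * A * (2 * x ^ (1 / 2 : ℝ) * x ^ ε) := by ring
  rw [h13, h14]
  exact mul_le_mul_of_nonneg_left h12 (by positivity)

end Pool.Agent.N30.SR
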