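import Pool.Agent.N30.SR.Stm
import Pool.Agent.W32.QS.Div

set_option autoImplicit false

/-!
# Project SR, part HOL: the Mellin transform of the remainder, to the left of `s = 1`

Written by helper432 for project SR of helper30.
-/

open Complex MeasureTheory Set Filter Topology Polynomial
open Pool.Agent.W188.QS (XX cp fp)

namespace Pool.Agent.N30.SR

namespace HOL

theorem meas_DD (K : ℕ) : Measurable (DD K) := by
  have h : DD K = (fun m : ℕ => ∑ n ∈ Finset.Icc 1 m, dK K n) ∘ (fun y : ℝ => ⌊y⌋₊) := rfl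
  rw [h]
  exact (measurable_from_top).comp Nat.measurable_floor

theorem meas_ER (K : ℕ) (P : ℝ[X]) : Measurable (ER K P) := by
  unfold ER
  exact (meas_DD K).sub (measurable_id.mul (P.continuous.measurable.comp Real.measurable_log))

/-- the remainder on `(1, ∞)` -/
noncomputable def ff (K : ℕ) (P : ℝ[X]) : ℝ → ℂ := (Ioi (1 : ℝ)).indicator fun x => (ER K P x : ℂ)

theorem norm_ff_le {K : ℕ} {P : ℝ[X]} {δ C : ℝ} (hC : ∀ x : ℝ, 1 ≤ x → |ER K P x| ≤ C * x ^ (1 - δ))
    (x : ℝ) : ‖ff K P x‖ ≤ |C| * |x| ^ (1 - δ) := by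
  unfold ff
  by_cases hx : x ∈ Ioi (1 : ℝ)
  · rw [indicator_of_mem hx]
    have hx1 : (1 : ℝ) < x := hx
    rw [Complex.norm_real, Real.norm_eq_abs, abs_of_pos (by linarith : 0 < x)]
    exact (hC x hx1.le).trans (mul_le_mul_of_nonneg_right (le_abs_self C) (by positivity))
  · rw [indicator_of_notMem hx, norm_zero]
    positivity

theorem diff_mellin {K : ℕ} {P : ℝ[X]} {δ : ℝ} (hδ : 0 < δ) (hδ1 : δ < 1 / 2) (hS : Sav K P δ) {s : ℂ}
    (hs : 1 - δ < s.re) : DifferentiableAt ℂ (mellin (ff K P)) (-s) := by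
  obtain ⟨C, hC⟩ := hS
  have hb := norm_ff_le hC
  refine mellin_differentiableAt_of_isBigO_rpow (a := δ - 1) (b := -s.re - 1) ?_ ?_ ?_ ?_ ?_
  · have hloc : LocallyIntegrable (ff K P) := by
      have hg : LocallyIntegrable (fun x : ℝ => |C| * |x| ^ (1 - δ)) := by
        refine Continuous.locallyIntegrable ?_
        exact continuous_const.mul (continuous_abs.rpow_const fun x => Or.inr (by linarith))
      refine hg.mono ?_ ?_
      · unfold ff
        exact ((Complex.measurable_ofReal.comp (meas_ER K P)).indicator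
          measurableSet_Ioi).aestronglyMeasurable
      · refine Eventually.of_forall fun x => ?_
        rw [Real.norm_of_nonneg (by positivity)]
        exact hb x
    exact hloc.locallyIntegrableOn _
  · refine Asymptotics.IsBigO.of_bound |C| ?_
    filter_upwards [eventually_gt_atTop (0 : ℝ)] with x hx
    refine (hb x).trans (le_of_eq ?_)
    rw [abs_of_pos hx, Real.norm_of_nonneg (Real.rpow_nonneg hx.le _)]
    congr 2
    ring
  · rw [neg_re]
    linarith
  · have h0 : ff K P =ᶠ[𝓝[>] 0] fun _ => 0 := by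
      have : Iio (1 : ℝ) ∈ 𝓝[>] (0 : ℝ) := mem_nhdsWithin_of_mem_nhds (Iio_mem_nhds one_pos)
      filter_upwards [this] with x hx
      unfold ff
      refine indicator_of_notMem ?_ _
      intro h
      exact lt_asymm (show x < 1 from hx) (show (1 : ℝ) < x from h)
    exact h0.trans_isBigO (Asymptotics.isBigO_zero _ _)
  · rw [neg_re]
    linarith

theorem mellin_eq (K : ℕ) (P : ℝ[X]) (s : ℂ) : mellin (ff K P) (-s) =
    ∫ x in Ioi (1 : ℝ), (ER K P x : ℂ) * (x : ℂ) ^ (-s - 1) := by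
  unfold mellin ff
  have h : ∀ t : ℝ, (t : ℂ) ^ (-s - 1) • (Ioi (1 : ℝ)).indicator (fun x => (ER K P x : ℂ)) t =
      (Ioi (1 : ℝ)).indicator (fun x => (ER K P x : ℂ) * (x : ℂ) ^ (-s - 1)) t := by
    intro t
    by_cases ht : t ∈ Ioi (1 : ℝ)
    · rw [indicator_of_mem ht, indicator_of_mem ht, smul_eq_mul, mul_comm]
    · rw [indicator_of_notMem ht, indicator_of_notMem ht, smul_zero]
  simp only [h]
  rw [setIntegral_indicator measurableSet_Ioi]
  congr 2
  ext x
  simp only [mem_inter_iff, mem_Ioi]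
  exact ⟨fun h => h.2, fun h => ⟨one_pos.trans h, h⟩⟩

/-! ### real `s > 1` -/

theorem image_exp : Real.exp '' Ioi (0 : ℝ) = Ioi 1 := by
  ext x
  constructor
  · rintro ⟨u, hu, rfl⟩
    exact Real.one_lt_exp_iff.2 hu
  · intro hx
    have hx1 : (1 : ℝ) < x := hx
    exact ⟨Real.log x, Real.log_pos hx1, Real.exp_log (by linarith)⟩

theorem subst_aux (σ : ℝ) (j : ℕ) (u : ℝ) :
    |Real.exp u| • (Real.exp u * Real.log (Real.exp u) ^ j * Real.exp u ^ (-σ - 1)) =
      u ^ (j : ℝ) * Real.exp (-(σ - 1) * u) := by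
  rw [abs_of_pos (Real.exp_pos u), Real.log_exp, ← Real.exp_mul, smul_eq_mul, Real.rpow_natCast]
  have : Real.exp (-(σ - 1) * u) = Real.exp u * (Real.exp u * Real.exp (u * (-σ - 1))) := by
    rw [← Real.exp_add, ← Real.exp_add]
    congr 1
    ring
  rw [this]
  ring

theorem log_integrable {σ : ℝ} (hσ : 1 < σ) (j : ℕ) :
    IntegrableOn (fun x : ℝ => x * Real.log x ^ j * x ^ (-σ - 1)) (Ioi 1) := by
  rw [← image_exp, integrableOn_image_iff_integrableOn_abs_deriv_smul measurableSet_Ioi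
    (fun x _ => (Real.hasDerivAt_exp x).hasDerivWithinAt) (Real.exp_injective.injOn)]
  simp only [subst_aux]
  have h := integrableOn_rpow_mul_exp_neg_mul_rpow (p := 1) (s := (j : ℝ)) (b := σ - 1)
    (by have : (0 : ℝ) ≤ j := Nat.cast_nonneg j
        linarith) one_pos (by linarith)
  simpa only [Real.rpow_one] using h

theorem log_integral {σ : ℝ} (hσ : 1 < σ) (j : ℕ) :
    ∫ x in Ioi (1 : ℝ), x * Real.log x ^ j * x ^ (-σ - 1) = j.factorial / (σ - 1) ^ (j + 1) := by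
  rw [← image_exp, integral_image_eq_integral_abs_deriv_smul measurableSet_Ioi
    (fun x _ => (Real.hasDerivAt_exp x).hasDerivWithinAt) (Real.exp_injective.injOn)]
  simp only [subst_aux]
  have h := Real.integral_rpow_mul_exp_neg_mul_Ioi (a := (j : ℝ) + 1) (r := σ - 1)
    (by positivity) (by linarith)
  rw [Real.Gamma_nat_eq_factorial, add_sub_cancel_right] at h
  have h2 : ∀ t : ℝ, t ^ (j : ℝ) * Real.exp (-(σ - 1) * t) = t ^ (j : ℝ) * Real.exp (-((σ - 1) * t)) := by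
    intro t
    rw [neg_mul]
  simp only [h2]
  rw [h]
  have h3 : (1 / (σ - 1)) ^ ((j : ℝ) + 1) = (1 / (σ - 1)) ^ (j + 1) := by
    rw [← Real.rpow_natCast]
    push_cast
    rfl
  rw [h3, div_pow, one_pow]
  ring

theorem ER_integrable {K : ℕ} {P : ℝ[X]} {δ : ℝ} (hδ : 0 < δ) (hS : Sav K P δ) {σ : ℝ} (hσ : 1 < σ) :
    IntegrableOn (fun x : ℝ => ER K P x * x ^ (-σ - 1)) (Ioi 1) := by
  obtain ⟨C, hC⟩ := hS
  have hg : IntegrableOn (fun x : ℝ => C * x ^ (-σ - δ)) (Ioi 1) :=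
    (integrableOn_Ioi_rpow_of_lt (by linarith) one_pos).const_mul C
  refine Integrable.mono' hg ?_ ?_
  · refine Measurable.aestronglyMeasurable ?_
    exact (meas_ER K P).mul (measurable_id.pow_const _)
  · rw [ae_restrict_iff' measurableSet_Ioi]
    refine Eventually.of_forall fun x hx => ?_
    have hx1 : (1 : ℝ) < x := hx
    have hx0 : 0 < x := by linarith
    rw [norm_mul, Real.norm_eq_abs, Real.norm_of_nonneg (Real.rpow_nonneg hx0.le _)]
    calc |ER K P x| * x ^ (-σ - 1) ≤ (C * x ^ (1 - δ)) * x ^ (-σ - 1) :=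
          mul_le_mul_of_nonneg_right (hC x hx1.le) (Real.rpow_nonneg hx0.le _)
      _ = C * x ^ (-σ - δ) := by
          rw [mul_assoc, ← Real.rpow_add hx0]
          congr 2
          ring

theorem DD_eq (K : ℕ) (P : ℝ[X]) (x : ℝ) : DD K x = ER K P x +
    ∑ j ∈ Finset.range (P.natDegree + 1), P.coeff j * (x * Real.log x ^ j) := by
  unfold ER
  rw [eval_eq_sum_range, Finset.mul_sum]
  have : ∑ j ∈ Finset.range (P.natDegree + 1), x * (P.coeff j * Real.log x ^ j) =
      ∑ j ∈ Finset.range (P.natDegree + 1), P.coeff j * (x * Real.log x ^ j) :=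
    Finset.sum_congr rfl fun j _ => by ring
  rw [this]
  ring

theorem DD_integral {K : ℕ} {P : ℝ[X]} {δ : ℝ} (hδ : 0 < δ) (hS : Sav K P δ) {σ : ℝ} (hσ : 1 < σ) :
    ∫ x in Ioi (1 : ℝ), DD K x * x ^ (-σ - 1) = (∫ x in Ioi (1 : ℝ), ER K P x * x ^ (-σ - 1)) +
      ∑ j ∈ Finset.range (P.natDegree + 1), P.coeff j * (j.factorial : ℝ) / (σ - 1) ^ (j + 1) := by
  have h1 : ∀ x : ℝ, DD K x * x ^ (-σ - 1) = ER K P x * x ^ (-σ - 1) +
      ∑ j ∈ Finset.range (P.natDegree + 1), P.coeff j * (x * Real.log x ^ j * x ^ (-σ - 1)) := by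
    intro x
    rw [DD_eq K P x, add_mul, Finset.sum_mul]
    congr 1
    refine Finset.sum_congr rfl fun j _ => ?_
    ring
  simp only [h1]
  rw [integral_add (ER_integrable hδ hS hσ)
    (integrable_finsetSum _ fun j _ => (log_integrable hσ j).const_mul _),
    integral_finsetSum _ fun j _ => (log_integrable hσ j).const_mul _]
  congr 1
  refine Finset.sum_congr rfl fun j _ => ?_
  rw [integral_const_mul, log_integral hσ j, mul_div_assoc]

theorem sum_isBigO (K : ℕ) (hK : 1 ≤ K) {r : ℝ} (hr : 1 < r) :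
    (fun n : ℕ => ∑ k ∈ Finset.Icc 1 n, dK K k) =O[atTop] fun n : ℕ => (n : ℝ) ^ r := by
  obtain ⟨C, hC, h1, -⟩ := Pool.Agent.W32.QS.qs_div K hK
  have h2 : (fun x : ℝ => Real.log x ^ (K - 1)) =O[atTop] fun x : ℝ => x ^ (r - 1) := by
    have := (isLittleO_log_rpow_rpow_atTop ((K - 1 : ℕ) : ℝ) (by linarith : 0 < r - 1)).isBigO
    simpa only [Real.rpow_natCast] using this
  obtain ⟨c, hc⟩ := h2.bound
  refine Asymptotics.IsBigO.of_bound (C * c) ?_
  filter_upwards [tendsto_natCast_atTop_atTop.eventually hc, eventually_ge_atTop 2] with n hn hn2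
  have hn2' : (2 : ℝ) ≤ (n : ℝ) := by exact_mod_cast hn2
  have hn0 : (0 : ℝ) < (n : ℝ) := by linarith
  have h3 := h1 n hn2'
  rw [Nat.floor_natCast] at h3
  have h4 : 0 ≤ ∑ k ∈ Finset.Icc 1 n, dK K k := Finset.sum_nonneg fun k _ => Nat.cast_nonneg _
  rw [Real.norm_of_nonneg h4, Real.norm_of_nonneg (Real.rpow_nonneg hn0.le _)]
  have hlog : 0 ≤ Real.log (n : ℝ) := Real.log_nonneg (by linarith)
  rw [Real.norm_of_nonneg (pow_nonneg hlog _), Real.norm_of_nonneg (Real.rpow_nonneg hn0.le _)] at hn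
  calc ∑ k ∈ Finset.Icc 1 n, dK K k ≤ C * n * Real.log n ^ (K - 1) := h3
    _ ≤ C * n * (c * (n : ℝ) ^ (r - 1)) := mul_le_mul_of_nonneg_left hn (by positivity)
    _ = C * c * ((n : ℝ) ^ (r - 1) * n) := by ring
    _ = C * c * (n : ℝ) ^ r := by
        have h5 : (n : ℝ) ^ (r - 1) * n = (n : ℝ) ^ r := by
          have h6 := Real.rpow_add_one hn0.ne' (r - 1)
          rw [sub_add_cancel] at h6
          exact h6.symm
        rw [h5]

theorem zeta_integral (K : ℕ) (hK : 1 ≤ K) {σ : ℝ} (hσ : 1 < σ) :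
    riemannZeta (σ : ℂ) ^ K = (σ : ℂ) * ((∫ x in Ioi (1 : ℝ), DD K x * x ^ (-σ - 1) : ℝ) : ℂ) := by
  obtain ⟨C, hC, -, -, h3⟩ := Pool.Agent.W32.QS.qs_div K hK
  obtain ⟨hsum, hz⟩ := h3 (σ : ℂ) (by rwa [ofReal_re])
  have h4 := LSeries_eq_mul_integral_of_nonneg (dK K) (r := (1 + σ) / 2) (by linarith)
    (s := (σ : ℂ)) (by rw [ofReal_re]; linarith) (sum_isBigO K hK (by linarith))
    (fun n => Nat.cast_nonneg _)
  have h5 : LSeries (fun n => ((dK K n : ℝ) : ℂ)) (σ : ℂ) = riemannZeta (σ : ℂ) ^ K := by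
    rw [hz]
    unfold LSeries
    refine tsum_congr fun n => ?_
    rw [LSeries.term_def]
    unfold dK
    split_ifs with hn
    · rw [hn]
      simp
    · rw [cpow_neg, div_eq_mul_inv]
      push_cast
      rfl
  rw [← h5, h4]
  congr 1
  rw [← integral_complex_ofReal]
  refine setIntegral_congr_fun measurableSet_Ioi fun t ht => ?_
  have ht1 : (1 : ℝ) < t := ht
  have ht0 : (0 : ℝ) ≤ t := by linarith
  unfold DD
  push_cast
  rw [ofReal_cpow ht0]
  push_cast
  congr 2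
  ring

theorem real_eq {K : ℕ} {P : ℝ[X]} {δ : ℝ} (hK : 1 ≤ K) (hδ : 0 < δ) (hS : Sav K P δ) {σ : ℝ}
    (hσ : 1 < σ) : mellin (ff K P) (-(σ : ℂ)) = HH K P (σ : ℂ) := by
  rw [mellin_eq]
  have h1 : ∫ x in Ioi (1 : ℝ), (ER K P x : ℂ) * (x : ℂ) ^ (-(σ : ℂ) - 1) =
      ((∫ x in Ioi (1 : ℝ), ER K P x * x ^ (-σ - 1) : ℝ) : ℂ) := by
    rw [← integral_complex_ofReal]
    refine setIntegral_congr_fun measurableSet_Ioi fun t ht => ?_
    have ht1 : (1 : ℝ) < t := ht
    have ht0 : (0 : ℝ) ≤ t := by linarith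
    push_cast
    rw [ofReal_cpow ht0]
    push_cast
    rfl
  have hσ0 : (σ : ℂ) ≠ 0 := by
    exact_mod_cast (by linarith : σ ≠ 0)
  unfold HH MP
  rw [h1, zeta_integral K hK hσ, mul_div_cancel_left₀ _ hσ0, DD_integral hδ hS hσ]
  push_cast
  ring

/-! ### the domain -/

/-- the half plane without the point `1` -/
def UU (δ : ℝ) : Set ℂ := {s | 1 - δ < s.re} \ {1}

theorem open_UU (δ : ℝ) : IsOpen (UU δ) := by
  refine IsOpen.sdiff ?_ isClosed_singleton
  exact isOpen_lt continuous_const continuous_re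

theorem UU_eq {δ : ℝ} (hδ : 0 < δ) : UU δ =
    (({s : ℂ | 1 < s.re} ∪ ({s : ℂ | 1 - δ < s.re} ∩ {s : ℂ | 0 < s.im})) ∪
      ({s : ℂ | 1 - δ < s.re} ∩ {s : ℂ | s.im < 0})) ∪
      ({s : ℂ | 1 - δ < s.re} ∩ {s : ℂ | s.re < 1}) := by
  ext s
  simp only [UU, Set.mem_sdiff, mem_ofPred_eq, mem_singleton_iff, mem_union, mem_inter_iff]
  constructor
  · rintro ⟨h1, h2⟩
    rcases lt_trichotomy s.im 0 with h | h | h
    · exact Or.inl (Or.inr ⟨h1, h⟩)
    · rcases lt_trichotomy s.re 1 with h3 | h3 | h3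
      · exact Or.inr ⟨h1, h3⟩
      · exact absurd (Complex.ext h3 h) h2
      · exact Or.inl (Or.inl (Or.inl h3))
    · exact Or.inl (Or.inl (Or.inr ⟨h1, h⟩))
  · rintro (((h | ⟨h1, h2⟩) | ⟨h1, h2⟩) | ⟨h1, h2⟩)
    · refine ⟨by linarith, ?_⟩
      rintro rfl
      rw [one_re] at h
      exact lt_irrefl _ h
    · refine ⟨h1, ?_⟩
      rintro rfl
      rw [one_im] at h2
      exact lt_irrefl _ h2
    · refine ⟨h1, ?_⟩
      rintro rfl
      rw [one_im] at h2
      exact lt_irrefl _ h2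
    · refine ⟨h1, ?_⟩
      rintro rfl
      rw [one_re] at h2
      exact lt_irrefl _ h2

theorem preconnected_UU {δ : ℝ} (hδ : 0 < δ) : IsPreconnected (UU δ) := by
  rw [UU_eq hδ]
  have c1 : Convex ℝ {s : ℂ | 1 < s.re} := convex_halfSpace_re_gt 1
  have c2 : Convex ℝ {s : ℂ | 1 - δ < s.re} := convex_halfSpace_re_gt (1 - δ)
  have c3 : Convex ℝ {s : ℂ | 0 < s.im} := convex_halfSpace_im_gt 0
  have c4 : Convex ℝ {s : ℂ | s.im < 0} := convex_halfSpace_im_lt 0
  have c5 : Convex ℝ {s : ℂ | s.re < 1} := convex_halfSpace_re_lt 1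
  have p1 := c1.isPreconnected
  have p2 := (c2.inter c3).isPreconnected
  have p3 := (c2.inter c4).isPreconnected
  have p4 := (c2.inter c5).isPreconnected
  have q1 : IsPreconnected ({s : ℂ | 1 < s.re} ∪ ({s : ℂ | 1 - δ < s.re} ∩ {s : ℂ | 0 < s.im})) := by
    refine IsPreconnected.union (⟨2, 1⟩ : ℂ) ?_ ?_ p1 p2
    · change (1 : ℝ) < 2
      norm_num
    · change (1 - δ < 2) ∧ ((0 : ℝ) < 1)
      constructor <;> linarith
  have q2 : IsPreconnected (({s : ℂ | 1 < s.re} ∪ ({s : ℂ | 1 - δ < s.re} ∩ {s : ℂ | 0 < s.im})) ∪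
      ({s : ℂ | 1 - δ < s.re} ∩ {s : ℂ | s.im < 0})) := by
    refine IsPreconnected.union (⟨2, -1⟩ : ℂ) ?_ ?_ q1 p3
    · left
      change (1 : ℝ) < 2
      norm_num
    · change (1 - δ < 2) ∧ ((-1 : ℝ) < 0)
      constructor <;> linarith
  refine IsPreconnected.union (⟨1 - δ / 2, 1⟩ : ℂ) ?_ ?_ q2 p4
  · left
    right
    change (1 - δ < 1 - δ / 2) ∧ ((0 : ℝ) < 1)
    constructor <;> linarith
  · change (1 - δ < 1 - δ / 2) ∧ (1 - δ / 2 < 1)
    constructor <;> linarith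

theorem diff_HH {K : ℕ} {P : ℝ[X]} {s : ℂ} (h0 : s ≠ 0) (h1 : s ≠ 1) : DifferentiableAt ℂ (HH K P) s := by
  unfold HH MP
  refine DifferentiableAt.sub ?_ ?_
  · exact ((differentiableAt_riemannZeta h1).pow K).div differentiableAt_id h0
  · refine DifferentiableAt.fun_sum fun j _ => ?_
    refine DifferentiableAt.div (differentiableAt_const _)
      ((differentiableAt_id.sub_const 1).pow (j + 1)) ?_
    exact pow_ne_zero _ (sub_ne_zero.2 h1)

end HOL

open HOL in
theorem t_HOL : S_HOL := by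
  intro K P δ hK hδ hδ1 hS s hs hs1
  rw [← mellin_eq]
  have hU : s ∈ UU δ := ⟨hs, hs1⟩
  have hA : AnalyticOnNhd ℂ (fun z => mellin (ff K P) (-z)) (UU δ) := by
    refine DifferentiableOn.analyticOnNhd (fun z hz => ?_) (open_UU δ)
    have h1 := diff_mellin hδ hδ1 hS (s := z) hz.1
    exact (DifferentiableAt.comp z h1 differentiableAt_id.neg).differentiableWithinAt
  have hB : AnalyticOnNhd ℂ (HH K P) (UU δ) := by
    refine DifferentiableOn.analyticOnNhd (fun z hz => ?_) (open_UU δ)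
    have hz1 : 1 - δ < z.re := hz.1
    refine (diff_HH ?_ hz.2).differentiableWithinAt
    rintro rfl
    rw [zero_re] at hz1
    linarith
  have h2 : (2 : ℂ) ∈ UU δ := by
    refine ⟨?_, ?_⟩
    · change 1 - δ < (2 : ℂ).re
      rw [re_ofNat]
      linarith
    · simp
  have hfreq : ∃ᶠ z in 𝓝[≠] (2 : ℂ), mellin (ff K P) (-z) = HH K P z := by
    have ht : Tendsto (fun n : ℕ => (((2 + 1 / ((n : ℝ) + 1) : ℝ)) : ℂ)) atTop (𝓝[≠] (2 : ℂ)) := by
      rw [tendsto_nhdsWithin_iff]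
      constructor
      · have h3 : Tendsto (fun n : ℕ => (2 + 1 / ((n : ℝ) + 1) : ℝ)) atTop (𝓝 (2 + 0)) :=
          tendsto_one_div_add_atTop_nhds_zero_nat.const_add 2
        rw [add_zero] at h3
        have h4 := (continuous_ofReal.tendsto (2 : ℝ)).comp h3
        have h5 : ((2 : ℝ) : ℂ) = 2 := by norm_num
        rw [h5] at h4
        exact h4
      · refine Eventually.of_forall fun n => ?_
        change ((2 + 1 / ((n : ℝ) + 1) : ℝ) : ℂ) ≠ 2
        have h3 : (0 : ℝ) < 1 / ((n : ℝ) + 1) := by positivity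
        intro h4
        have h5 : ((2 + 1 / ((n : ℝ) + 1) : ℝ) : ℂ) = ((2 : ℝ) : ℂ) := by
          rw [h4]
          norm_num
        have h6 := ofReal_injective h5
        linarith
    refine ht.frequently (Eventually.frequently (Eventually.of_forall fun n => ?_))
    have h3 : (0 : ℝ) < 1 / ((n : ℝ) + 1) := by positivity
    exact real_eq hK hδ hS (by linarith)
  exact hA.eqOn_of_preconnected_of_frequently_eq hB (preconnected_UU hδ) h2 hfreq hU

end Pool.Agent.N30.SR
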