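import Pool.Agent.N30.SR.Stm

set_option autoImplicit false

/-!
# Project SR (helper30), part INV: Mellin inversion (by helper814)
-/

open Complex MeasureTheory Set Filter Topology Polynomial
open Pool.Agent.W188.QS (XX cp fp)

namespace Pool.Agent.N30.SR

namespace INV

lemma meas_ER (K : ℕ) (P : ℝ[X]) : Measurable (ER K P) := by
  have h1 : Measurable (fun x : ℝ => ∑ n ∈ Finset.Icc 1 ⌊x⌋₊, dK K n) :=
    (measurable_from_top (f := fun m : ℕ => ∑ n ∈ Finset.Icc 1 m, dK K n)).comp Nat.measurable_floor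
  have h2 : Measurable (fun x : ℝ => x * P.eval (Real.log x)) :=
    measurable_id.mul (P.continuous.measurable.comp Real.measurable_log)
  exact h1.sub h2

/-- the remainder, cut off at `1` -/
noncomputable def E0 (K : ℕ) (P : ℝ[X]) : ℝ → ℝ := (Ioi (1 : ℝ)).indicator (ER K P)

/-- its primitive -/
noncomputable def f0 (K : ℕ) (P : ℝ[X]) (x : ℝ) : ℝ := ∫ u in (1 : ℝ)..x, E0 K P u

section

variable {K : ℕ} {P : ℝ[X]} {δ C : ℝ}

lemma C_nonneg (hC : ∀ x : ℝ, 1 ≤ x → |ER K P x| ≤ C * x ^ (1 - δ)) : 0 ≤ C := by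
  have h := hC 1 le_rfl
  rw [Real.one_rpow, mul_one] at h
  exact (abs_nonneg _).trans h

lemma E0_le (hδ : 0 < δ) (hC : ∀ x : ℝ, 1 ≤ x → |ER K P x| ≤ C * x ^ (1 - δ)) (u : ℝ) :
    ‖E0 K P u‖ ≤ C * |u| := by
  have hC0 := C_nonneg hC
  unfold E0
  by_cases hu : u ∈ Ioi (1 : ℝ)
  · rw [indicator_of_mem hu, Real.norm_eq_abs]
    rw [mem_Ioi] at hu
    refine (hC u hu.le).trans (mul_le_mul_of_nonneg_left ?_ hC0)
    rw [abs_of_pos (by linarith)]
    calc u ^ (1 - δ) ≤ u ^ (1 : ℝ) := Real.rpow_le_rpow_of_exponent_le hu.le (by linarith)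
      _ = u := Real.rpow_one u
  · rw [indicator_of_notMem hu, norm_zero]
    positivity

lemma E0_int (hδ : 0 < δ) (hC : ∀ x : ℝ, 1 ≤ x → |ER K P x| ≤ C * x ^ (1 - δ)) (a b : ℝ) :
    IntervalIntegrable (E0 K P) volume a b := by
  have h1 : IntervalIntegrable (fun u : ℝ => C * |u|) volume a b :=
    (by fun_prop : Continuous (fun u : ℝ => C * |u|)).intervalIntegrable a b
  refine h1.mono_fun' ?_ (Eventually.of_forall fun u => E0_le hδ hC u)
  exact ((meas_ER K P).indicator measurableSet_Ioi).aestronglyMeasurable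

lemma f0_cont (hδ : 0 < δ) (hC : ∀ x : ℝ, 1 ≤ x → |ER K P x| ≤ C * x ^ (1 - δ)) :
    Continuous (f0 K P) :=
  intervalIntegral.continuous_primitive (fun a b => E0_int hδ hC a b) 1

lemma f0_eq {x : ℝ} (hx : 1 ≤ x) : f0 K P x = IE K P x := by
  unfold f0 IE E0
  rw [intervalIntegral.integral_of_le hx, intervalIntegral.integral_of_le hx]
  refine setIntegral_congr_fun measurableSet_Ioc fun u hu => ?_
  exact indicator_of_mem (show u ∈ Ioi (1 : ℝ) from hu.1) _

lemma f0_zero {x : ℝ} (hx : x ≤ 1) : f0 K P x = 0 := by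
  unfold f0 E0
  rw [intervalIntegral.integral_of_ge hx]
  have h1 : ∫ u in Ioc x 1, (Ioi (1 : ℝ)).indicator (ER K P) u = ∫ u in Ioc x 1, (0 : ℝ) := by
    refine setIntegral_congr_fun measurableSet_Ioc fun u hu => ?_
    exact indicator_of_notMem (fun h => absurd (mem_Ioi.1 h) (not_lt.2 hu.2)) _
  rw [h1]
  simp

lemma f0_le (hδ : 0 < δ) (hδ1 : δ < 1) (hC : ∀ x : ℝ, 1 ≤ x → |ER K P x| ≤ C * x ^ (1 - δ)) {x : ℝ}
    (hx : 1 ≤ x) : |f0 K P x| ≤ C * x ^ (2 - δ) := by
  have hC0 := C_nonneg hC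
  have hx0 : 0 < x := by linarith
  have h1 : ∀ u ∈ Set.uIoc (1 : ℝ) x, ‖E0 K P u‖ ≤ C * x ^ (1 - δ) := by
    intro u hu
    rw [uIoc_of_le hx] at hu
    unfold E0
    rw [indicator_of_mem (show u ∈ Ioi (1 : ℝ) from hu.1), Real.norm_eq_abs]
    refine (hC u hu.1.le).trans (mul_le_mul_of_nonneg_left ?_ hC0)
    exact Real.rpow_le_rpow (by linarith [hu.1]) hu.2 (by linarith)
  have h2 := intervalIntegral.norm_integral_le_of_norm_le_const h1
  rw [Real.norm_eq_abs] at h2
  refine h2.trans ?_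
  rw [abs_of_nonneg (by linarith)]
  have h3 : x ^ (2 - δ) = x ^ (1 - δ) * x := by
    rw [show (2 - δ) = (1 - δ) + 1 by ring, Real.rpow_add hx0, Real.rpow_one]
  rw [h3, ← mul_assoc]
  exact mul_le_mul_of_nonneg_left (by linarith) (by positivity)

lemma norm_cp {x : ℝ} (hx : 0 < x) (s : ℂ) : ‖(x : ℂ) ^ s‖ = x ^ s.re :=
  Complex.norm_cpow_eq_rpow_re_of_pos hx s

lemma conv (hδ : 0 < δ) (hδ1 : δ < 1) (hC : ∀ x : ℝ, 1 ≤ x → |ER K P x| ≤ C * x ^ (1 - δ)) {s : ℂ}
    (hs : 1 - δ < s.re) :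
    IntegrableOn (fun t : ℝ => (t : ℂ) ^ (-s - 2) • (f0 K P t : ℂ)) (Ioi 0) := by
  have hC0 := C_nonneg hC
  have hmeas : Measurable (fun t : ℝ => (t : ℂ) ^ (-s - 2) • (f0 K P t : ℂ)) := by
    have h1 : Measurable (fun t : ℝ => (t : ℂ) ^ (-s - 2)) := Complex.measurable_ofReal.pow_const _
    have h2 : Measurable (fun t : ℝ => (f0 K P t : ℂ)) :=
      Complex.measurable_ofReal.comp (f0_cont hδ hC).measurable
    exact h1.smul h2
  rw [← Ioc_union_Ioi_eq_Ioi (zero_le_one : (0 : ℝ) ≤ 1)]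
  refine IntegrableOn.union ?_ ?_
  · refine IntegrableOn.congr_fun (f := fun _ => (0 : ℂ)) integrableOn_zero ?_ measurableSet_Ioc
    intro t ht
    simp only
    rw [f0_zero ht.2]
    simp
  · have h3 : IntegrableOn (fun t : ℝ => C * t ^ (-s.re - δ)) (Ioi 1) :=
      (integrableOn_Ioi_rpow_of_lt (by linarith) zero_lt_one).const_mul C
    refine Integrable.mono' h3 hmeas.aestronglyMeasurable ?_
    rw [ae_restrict_iff' measurableSet_Ioi]
    refine Eventually.of_forall fun t ht => ?_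
    rw [mem_Ioi] at ht
    have ht0 : 0 < t := by linarith
    rw [norm_smul, norm_cp ht0, Complex.norm_real, Real.norm_eq_abs]
    have h4 := f0_le hδ hδ1 hC ht.le
    have h5 : (-s - 2).re = -s.re - 2 := by simp
    rw [h5]
    calc t ^ (-s.re - 2) * |f0 K P t| ≤ t ^ (-s.re - 2) * (C * t ^ (2 - δ)) :=
          mul_le_mul_of_nonneg_left h4 (by positivity)
      _ = C * (t ^ (-s.re - 2) * t ^ (2 - δ)) := by ring
      _ = C * t ^ (-s.re - δ) := by
          rw [← Real.rpow_add ht0]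
          congr 2
          ring

lemma int_pow (s : ℂ) (hs : 0 < s.re) {u : ℝ} (hu : 0 < u) :
    IntegrableOn (fun x : ℝ => (x : ℂ) ^ (-s - 2)) (Ioi u) :=
  integrableOn_Ioi_cpow_of_lt (by simp; linarith) hu

/-- Fubini -/
lemma fub (hδ : 0 < δ) (hδ1 : δ < 1 / 2) (hC : ∀ x : ℝ, 1 ≤ x → |ER K P x| ≤ C * x ^ (1 - δ)) {s : ℂ}
    (hs : 1 - δ < s.re) :
    ∫ x in Ioi (1 : ℝ), (x : ℂ) ^ (-s - 2) • (IE K P x : ℂ) =
      (∫ u in Ioi (1 : ℝ), (ER K P u : ℂ) * (u : ℂ) ^ (-s - 1)) / (s + 1) := by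
  have hC0 := C_nonneg hC
  have hs0 : 0 < s.re := by linarith
  have hs1 : s + 1 ≠ 0 := by
    intro h
    have := congrArg Complex.re h
    simp at this
    linarith
  obtain ⟨F, hF⟩ : ∃ F : ℝ → ℝ → ℂ, F = fun x u : ℝ =>
    if u < x then (x : ℂ) ^ (-s - 2) * (ER K P u : ℂ) else 0 := ⟨_, rfl⟩
  obtain ⟨μ, hμ⟩ : ∃ μ : Measure ℝ, μ = volume.restrict (Ioi (1 : ℝ)) := ⟨_, rfl⟩
  have : SFinite μ := by rw [hμ]; infer_instance
  have hFm : Measurable (Function.uncurry F) := by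
    rw [hF]
    have h1 : Measurable (fun z : ℝ × ℝ => (z.1 : ℂ) ^ (-s - 2)) :=
      (Complex.measurable_ofReal.comp measurable_fst).pow_const _
    have h2 : Measurable (fun z : ℝ × ℝ => (ER K P z.2 : ℂ)) :=
      Complex.measurable_ofReal.comp ((meas_ER K P).comp measurable_snd)
    exact Measurable.ite (measurableSet_lt measurable_snd measurable_fst) (h1.mul h2)
      measurable_const
  -- the inner integral over `x`
  have hFx : ∀ u : ℝ, (fun x => F x u) =
      (Ioi u).indicator (fun x : ℝ => (x : ℂ) ^ (-s - 2) * (ER K P u : ℂ)) := by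
    intro u
    funext x
    rw [hF]
    by_cases h : u < x
    · simp [h]
    · simp [h]
  have hres : ∀ u : ℝ, 1 < u → μ.restrict (Ioi u) = volume.restrict (Ioi u) := by
    intro u hu
    rw [hμ, Measure.restrict_restrict measurableSet_Ioi, Ioi_inter_Ioi, sup_eq_left.2 hu.le]
  have hix : ∀ u : ℝ, 1 < u → Integrable (fun x => F x u) μ := by
    intro u hu
    rw [hFx, integrable_indicator_iff measurableSet_Ioi]
    unfold IntegrableOn
    rw [hres u hu]
    exact (int_pow s hs0 (by linarith)).mul_const _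
  have hvx : ∀ u : ℝ, 1 < u → ∫ x, F x u ∂μ = (ER K P u : ℂ) * (u : ℂ) ^ (-s - 1) / (s + 1) := by
    intro u hu
    rw [hFx, integral_indicator measurableSet_Ioi, hres u hu, integral_mul_const,
      integral_Ioi_cpow_of_lt (by simp; linarith) (by linarith)]
    have e : -s - 2 + 1 = -(s + 1) := by ring
    have e2 : -s - 1 = -(s + 1) := by ring
    rw [e, e2]
    field_simp
  have hnx : ∀ u : ℝ, 1 < u → ∫ x, ‖F x u‖ ∂μ = |ER K P u| * (u ^ (-s.re - 1) / (s.re + 1)) := by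
    intro u hu
    have h1 : (fun x => ‖F x u‖) =
        (Ioi u).indicator (fun x : ℝ => ‖(x : ℂ) ^ (-s - 2) * (ER K P u : ℂ)‖) := by
      funext x
      have := congrFun (hFx u) x
      rw [this, norm_indicator_eq_indicator_norm]
    rw [h1, integral_indicator measurableSet_Ioi, hres u hu]
    have h2 : ∫ x in Ioi u, ‖(x : ℂ) ^ (-s - 2) * (ER K P u : ℂ)‖ =
        ∫ x in Ioi u, x ^ (-s.re - 2) * |ER K P u| := by
      refine setIntegral_congr_fun measurableSet_Ioi fun x hx => ?_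
      rw [mem_Ioi] at hx
      have hx0 : 0 < x := by linarith
      rw [norm_mul, norm_cp hx0, Complex.norm_real, Real.norm_eq_abs]
      simp
    rw [h2, integral_mul_const, integral_Ioi_rpow_of_lt (by linarith) (by linarith)]
    have e : -s.re - 2 + 1 = -(s.re + 1) := by ring
    have e2 : -s.re - 1 = -(s.re + 1) := by ring
    have h3 : s.re + 1 ≠ 0 := by linarith
    rw [e, e2]
    field_simp
  have hint : Integrable (Function.uncurry F) (μ.prod μ) := by
    rw [integrable_prod_iff' hFm.aestronglyMeasurable]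
    constructor
    · rw [hμ, ae_restrict_iff' measurableSet_Ioi]
      refine Eventually.of_forall fun u hu => ?_
      rw [← hμ]
      exact hix u hu
    · have h1 : Integrable (fun u : ℝ => C / (s.re + 1) * u ^ (-s.re - δ)) μ := by
        rw [hμ]
        exact (integrableOn_Ioi_rpow_of_lt (by linarith) zero_lt_one).const_mul _
      refine h1.mono' ?_ ?_
      · exact (hFm.norm.stronglyMeasurable.integral_prod_left').aestronglyMeasurable
      · rw [hμ, ae_restrict_iff' measurableSet_Ioi]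
        refine Eventually.of_forall fun u hu => ?_
        rw [← hμ]
        rw [mem_Ioi] at hu
        have hu0 : 0 < u := by linarith
        show ‖∫ x, ‖F x u‖ ∂μ‖ ≤ _
        rw [hnx u hu, Real.norm_eq_abs, abs_of_nonneg (by positivity)]
        have h2 : 0 < s.re + 1 := by linarith
        calc |ER K P u| * (u ^ (-s.re - 1) / (s.re + 1))
            ≤ C * u ^ (1 - δ) * (u ^ (-s.re - 1) / (s.re + 1)) :=
              mul_le_mul_of_nonneg_right (hC u hu.le) (by positivity)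
          _ = C / (s.re + 1) * (u ^ (1 - δ) * u ^ (-s.re - 1)) := by ring
          _ = C / (s.re + 1) * u ^ (-s.re - δ) := by
              rw [← Real.rpow_add hu0]
              congr 2
              ring
  have hswap := integral_integral_swap hint
  have hL : ∫ x, ∫ u, F x u ∂μ ∂μ = ∫ x in Ioi (1 : ℝ), (x : ℂ) ^ (-s - 2) • (IE K P x : ℂ) := by
    rw [hμ]
    refine setIntegral_congr_fun measurableSet_Ioi fun x hx => ?_
    rw [mem_Ioi] at hx
    have h1 : (fun u => F x u) =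
        (Iio x).indicator (fun u : ℝ => (x : ℂ) ^ (-s - 2) * (ER K P u : ℂ)) := by
      funext u
      rw [hF]
      by_cases h : u < x
      · simp [h]
      · simp [h]
    rw [h1, integral_indicator measurableSet_Iio, Measure.restrict_restrict measurableSet_Iio,
      integral_const_mul, smul_eq_mul]
    congr 1
    unfold IE
    rw [intervalIntegral.integral_of_le hx.le, integral_Ioc_eq_integral_Ioo, inter_comm,
      Ioi_inter_Iio]
    exact integral_ofReal (𝕜 := ℂ)
  have hR : ∫ u, ∫ x, F x u ∂μ ∂μ =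
      (∫ u in Ioi (1 : ℝ), (ER K P u : ℂ) * (u : ℂ) ^ (-s - 1)) / (s + 1) := by
    rw [← integral_div, hμ]
    refine setIntegral_congr_fun measurableSet_Ioi fun u hu => ?_
    have := hvx u hu
    rw [hμ] at this
    exact this
  rw [← hL, hswap, hR]

/-- the Mellin transform of the primitive -/
lemma mel (hH : S_HOL) (hK : 1 ≤ K) (hδ : 0 < δ) (hδ1 : δ < 1 / 2)
    (hC : ∀ x : ℝ, 1 ≤ x → |ER K P x| ≤ C * x ^ (1 - δ)) {s : ℂ} (hs : 1 - δ < s.re) (hs1 : s ≠ 1) :
    mellin (fun x => (f0 K P x : ℂ)) (-s - 1) = HH K P s / (s + 1) := by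
  rw [← hH K P δ hK hδ hδ1 ⟨C, hC⟩ s hs hs1, ← fub hδ hδ1 hC hs]
  unfold mellin
  have e : -s - 1 - 1 = -s - 2 := by ring
  rw [e]
  have hconv := conv hδ (by linarith) hC hs
  rw [← Ioc_union_Ioi_eq_Ioi (zero_le_one : (0 : ℝ) ≤ 1)] at hconv ⊢
  rw [setIntegral_union (Ioc_disjoint_Ioi le_rfl) measurableSet_Ioi hconv.left_of_union
    hconv.right_of_union]
  have h1 : ∫ t in Ioc (0 : ℝ) 1, (t : ℂ) ^ (-s - 2) • (f0 K P t : ℂ) = 0 := by
    have h2 : ∫ t in Ioc (0 : ℝ) 1, (t : ℂ) ^ (-s - 2) • (f0 K P t : ℂ) =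
        ∫ t in Ioc (0 : ℝ) 1, (0 : ℂ) := by
      refine setIntegral_congr_fun measurableSet_Ioc fun t ht => ?_
      rw [f0_zero ht.2]
      simp
    rw [h2]
    simp
  rw [h1, zero_add]
  refine setIntegral_congr_fun measurableSet_Ioi fun t ht => ?_
  rw [f0_eq (mem_Ioi.1 ht).le]

end

/-! ### the growth of `HH` -/

lemma MP_le (P : ℝ[X]) {s : ℂ} (hs : 1 ≤ |s.im|) :
    ‖MP P s‖ ≤ (∑ j ∈ Finset.range (P.natDegree + 1), |P.coeff j * (j.factorial : ℝ)|) / |s.im| := by
  have h0 : 0 < |s.im| := by linarith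
  unfold MP
  rw [Finset.sum_div]
  refine norm_sum_le_of_le _ fun j _ => ?_
  rw [norm_div, Complex.norm_real, Real.norm_eq_abs, norm_pow]
  refine div_le_div_of_nonneg_left (abs_nonneg _) h0 ?_
  have h1 : |s.im| ≤ ‖s - 1‖ := by
    have := Complex.abs_im_le_norm (s - 1)
    simpa using this
  calc |s.im| ≤ ‖s - 1‖ := h1
    _ = ‖s - 1‖ ^ 1 := (pow_one _).symm
    _ ≤ ‖s - 1‖ ^ (j + 1) := pow_le_pow_right₀ (hs.trans h1) (by omega)

lemma zeta_le {K : ℕ} {a C : ℝ} (hM : ∀ s : ℂ, 1 / 2 ≤ s.re → s.re ≤ 1 → 1 ≤ s.im →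
    ‖riemannZeta s‖ ^ K ≤ C * s.im ^ a) {s : ℂ} (h1 : 1 / 2 ≤ s.re) (h2 : s.re ≤ 1)
    (h3 : 1 ≤ |s.im|) : ‖riemannZeta s‖ ^ K ≤ C * |s.im| ^ a := by
  rcases le_or_gt 0 s.im with h | h
  · rw [abs_of_nonneg h] at h3 ⊢
    exact hM s h1 h2 h3
  · rw [abs_of_neg h] at h3 ⊢
    have h4 := hM (starRingEnd ℂ s) (by simpa using h1) (by simpa using h2) (by simpa using h3)
    rw [riemannZeta_conj, RCLike.norm_conj] at h4
    simpa using h4

/-- the function on the vertical line -/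
noncomputable def V (K : ℕ) (P : ℝ[X]) (c t : ℝ) : ℂ :=
  HH K P ((c : ℂ) + (t : ℂ) * I) / ((c : ℂ) + 1 + (t : ℂ) * I)

lemma V_cont (K : ℕ) (P : ℝ[X]) {c : ℝ} (hc : 0 < c) (hc1 : c < 1) : Continuous (V K P c) := by
  have hl : Continuous (fun t : ℝ => (c : ℂ) + (t : ℂ) * I) := by fun_prop
  have h0 : ∀ t : ℝ, (c : ℂ) + (t : ℂ) * I ≠ 0 := by
    intro t h
    have := congrArg Complex.re h
    simp at this
    linarith
  have h1 : ∀ t : ℝ, (c : ℂ) + (t : ℂ) * I ≠ 1 := by
    intro t h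
    have := congrArg Complex.re h
    simp at this
    linarith
  have h2 : ∀ t : ℝ, (c : ℂ) + 1 + (t : ℂ) * I ≠ 0 := by
    intro t h
    have := congrArg Complex.re h
    simp at this
    linarith
  have hz : Continuous (fun t : ℝ => riemannZeta ((c : ℂ) + (t : ℂ) * I)) := by
    rw [continuous_iff_continuousAt]
    intro t
    exact (differentiableAt_riemannZeta (h1 t)).continuousAt.comp (f := fun t : ℝ =>
      (c : ℂ) + (t : ℂ) * I) hl.continuousAt
  have hmp : Continuous (fun t : ℝ => MP P ((c : ℂ) + (t : ℂ) * I)) := by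
    unfold MP
    refine continuous_finsetSum _ fun j _ => ?_
    refine continuous_const.div ((hl.sub continuous_const).pow _) fun t => ?_
    exact pow_ne_zero _ (sub_ne_zero.2 (h1 t))
  unfold V HH
  exact (((hz.pow K).div hl h0).sub hmp).div (by fun_prop) h2

lemma V_int {K : ℕ} (P : ℝ[X]) {c : ℝ} (hc : 1 / 2 < c) (hc1 : c < 1) (hM : Mild K) :
    Integrable (V K P c) := by
  obtain ⟨a, C, ha0, ha1, hM⟩ := hM
  have hcont := V_cont K P (by linarith : 0 < c) hc1
  obtain ⟨M, hMb⟩ := isCompact_Icc.exists_bound_of_continuousOn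
    (s := Icc (-1 : ℝ) 1) hcont.continuousOn
  obtain ⟨B, hB⟩ : ∃ B, B = ∑ j ∈ Finset.range (P.natDegree + 1),
    |P.coeff j * (j.factorial : ℝ)| := ⟨_, rfl⟩
  have hB0 : 0 ≤ B := by rw [hB]; exact Finset.sum_nonneg fun _ _ => abs_nonneg _
  have hM0 : 0 ≤ M := (norm_nonneg _).trans (hMb 0 (by constructor <;> norm_num))
  have hC0 : 0 ≤ C := by
    have := hM (1 / 2 + I) (by simp) (by simp; norm_num) (by simp)
    simp only [add_im, I_im] at this
    have h2 : ((1 / 2 : ℂ)).im = 0 := by norm_num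
    rw [h2, zero_add, Real.one_rpow, mul_one] at this
    exact (by positivity : (0 : ℝ) ≤ ‖riemannZeta (1 / 2 + I)‖ ^ K).trans this
  have hfar : ∀ t : ℝ, 1 ≤ |t| → ‖V K P c t‖ ≤ (C + B) * |t| ^ (a - 2) := by
    intro t ht
    have ht0 : 0 < |t| := by linarith
    have him : ((c : ℂ) + (t : ℂ) * I).im = t := by simp
    have hre : ((c : ℂ) + (t : ℂ) * I).re = c := by simp
    have h1 : ‖MP P ((c : ℂ) + (t : ℂ) * I)‖ ≤ B / |t| := by
      have := MP_le P (s := (c : ℂ) + (t : ℂ) * I) (by rw [him]; exact ht)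
      rwa [him, ← hB] at this
    have h2 : ‖riemannZeta ((c : ℂ) + (t : ℂ) * I)‖ ^ K ≤ C * |t| ^ a := by
      have := zeta_le hM (s := (c : ℂ) + (t : ℂ) * I) (by rw [hre]; exact hc.le)
        (by rw [hre]; exact hc1.le) (by rw [him]; exact ht)
      rwa [him] at this
    have h3 : |t| ≤ ‖(c : ℂ) + (t : ℂ) * I‖ := by
      have := Complex.abs_im_le_norm ((c : ℂ) + (t : ℂ) * I)
      rwa [him] at this
    have h4 : |t| ≤ ‖(c : ℂ) + 1 + (t : ℂ) * I‖ := by
      have := Complex.abs_im_le_norm ((c : ℂ) + 1 + (t : ℂ) * I)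
      simpa using this
    have h5 : ‖HH K P ((c : ℂ) + (t : ℂ) * I)‖ ≤ C * |t| ^ a / |t| + B / |t| := by
      unfold HH
      refine (norm_sub_le _ _).trans (add_le_add ?_ h1)
      rw [norm_div, norm_pow]
      exact div_le_div₀ (by positivity) h2 ht0 h3
    unfold V
    rw [norm_div]
    have h6 : ‖HH K P ((c : ℂ) + (t : ℂ) * I)‖ / ‖(c : ℂ) + 1 + (t : ℂ) * I‖ ≤
        (C * |t| ^ a / |t| + B / |t|) / |t| := div_le_div₀ (by positivity) h5 ht0 h4
    refine h6.trans ?_
    have h7 : |t| ^ (a - 2) = |t| ^ a / (|t| * |t|) := by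
      rw [Real.rpow_sub ht0, Real.rpow_two, sq]
    have h8 : 1 ≤ |t| ^ a := Real.one_le_rpow ht ha0
    rw [h7]
    have h9 : (C * |t| ^ a / |t| + B / |t|) / |t| = (C * |t| ^ a + B) / (|t| * |t|) := by
      field_simp
    rw [h9, ← mul_div_assoc]
    refine div_le_div_of_nonneg_right ?_ (by positivity)
    nlinarith
  have h2a : (1 : ℝ) < 2 - a := by linarith
  have hg : Integrable (fun t : ℝ => (C + B + M) * 2 ^ (2 - a) * (1 + ‖t‖) ^ (-(2 - a))) := by
    refine (integrable_one_add_norm ?_).const_mul _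
    rw [Module.finrank_self, Nat.cast_one]
    exact h2a
  refine hg.mono' hcont.aestronglyMeasurable (Eventually.of_forall fun t => ?_)
  have ht0 : 0 < 1 + |t| := by positivity
  rw [Real.norm_eq_abs t]
  have key : (2 : ℝ) ^ (2 - a) * (1 + |t|) ^ (-(2 - a)) = ((1 + |t|) / 2) ^ (-(2 - a)) := by
    rw [Real.div_rpow ht0.le (by norm_num), Real.rpow_neg (by norm_num : (0 : ℝ) ≤ 2), div_inv_eq_mul,
      mul_comm]
  rw [mul_assoc, key]
  rcases le_or_gt 1 |t| with h | h
  · refine (hfar t h).trans ?_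
    have h1 : |t| ^ (a - 2) ≤ ((1 + |t|) / 2) ^ (-(2 - a)) := by
      rw [show a - 2 = -(2 - a) by ring]
      exact Real.rpow_le_rpow_of_nonpos (by linarith) (by linarith) (by linarith)
    exact mul_le_mul (by linarith) h1 (by positivity) (by linarith)
  · have h1 : 1 ≤ ((1 + |t|) / 2) ^ (-(2 - a)) :=
      Real.one_le_rpow_of_pos_of_le_one_of_nonpos (by linarith) (by linarith) (by linarith)
    have h2 := hMb t (by rw [mem_Icc]; exact abs_le.1 h.le)
    nlinarith

end INV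

/-- INV -/
theorem t_INV (hH : S_HOL) : S_INV := by
  intro K P δ hK hδ hδ1 hS hM c hc hc1
  obtain ⟨C, hC⟩ := hS
  have hV := INV.V_int P (by linarith : 1 / 2 < c) hc1 hM
  refine ⟨hV, fun x hx => ?_⟩
  have hx0 : 0 < x := by linarith
  have hs : ∀ y : ℝ, (((-c - 1 : ℝ) : ℂ) + (y : ℂ) * I) =
      -((c : ℂ) + ((-y : ℝ) : ℂ) * I) - 1 := by
    intro y
    push_cast
    ring
  have hmel : ∀ y : ℝ, mellin (fun x => (INV.f0 K P x : ℂ)) (((-c - 1 : ℝ) : ℂ) + (y : ℂ) * I) =
      INV.V K P c (-y) := by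
    intro y
    rw [hs y, INV.mel hH hK hδ hδ1 hC (by simpa using hc)]
    · unfold INV.V
      congr 1
      ring
    · intro h
      have := congrArg Complex.re h
      simp at this
      linarith
  have hconv : MellinConvergent (fun x => (INV.f0 K P x : ℂ)) ((-c - 1 : ℝ) : ℂ) := by
    have := INV.conv hδ (by linarith) hC (s := (c : ℂ)) (by simpa using hc)
    unfold MellinConvergent
    have e : ((-c - 1 : ℝ) : ℂ) - 1 = -(c : ℂ) - 2 := by
      push_cast
      ring
    rw [e]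
    exact this
  have hvert : VerticalIntegrable (mellin (fun x => (INV.f0 K P x : ℂ))) (-c - 1) := by
    unfold VerticalIntegrable
    simp only [hmel]
    exact hV.comp_neg
  have hcont : ContinuousAt (fun x => (INV.f0 K P x : ℂ)) x :=
    (Complex.continuous_ofReal.comp (INV.f0_cont hδ hC)).continuousAt
  have key := mellinInv_mellin_eq (-c - 1) (fun x => (INV.f0 K P x : ℂ)) hx0 hconv hvert hcont
  rw [INV.f0_eq hx] at key
  rw [← key]
  unfold mellinInv
  simp only [hmel]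
  rw [Complex.real_smul]
  congr 1
  rw [← integral_neg_eq_self]
  refine integral_congr_ae (Eventually.of_forall fun y => ?_)
  simp only [neg_neg, smul_eq_mul]
  unfold INV.V
  have e : -(((-c - 1 : ℝ) : ℂ) + ((-y : ℝ) : ℂ) * I) = (c : ℂ) + 1 + (y : ℂ) * I := by
    push_cast
    ring
  rw [e]
  ring

end Pool.Agent.N30.SR
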