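import Pool.Agent.N30.SR.Stm

set_option autoImplicit false

/-!
# Project SR: from the integrated remainder to the remainder
-/

open Complex MeasureTheory Set Filter Topology Polynomial

namespace Pool.Agent.N30.SR

theorem mon_dK_nonneg (K n : ℕ) : 0 ≤ dK K n := by
  unfold dK
  exact Nat.cast_nonneg _

theorem mon_DD_mono (K : ℕ) : Monotone (DD K) := by
  intro a b h
  unfold DD
  refine Finset.sum_le_sum_of_subset_of_nonneg ?_ fun i _ _ => mon_dK_nonneg K i
  exact Finset.Icc_subset_Icc_right (Nat.floor_mono h)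

theorem mon_DD_nonneg (K : ℕ) (x : ℝ) : 0 ≤ DD K x := by
  unfold DD
  exact Finset.sum_nonneg fun i _ => mon_dK_nonneg K i

/-- the main term -/
noncomputable def mm (P : ℝ[X]) (x : ℝ) : ℝ := x * P.eval (Real.log x)

theorem mon_growth (Q : ℝ[X]) (ε : ℝ) (hε : 0 < ε) : ∃ C : ℝ, 0 ≤ C ∧ ∀ v : ℝ, 1 ≤ v →
    |Q.eval (Real.log v)| ≤ C * v ^ ε := by
  refine ⟨∑ j ∈ Finset.range (Q.natDegree + 1), |Q.coeff j| * ((j.factorial : ℝ) / ε ^ j),
    Finset.sum_nonneg fun j _ => by positivity, fun v hv => ?_⟩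
  have hy : 0 ≤ Real.log v := Real.log_nonneg hv
  have hv0 : 0 < v := by linarith
  rw [Polynomial.eval_eq_sum_range, Finset.sum_mul]
  refine (Finset.abs_sum_le_sum_abs _ _).trans (Finset.sum_le_sum fun j _ => ?_)
  rw [abs_mul, mul_assoc, abs_of_nonneg (pow_nonneg hy j)]
  refine mul_le_mul_of_nonneg_left ?_ (abs_nonneg _)
  have h1 := Real.pow_div_factorial_le_exp (ε * Real.log v) (by positivity) j
  have h2 : v ^ ε = Real.exp (ε * Real.log v) := by
    rw [Real.rpow_def_of_pos hv0, mul_comm]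
  rw [h2]
  have hf : (0 : ℝ) < (j.factorial : ℝ) := by positivity
  have he : 0 < ε ^ j := by positivity
  rw [div_le_iff₀ hf, mul_pow] at h1
  rw [div_mul_eq_mul_div, le_div_iff₀ he]
  linarith

theorem mon_hasDeriv (P : ℝ[X]) {x : ℝ} (hx : 0 < x) :
    HasDerivAt (mm P) ((P + derivative P).eval (Real.log x)) x := by
  unfold mm
  have h1 : HasDerivAt (fun y : ℝ => P.eval (Real.log y)) ((derivative P).eval (Real.log x) * x⁻¹) x :=
    (P.hasDerivAt (Real.log x)).comp x (Real.hasDerivAt_log hx.ne')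
  have h2 := (hasDerivAt_id x).mul h1
  refine h2.congr_deriv ?_
  simp only [id, eval_add, one_mul]
  field_simp

theorem mon_mdiff (P : ℝ[X]) (ε : ℝ) (hε : 0 < ε) : ∃ C : ℝ, 0 ≤ C ∧ ∀ a b : ℝ, 1 ≤ a → a ≤ b →
    |mm P b - mm P a| ≤ C * b ^ ε * (b - a) := by
  obtain ⟨C, hC, h⟩ := mon_growth (P + derivative P) ε hε
  refine ⟨C, hC, fun a b ha hab => ?_⟩
  have h1 := norm_image_sub_le_of_norm_deriv_le_segment' (f := mm P) (a := a) (b := b)
    (f' := fun x => (P + derivative P).eval (Real.log x)) (C := C * b ^ ε)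
    (fun x hx => (mon_hasDeriv P (by linarith [hx.1])).hasDerivWithinAt) (fun x hx => by
      rw [Real.norm_eq_abs]
      refine (h x (by linarith [hx.1])).trans (mul_le_mul_of_nonneg_left ?_ hC)
      exact Real.rpow_le_rpow (by linarith [hx.1]) hx.2.le hε.le) b ⟨hab, le_rfl⟩
  rwa [Real.norm_eq_abs] at h1

theorem mon_int (K : ℕ) (P : ℝ[X]) {a b : ℝ} (ha : 1 ≤ a) (hab : a ≤ b) :
    IntervalIntegrable (ER K P) volume a b := by
  have h1 : IntervalIntegrable (DD K) volume a b := (mon_DD_mono K).intervalIntegrable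
  have h2 : IntervalIntegrable (mm P) volume a b := by
    apply ContinuousOn.intervalIntegrable
    intro x hx
    rw [uIcc_of_le hab] at hx
    exact (mon_hasDeriv P (by linarith [hx.1])).continuousAt.continuousWithinAt
  exact h1.sub h2

theorem t_MON : S_MON := by
  intro K P hyp ε hε
  obtain ⟨C1, hC1, h1⟩ := hyp ε hε
  obtain ⟨C2, hC2, h2⟩ := mon_mdiff P ε hε
  obtain ⟨C3, hC3, h3⟩ := mon_growth P 1 one_pos
  refine ⟨C1 + C2 * 2 ^ ε + (DD K 4 + C3 * 16), ?_, fun x hx => ?_⟩
  · have := mon_DD_nonneg K 4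
    positivity
  have hx0 : 0 < x := by linarith
  have hpow1 : 1 ≤ x ^ (1 / 2 + ε) := Real.one_le_rpow hx (by linarith)
  rcases le_or_gt 4 x with h4 | h4
  · -- the case of large `x`
    set Y := √x with hY
    have hY2 : 2 ≤ Y := by
      rw [hY]
      apply Real.le_sqrt_of_sq_le
      linarith
    have hYY : Y * Y = x := Real.mul_self_sqrt hx0.le
    have hYx : Y ≤ x / 2 := by nlinarith
    have hpow : Y * x ^ ε = x ^ (1 / 2 + ε) := by
      rw [Real.rpow_add hx0, hY, Real.sqrt_eq_rpow]
    have h2x : (2 * x) ^ ε = 2 ^ ε * x ^ ε := Real.mul_rpow (by norm_num) hx0.le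
    -- the bound of the differences of the main term
    have hD : ∀ u v : ℝ, 1 ≤ u → u ≤ v → v - u ≤ Y → v ≤ 2 * x →
        |mm P v - mm P u| ≤ C2 * 2 ^ ε * x ^ (1 / 2 + ε) := by
      intro u v hu huv huY hv
      have h5 := h2 u v hu huv
      have h6 : v ^ ε ≤ (2 * x) ^ ε := Real.rpow_le_rpow (by linarith) hv hε.le
      calc |mm P v - mm P u| ≤ C2 * v ^ ε * (v - u) := h5
        _ ≤ C2 * (2 * x) ^ ε * Y := by
            apply mul_le_mul (mul_le_mul_of_nonneg_left h6 hC2) huY (by linarith)
            positivity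
        _ = C2 * 2 ^ ε * (Y * x ^ ε) := by rw [h2x]; ring
        _ = C2 * 2 ^ ε * x ^ (1 / 2 + ε) := by rw [hpow]
    set D := C2 * 2 ^ ε * x ^ (1 / 2 + ε) with hDdef
    have hY0 : 0 < Y := by linarith
    -- upper bound
    have hup : ER K P x ≤ C1 * x ^ (1 / 2 + ε) + D := by
      have e1 : IE K P (x + Y) - IE K P x = ∫ u in x..(x + Y), ER K P u := by
        unfold IE
        exact intervalIntegral.integral_interval_sub_left (mon_int K P le_rfl (by linarith))
          (mon_int K P le_rfl hx)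
      have e2 : ∫ u in x..(x + Y), (ER K P x - D) ≤ ∫ u in x..(x + Y), ER K P u := by
        apply intervalIntegral.integral_mono_on (by linarith) (by simp) (mon_int K P hx (by linarith))
        intro u hu
        have a1 := mon_DD_mono K hu.1
        have a2 := hD x u hx hu.1 (by linarith [hu.2]) (by linarith [hu.2])
        have a3 := (abs_le.mp a2).2
        have a4 : ER K P x = DD K x - mm P x := rfl
        have a5 : ER K P u = DD K u - mm P u := rfl
        rw [a4, a5]
        linarith
      rw [intervalIntegral.integral_const, smul_eq_mul] at e2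
      have e3 := h1 x Y (by linarith) (by linarith)
      rw [e1] at e3
      have e4 := (abs_le.mp e3).2
      have e5 : Y * (ER K P x - D) ≤ Y * (C1 * x ^ (1 / 2 + ε)) := by
        have e6 : x + Y - x = Y := by ring
        rw [e6] at e2
        calc Y * (ER K P x - D) ≤ _ := e2
          _ ≤ _ := e4
          _ = _ := by ring
      have := le_of_mul_le_mul_left e5 hY0
      linarith
    -- lower bound
    have hlow : -(C1 * x ^ (1 / 2 + ε) + D) ≤ ER K P x := by
      have hz : 1 ≤ x - Y := by linarith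
      have e1 : IE K P x - IE K P (x - Y) = ∫ u in (x - Y)..x, ER K P u := by
        unfold IE
        exact intervalIntegral.integral_interval_sub_left (mon_int K P le_rfl hx)
          (mon_int K P le_rfl hz)
      have e2 : ∫ u in (x - Y)..x, ER K P u ≤ ∫ u in (x - Y)..x, (ER K P x + D) := by
        apply intervalIntegral.integral_mono_on (by linarith) (mon_int K P hz (by linarith)) (by simp)
        intro u hu
        have a1 := mon_DD_mono K hu.2
        have a2 := hD u x (by linarith [hu.1]) hu.2 (by linarith [hu.1]) (by linarith)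
        have a3 := (abs_le.mp a2).2
        have a4 : ER K P x = DD K x - mm P x := rfl
        have a5 : ER K P u = DD K u - mm P u := rfl
        rw [a4, a5]
        linarith
      rw [intervalIntegral.integral_const, smul_eq_mul] at e2
      have e3 := h1 (x - Y) Y (by linarith) (by linarith)
      have e7 : x - Y + Y = x := by ring
      rw [e7, e1] at e3
      have e4 := (abs_le.mp e3).1
      have e8 : (x - Y) ^ (1 / 2 + ε) ≤ x ^ (1 / 2 + ε) :=
        Real.rpow_le_rpow (by linarith) (by linarith) (by linarith)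
      have e9 : C1 * (Y * (x - Y) ^ (1 / 2 + ε)) ≤ C1 * (Y * x ^ (1 / 2 + ε)) :=
        mul_le_mul_of_nonneg_left (mul_le_mul_of_nonneg_left e8 hY0.le) hC1
      have e5 : Y * (-(C1 * x ^ (1 / 2 + ε))) ≤ Y * (ER K P x + D) := by
        have e6 : x - (x - Y) = Y := by ring
        rw [e6] at e2
        calc Y * (-(C1 * x ^ (1 / 2 + ε))) = -(C1 * (Y * x ^ (1 / 2 + ε))) := by ring
          _ ≤ -(C1 * (Y * (x - Y) ^ (1 / 2 + ε))) := by linarith
          _ ≤ _ := e4
          _ ≤ _ := e2
      have := le_of_mul_le_mul_left e5 hY0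
      linarith
    have hfin : |ER K P x| ≤ C1 * x ^ (1 / 2 + ε) + D := abs_le.mpr ⟨hlow, hup⟩
    refine hfin.trans ?_
    rw [hDdef, add_mul, add_mul]
    have := mon_DD_nonneg K 4
    have h9 : 0 ≤ (DD K 4 + C3 * 16) * x ^ (1 / 2 + ε) := by positivity
    linarith
  · -- the case `x < 4`
    have a1 := mon_DD_mono K h4.le
    have a2 := mon_DD_nonneg K x
    have a3 := h3 x hx
    rw [Real.rpow_one] at a3
    have a4 : |x * P.eval (Real.log x)| ≤ C3 * 16 := by
      rw [abs_mul, abs_of_pos hx0]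
      calc x * |P.eval (Real.log x)| ≤ x * (C3 * x) := mul_le_mul_of_nonneg_left a3 hx0.le
        _ = C3 * (x * x) := by ring
        _ ≤ C3 * 16 := mul_le_mul_of_nonneg_left (by nlinarith) hC3
    have a5 : |ER K P x| ≤ DD K 4 + C3 * 16 := by
      have : ER K P x = DD K x - x * P.eval (Real.log x) := rfl
      rw [this]
      refine (abs_sub _ _).trans ?_
      rw [abs_of_nonneg a2]
      linarith
    have a6 : 0 ≤ DD K 4 + C3 * 16 := (abs_nonneg _).trans a5
    have a7 : 0 ≤ C1 + C2 * 2 ^ ε := by positivity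
    calc |ER K P x| ≤ (DD K 4 + C3 * 16) * 1 := by linarith
      _ ≤ (C1 + C2 * 2 ^ ε + (DD K 4 + C3 * 16)) * x ^ (1 / 2 + ε) := by
          apply mul_le_mul (by linarith) hpow1 zero_le_one
          linarith

end Pool.Agent.N30.SR
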