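import Pool.Agent.N30.SR.Stm

set_option autoImplicit false

/-!
# Project SR, MOVE (helper413): the contour is moved to the critical line
-/

open Complex MeasureTheory Set Filter Topology Polynomial

namespace Pool.Agent.N30.SR

namespace MOVE_

theorem int_line {g : ℝ → ℂ} (hg : Continuous g) {C r : ℝ} (hr : 1 < r)
    (hb : ∀ t : ℝ, 1 ≤ |t| → ‖g t‖ ≤ C * |t| ^ (-r)) : Integrable g := by
  obtain ⟨M, hM⟩ : ∃ M, ∀ t ∈ Icc (-1 : ℝ) 1, ‖g t‖ ≤ M :=
    isCompact_Icc.exists_bound_of_continuousOn hg.continuousOn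
  have hM0 : 0 ≤ M := le_trans (norm_nonneg _) (hM 0 (by norm_num))
  have hC0 : 0 ≤ C := by
    have h := hb 1 (by norm_num)
    simp only [abs_one, Real.one_rpow, mul_one] at h
    exact le_trans (norm_nonneg _) h
  have h1 : Integrable (fun t : ℝ => (M + C) * 2 ^ r * (1 + ‖t‖) ^ (-r)) :=
    (integrable_one_add_norm (by simpa using hr)).const_mul _
  refine h1.mono' hg.aestronglyMeasurable (Eventually.of_forall fun t => ?_)
  have h2r : (0 : ℝ) < 2 ^ r := by positivity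
  have h0 : 0 ≤ |t| := abs_nonneg t
  have hpos : (0 : ℝ) ≤ (1 + |t|) ^ (-r) := by positivity
  have h5 : (2 : ℝ) ^ r * (2 : ℝ) ^ (-r) = 1 := by
    rw [← Real.rpow_add (by norm_num : (0 : ℝ) < 2)]
    simp
  rw [Real.norm_eq_abs]
  rcases le_total |t| 1 with h | h
  · have h3 : (2 : ℝ) ^ (-r) ≤ (1 + |t|) ^ (-r) :=
      Real.rpow_le_rpow_of_nonpos (by positivity) (by linarith) (by linarith)
    have h4 : ‖g t‖ ≤ M := hM t (abs_le.1 h)
    have h6 : (1 : ℝ) ≤ 2 ^ r * (1 + |t|) ^ (-r) := by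
      have h8 := mul_le_mul_of_nonneg_left h3 h2r.le
      rw [h5] at h8
      exact h8
    calc ‖g t‖ ≤ M + C := by linarith
      _ ≤ (M + C) * (2 ^ r * (1 + |t|) ^ (-r)) := le_mul_of_one_le_right (by linarith) h6
      _ = _ := by ring
  · have h3 : |t| ^ (-r) ≤ ((1 + |t|) / 2) ^ (-r) :=
      Real.rpow_le_rpow_of_nonpos (by positivity) (by linarith) (by linarith)
    have h7 : ((1 + |t|) / 2) ^ (-r) = 2 ^ r * (1 + |t|) ^ (-r) := by
      rw [Real.div_rpow (by positivity) (by norm_num), Real.rpow_neg (by norm_num : (0 : ℝ) ≤ 2),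
        div_inv_eq_mul, mul_comm]
    calc ‖g t‖ ≤ C * |t| ^ (-r) := hb t h
      _ ≤ C * (2 ^ r * (1 + |t|) ^ (-r)) := by
          rw [← h7]
          exact mul_le_mul_of_nonneg_left h3 hC0
      _ ≤ (M + C) * (2 ^ r * (1 + |t|) ^ (-r)) :=
          mul_le_mul_of_nonneg_right (by linarith) (by positivity)
      _ = _ := by ring

theorem line_re (c t : ℝ) : ((c : ℂ) + (t : ℂ) * I).re = c := by simp

theorem line_im (c t : ℝ) : ((c : ℂ) + (t : ℂ) * I).im = t := by simp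

theorem shift {f : ℂ → ℂ} {b c C r : ℝ} (hbc : b < c) (hr : 1 < r)
    (hf : ∀ s : ℂ, b ≤ s.re → s.re ≤ c → DifferentiableAt ℂ f s)
    (hb : ∀ s : ℂ, b ≤ s.re → s.re ≤ c → 1 ≤ |s.im| → ‖f s‖ ≤ C * |s.im| ^ (-r)) :
    Integrable (fun t : ℝ => f ((b : ℂ) + (t : ℂ) * I)) ∧
    ∫ t : ℝ, f ((b : ℂ) + (t : ℂ) * I) = ∫ t : ℝ, f ((c : ℂ) + (t : ℂ) * I) := by
  have hcont : ∀ d : ℝ, b ≤ d → d ≤ c → Continuous fun t : ℝ => f ((d : ℂ) + (t : ℂ) * I) := by
    intro d h1 h2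
    rw [continuous_iff_continuousAt]
    intro t
    have h3 : ContinuousAt f ((d : ℂ) + (t : ℂ) * I) :=
      (hf _ (by rw [line_re]; exact h1) (by rw [line_re]; exact h2)).continuousAt
    have h4 : Continuous fun t : ℝ => (d : ℂ) + (t : ℂ) * I := by fun_prop
    exact ContinuousAt.comp (f := fun t : ℝ => (d : ℂ) + (t : ℂ) * I) h3 h4.continuousAt
  have hint : ∀ d : ℝ, b ≤ d → d ≤ c → Integrable fun t : ℝ => f ((d : ℂ) + (t : ℂ) * I) := by
    intro d h1 h2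
    refine int_line (hcont d h1 h2) (C := C) hr ?_
    intro t ht
    have h3 := hb ((d : ℂ) + (t : ℂ) * I) (by rw [line_re]; exact h1) (by rw [line_re]; exact h2)
      (by rw [line_im]; exact ht)
    rw [line_im] at h3
    exact h3
  refine ⟨hint b le_rfl hbc.le, ?_⟩
  -- the rectangles
  have hrect : ∀ U : ℝ, 1 ≤ U →
      (∫ x : ℝ in b..c, f (x + (-U : ℝ) * I)) - (∫ x : ℝ in b..c, f (x + (U : ℝ) * I)) +
      I • (∫ y : ℝ in (-U)..U, f ((c : ℂ) + (y : ℂ) * I)) -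
      I • (∫ y : ℝ in (-U)..U, f ((b : ℂ) + (y : ℂ) * I)) = 0 := by
    intro U hU
    have h := Complex.integral_boundary_rect_eq_zero_of_differentiableOn f (⟨b, -U⟩ : ℂ)
      (⟨c, U⟩ : ℂ) (by
        intro s hs
        rw [mem_reProdIm, uIcc_of_le hbc.le] at hs
        exact (hf s hs.1.1 hs.1.2).differentiableWithinAt)
    exact h
  have hsmall : ∀ U : ℝ, 1 ≤ |U| → ‖∫ x : ℝ in b..c, f (x + (U : ℝ) * I)‖ ≤
      C * |U| ^ (-r) * |c - b| := by
    intro U hU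
    apply intervalIntegral.norm_integral_le_of_norm_le_const
    intro x hx
    rw [uIoc_of_le hbc.le] at hx
    have h3 := hb ((x : ℂ) + (U : ℂ) * I) (by rw [line_re]; exact hx.1.le)
      (by rw [line_re]; exact hx.2) (by rw [line_im]; exact hU)
    rw [line_im] at h3
    exact h3
  have hz : Tendsto (fun U : ℝ => C * U ^ (-r) * |c - b|) atTop (𝓝 0) := by
    have h1 : Tendsto (fun U : ℝ => U ^ (-r)) atTop (𝓝 0) :=
      tendsto_rpow_neg_atTop (by linarith)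
    simpa using (h1.const_mul C).mul_const |c - b|
  have hA : Tendsto (fun U : ℝ => ∫ x : ℝ in b..c, f (x + (-U : ℝ) * I)) atTop (𝓝 0) := by
    rw [tendsto_zero_iff_norm_tendsto_zero]
    refine squeeze_zero' (Eventually.of_forall fun U => norm_nonneg _) ?_ hz
    filter_upwards [eventually_ge_atTop (1 : ℝ)] with U hU
    have h := hsmall (-U) (by rw [abs_neg, abs_of_nonneg (by linarith)]; exact hU)
    rw [abs_neg, abs_of_nonneg (by linarith : (0 : ℝ) ≤ U)] at h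
    exact h
  have hB : Tendsto (fun U : ℝ => ∫ x : ℝ in b..c, f (x + (U : ℝ) * I)) atTop (𝓝 0) := by
    rw [tendsto_zero_iff_norm_tendsto_zero]
    refine squeeze_zero' (Eventually.of_forall fun U => norm_nonneg _) ?_ hz
    filter_upwards [eventually_ge_atTop (1 : ℝ)] with U hU
    have h := hsmall U (by rw [abs_of_nonneg (by linarith)]; exact hU)
    rw [abs_of_nonneg (by linarith : (0 : ℝ) ≤ U)] at h
    exact h
  have hC : ∀ d : ℝ, b ≤ d → d ≤ c →
      Tendsto (fun U : ℝ => ∫ y : ℝ in (-U)..U, f ((d : ℂ) + (y : ℂ) * I)) atTop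
        (𝓝 (∫ t : ℝ, f ((d : ℂ) + (t : ℂ) * I))) := fun d h1 h2 =>
    intervalIntegral_tendsto_integral (hint d h1 h2) tendsto_neg_atTop_atBot tendsto_id
  have hlim := ((hA.sub hB).add ((hC c hbc.le le_rfl).const_smul I)).sub
    ((hC b le_rfl hbc.le).const_smul I)
  have hzero : Tendsto (fun _ : ℝ => (0 : ℂ)) atTop (𝓝 (0 - 0 +
      I • (∫ t : ℝ, f ((c : ℂ) + (t : ℂ) * I)) - I • (∫ t : ℝ, f ((b : ℂ) + (t : ℂ) * I)))) := by
    refine hlim.congr' ?_
    filter_upwards [eventually_ge_atTop (1 : ℝ)] with U hU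
    exact hrect U hU
  have h0 := tendsto_nhds_unique tendsto_const_nhds hzero
  rw [sub_zero, zero_add, ← smul_sub] at h0
  have h1 := (smul_eq_zero.1 h0.symm).resolve_left I_ne_zero
  exact (sub_eq_zero.1 h1).symm

theorem zeta_norm_neg {s : ℂ} : ‖riemannZeta ((starRingEnd ℂ) s)‖ = ‖riemannZeta s‖ := by
  rw [riemannZeta_conj, Complex.norm_conj]

theorem mp_bound (P : ℝ[X]) : ∃ M : ℝ, 0 ≤ M ∧ ∀ s : ℂ, 1 ≤ |s.im| → ‖MP P s‖ ≤ M * |s.im| ^ (-(1 : ℝ)) := by
  refine ⟨∑ j ∈ Finset.range (P.natDegree + 1), ‖((P.coeff j * (j.factorial : ℝ) : ℝ) : ℂ)‖,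
    Finset.sum_nonneg fun _ _ => norm_nonneg _, ?_⟩
  intro s hs
  unfold MP
  refine (norm_sum_le _ _).trans ?_
  rw [Finset.sum_mul]
  refine Finset.sum_le_sum fun j _ => ?_
  rw [norm_div, norm_pow, div_eq_mul_inv]
  refine mul_le_mul_of_nonneg_left ?_ (norm_nonneg _)
  have h1 : |s.im| ≤ ‖s - 1‖ := by
    have := Complex.abs_im_le_norm (s - 1)
    simpa using this
  have h2 : |s.im| ≤ ‖s - 1‖ ^ (j + 1) :=
    h1.trans (le_self_pow₀ (hs.trans h1) (Nat.succ_ne_zero j))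
  rw [Real.rpow_neg (abs_nonneg _), Real.rpow_one]
  exact inv_anti₀ (by linarith) h2

theorem hh_bound {K : ℕ} (P : ℝ[X]) (hM : Mild K) : ∃ a C : ℝ, a < 1 ∧ 0 ≤ C ∧ ∀ s : ℂ, 1 / 2 ≤ s.re →
    s.re ≤ 1 → 1 ≤ |s.im| → ‖HH K P s / (s + 1)‖ ≤ C * |s.im| ^ (a - 2) := by
  obtain ⟨a, C, ha0, ha1, hC⟩ := hM
  obtain ⟨M, hM0, hMP⟩ := mp_bound P
  have hC0 : 0 ≤ C := by
    have h := hC (1 + I) (by norm_num) (by norm_num) (by norm_num)
    simp only [add_im, one_im, I_im, zero_add, Real.one_rpow, mul_one] at h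
    exact le_trans (by positivity) h
  have hz : ∀ s : ℂ, 1 / 2 ≤ s.re → s.re ≤ 1 → 1 ≤ |s.im| → ‖riemannZeta s‖ ^ K ≤ C * |s.im| ^ a := by
    intro s h1 h2 h3
    rcases le_total 0 s.im with h | h
    · rw [abs_of_nonneg h] at h3 ⊢
      exact hC s h1 h2 h3
    · rw [abs_of_nonpos h] at h3 ⊢
      have h4 := hC ((starRingEnd ℂ) s) (by simpa using h1) (by simpa using h2) (by simpa using h3)
      rw [zeta_norm_neg] at h4
      simpa using h4
  refine ⟨a, C + M, ha1, by linarith, ?_⟩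
  intro s h1 h2 h3
  have hpos : 0 < |s.im| := by linarith
  have hs : |s.im| ≤ ‖s‖ := Complex.abs_im_le_norm s
  have hs1 : |s.im| ≤ ‖s + 1‖ := by
    have := Complex.abs_im_le_norm (s + 1)
    simpa using this
  have e1 : |s.im| ^ (a - 1) = |s.im| ^ a * |s.im| ^ (-(1 : ℝ)) := by
    rw [← Real.rpow_add hpos]
    ring_nf
  have e2 : |s.im| ^ (a - 2) = |s.im| ^ (a - 1) * |s.im| ^ (-(1 : ℝ)) := by
    rw [← Real.rpow_add hpos]
    ring_nf
  have e3 : |s.im| ^ (-(1 : ℝ)) = |s.im|⁻¹ := by rw [Real.rpow_neg hpos.le, Real.rpow_one]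
  have h4 : ‖HH K P s‖ ≤ (C + M) * |s.im| ^ (a - 1) := by
    unfold HH
    refine (norm_sub_le _ _).trans ?_
    rw [add_mul]
    refine add_le_add ?_ ?_
    · rw [norm_div, norm_pow, div_eq_mul_inv, e1, e3, ← mul_assoc]
      exact mul_le_mul (hz s h1 h2 h3) (inv_anti₀ hpos hs) (by positivity) (by positivity)
    · refine (hMP s h3).trans (mul_le_mul_of_nonneg_left ?_ hM0)
      exact Real.rpow_le_rpow_of_exponent_le h3 (by linarith)
  rw [norm_div, div_eq_mul_inv, e2, e3, ← mul_assoc]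
  exact mul_le_mul h4 (inv_anti₀ hpos hs1) (by positivity) (by positivity)

theorem hh_diff (K : ℕ) (P : ℝ[X]) {s : ℂ} (h1 : 1 / 2 ≤ s.re) (h2 : s.re < 1) :
    DifferentiableAt ℂ (fun s => HH K P s / (s + 1)) s := by
  have hs0 : s ≠ 0 := by
    rintro rfl
    norm_num at h1
  have hs1 : s ≠ 1 := by
    rintro rfl
    norm_num at h2
  have hs2 : s + 1 ≠ 0 := by
    intro h
    have := congrArg Complex.re h
    simp at this
    linarith
  have hs3 : s - 1 ≠ 0 := sub_ne_zero.2 hs1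
  have hMP : DifferentiableAt ℂ (MP P) s := by
    unfold MP
    refine DifferentiableAt.fun_sum fun j _ => ?_
    exact (differentiableAt_const _).div ((differentiableAt_id.sub_const 1).pow (j + 1)) (pow_ne_zero _ hs3)
  have hz : DifferentiableAt ℂ riemannZeta s := differentiableAt_riemannZeta hs1
  refine DifferentiableAt.div ?_ (differentiableAt_id.add_const 1) hs2
  exact ((hz.pow K).div differentiableAt_id hs0).sub hMP

end MOVE_

open MOVE_

theorem t_MOVE : S_MOVE := by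
  intro K P c hK hM hc1 hc2 hL
  obtain ⟨a, C, ha, hC0, hb⟩ := hh_bound P hM
  have key : ∀ x : ℝ, 1 ≤ x →
      Integrable (fun t : ℝ => HH K P (((1 / 2 : ℝ) : ℂ) + (t : ℂ) * I) *
        (x : ℂ) ^ (((1 / 2 : ℝ) : ℂ) + 1 + (t : ℂ) * I) / (((1 / 2 : ℝ) : ℂ) + 1 + (t : ℂ) * I)) ∧
      ∫ t : ℝ, HH K P (((1 / 2 : ℝ) : ℂ) + (t : ℂ) * I) *
        (x : ℂ) ^ (((1 / 2 : ℝ) : ℂ) + 1 + (t : ℂ) * I) / (((1 / 2 : ℝ) : ℂ) + 1 + (t : ℂ) * I) =
      ∫ t : ℝ, HH K P ((c : ℂ) + (t : ℂ) * I) *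
        (x : ℂ) ^ ((c : ℂ) + 1 + (t : ℂ) * I) / ((c : ℂ) + 1 + (t : ℂ) * I) := by
    intro x hx
    have hx0 : 0 < x := by linarith
    have h := shift (f := fun s => HH K P s / (s + 1) * (x : ℂ) ^ (s + 1)) (b := 1 / 2) (c := c)
      (C := C * x ^ (2 : ℝ)) (r := 2 - a) hc1 (by linarith)
      (fun s h1 h2 => (hh_diff K P h1 (by linarith)).mul
        ((differentiableAt_id.add_const 1).const_cpow (Or.inl (by exact_mod_cast hx0.ne'))))
      (fun s h1 h2 h3 => by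
        show ‖HH K P s / (s + 1) * (x : ℂ) ^ (s + 1)‖ ≤ _
        rw [norm_mul, Complex.norm_cpow_eq_rpow_re_of_pos hx0]
        have h4 := hb s h1 (by linarith) h3
        have h5 : x ^ (s + 1).re ≤ x ^ (2 : ℝ) := by
          apply Real.rpow_le_rpow_of_exponent_le hx
          simp only [add_re, one_re]
          linarith
        calc ‖HH K P s / (s + 1)‖ * x ^ (s + 1).re ≤ (C * |s.im| ^ (a - 2)) * x ^ (2 : ℝ) :=
              mul_le_mul h4 h5 (by positivity) (by positivity)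
          _ = C * x ^ (2 : ℝ) * |s.im| ^ (-(2 - a)) := by
              rw [show -(2 - a) = a - 2 by ring]
              ring)
    have e : ∀ d : ℝ, (fun t : ℝ => HH K P ((d : ℂ) + (t : ℂ) * I) / ((d : ℂ) + (t : ℂ) * I + 1) *
        (x : ℂ) ^ ((d : ℂ) + (t : ℂ) * I + 1)) = fun t : ℝ => HH K P ((d : ℂ) + (t : ℂ) * I) *
        (x : ℂ) ^ ((d : ℂ) + 1 + (t : ℂ) * I) / ((d : ℂ) + 1 + (t : ℂ) * I) := by
      intro d
      funext t
      rw [show (d : ℂ) + (t : ℂ) * I + 1 = (d : ℂ) + 1 + (t : ℂ) * I by ring]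
      ring
    rw [← e c, ← e (1 / 2)]
    exact h
  constructor
  · have h1 := (key 1 le_rfl).1
    refine h1.congr (Eventually.of_forall fun t => ?_)
    simp
  · intro x hx
    rw [(key x hx).2]
    exact hL.2 x hx

end Pool.Agent.N30.SR
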