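import Pool.Agent.N30.SR.Stm
import Pool.Agent.W338.QS.Line
import Pool.Agent.W22.QS.Basic

/-!
# Project SR (helper30), part NEAR (helper700): the truncated integrals on the line `Re s = 1 + eta`
-/

set_option autoImplicit false

open Complex MeasureTheory Set Filter Topology
open Pool.Agent.W188.QS (XX cp fp StLine StBasic)

namespace Pool.Agent.N30.SR.Near

theorem s_re (c t : ℝ) : ((c : ℂ) + (t : ℂ) * I).re = c := by simp

theorem s_im (c t : ℝ) : ((c : ℂ) + (t : ℂ) * I).im = t := by simp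

theorem contY (hb : StBasic) (c : ℝ) {n : ℕ} (hn : 1 ≤ n) : ContinuousOn (Y c n) (Ici 1) := by
  intro t ht
  apply ContinuousAt.continuousWithinAt
  have h1 : ContinuousAt (fun t : ℝ => (c : ℂ) + (t : ℂ) * I) t := by fun_prop
  have h2 : ContinuousAt XX ((c : ℂ) + (t : ℂ) * I) :=
    (hb _ (by rw [s_im]; exact ht)).1.continuousAt
  have h3 : ContinuousAt (fun t : ℝ => XX ((c : ℂ) + (t : ℂ) * I)) t :=
    ContinuousAt.comp (g := XX) (f := fun t : ℝ => (c : ℂ) + (t : ℂ) * I) h2 h1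
  have h4 : ContinuousAt (fun t : ℝ => (n : ℂ) ^ (-((c : ℂ) + (t : ℂ) * I))) t := by
    have hn' : (n : ℂ) ≠ 0 := by exact_mod_cast (show n ≠ 0 by omega)
    exact (h1.neg).const_cpow (Or.inl hn')
  exact h3.mul h4

theorem normY {K : ℝ} (hl : ∀ s : ℂ, 1 / 2 ≤ s.re → s.re ≤ 4 → 1 ≤ s.im →
    Real.exp (-K) * s.im ^ (s.re - 1 / 2) ≤ ‖XX s‖ ∧ ‖XX s‖ ≤ Real.exp K * s.im ^ (s.re - 1 / 2))
    {η t : ℝ} {n : ℕ} (h0 : 0 < η) (h1 : η ≤ 1 / 2) (ht : 1 ≤ t) (hn : 1 ≤ n) :
    ‖Y (1 + η) n t‖ ≤ Real.exp K * ((n : ℝ) ^ (-(1 + η)) * t ^ (1 / 2 + η)) := by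
  unfold Y
  rw [norm_mul, Complex.norm_natCast_cpow_of_pos (by omega), Complex.neg_re, s_re]
  have h2 := (hl (((1 + η : ℝ) : ℂ) + (t : ℂ) * I) (by rw [s_re]; linarith)
    (by rw [s_re]; linarith) (by rw [s_im]; exact ht)).2
  rw [s_re, s_im] at h2
  have h3 : (1 + η - 1 / 2 : ℝ) = 1 / 2 + η := by ring
  rw [h3] at h2
  calc _ ≤ Real.exp K * t ^ (1 / 2 + η) * (n : ℝ) ^ (-(1 + η)) :=
        mul_le_mul_of_nonneg_right h2 (by positivity)
    _ = _ := by ring

section

variable {A η : ℝ} {n : ℕ}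

theorem cont_gn (hn : 1 ≤ n) : ContinuousOn (gn n) (Ici 1) := by
  unfold gn
  intro t ht
  have ht0 : (0 : ℝ) < t := lt_of_lt_of_le one_pos ht
  have hn0 : (0 : ℝ) < n := by exact_mod_cast (show 0 < n by omega)
  apply ContinuousAt.continuousWithinAt
  refine ContinuousAt.log (by fun_prop) ?_
  have := Real.pi_pos
  positivity

theorem cont_int (hc : ContinuousOn (Y (1 + η) n) (Ici 1)) (hn : 1 ≤ n) {a b : ℝ} (ha : 12 ≤ a)
    (hg : ∀ t ∈ Icc a b, gn n t ≠ 0) :
    ContinuousOn (fun t => ‖Y (1 + η) n t‖ * (1 / (t * gn n t ^ 2) + 14 / (t * |gn n t|)))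
      (Icc a b) := by
  have hs : Icc a b ⊆ Ici 1 := fun t ht => le_trans (by linarith) ht.1
  have h1 := hc.mono hs
  have h2 := (cont_gn hn).mono hs
  have ht0 : ∀ t ∈ Icc a b, t ≠ 0 := fun t ht => by
    have := ht.1
    intro h
    linarith
  refine h1.norm.mul (ContinuousOn.add ?_ ?_)
  · refine continuousOn_const.div (continuousOn_id.mul (h2.pow 2)) fun t ht => ?_
    exact mul_ne_zero (ht0 t ht) (pow_ne_zero _ (hg t ht))
  · refine continuousOn_const.div (continuousOn_id.mul h2.abs) fun t ht => ?_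
    exact mul_ne_zero (ht0 t ht) (abs_ne_zero.2 (hg t ht))

/-- far from the saddle -/
theorem far (hP : S_PART) (hA : 0 < A) (h0 : 0 < η) (h1 : η ≤ 1 / 2) (hn : 1 ≤ n)
    (hc : ContinuousOn (Y (1 + η) n) (Ici 1))
    (hY : ∀ t : ℝ, 1 ≤ t → ‖Y (1 + η) n t‖ ≤ A * ((n : ℝ) ^ (-(1 + η)) * t ^ (1 / 2 + η)))
    {a b : ℝ} (ha : 12 ≤ a) (hab : a ≤ b) (hg : ∀ t ∈ Icc a b, 1 / 2 ≤ |gn n t|) :
    ‖∫ t in a..b, Y (1 + η) n t‖ ≤ 68 * A * ((n : ℝ) ^ (-(1 + η)) * b ^ (1 / 2 + η)) := by
  have hn0 : (0 : ℝ) < n := by exact_mod_cast (show 0 < n by omega)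
  have hg0 : ∀ t ∈ Icc a b, gn n t ≠ 0 := by
    intro t ht h
    have := hg t ht
    rw [h, abs_zero] at this
    norm_num at this
  have hne : ∀ t ∈ Icc a b, t ≠ 2 * Real.pi * n := by
    intro t ht h
    refine hg0 t ht ?_
    unfold gn
    rw [h, div_self, Real.log_one]
    have := Real.pi_pos
    positivity
  have h2 := hP (1 + η) a b n (by linarith) (by linarith) ha hab hn hne
  set N : ℝ := (n : ℝ) ^ (-(1 + η)) with hN
  have hN0 : 0 < N := Real.rpow_pos_of_pos hn0 _
  have hb0 : 0 < b := by linarith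
  have hmono : a ^ (1 / 2 + η) ≤ b ^ (1 / 2 + η) :=
    Real.rpow_le_rpow (by linarith) hab (by linarith)
  have e1 : ∀ t ∈ Icc a b, ‖Y (1 + η) n t‖ / |gn n t| ≤ 2 * (A * (N * b ^ (1 / 2 + η))) := by
    intro t ht
    have g1 := hg t ht
    have k1 := hY t (by linarith [ht.1])
    have k2 : t ^ (1 / 2 + η) ≤ b ^ (1 / 2 + η) :=
      Real.rpow_le_rpow (by linarith [ht.1]) ht.2 (by linarith)
    have k3 : ‖Y (1 + η) n t‖ ≤ A * (N * b ^ (1 / 2 + η)) := k1.trans (by gcongr)
    rw [div_le_iff₀ (by linarith)]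
    have k4 : 0 ≤ A * (N * b ^ (1 / 2 + η)) := by positivity
    nlinarith
  have e2 : ∫ t in a..b, ‖Y (1 + η) n t‖ * (1 / (t * gn n t ^ 2) + 14 / (t * |gn n t|)) ≤
      ∫ t in a..b, 32 * A * N * t ^ (1 / 2 + η - 1) := by
    refine intervalIntegral.integral_mono_on hab ?_ ?_ ?_
    · exact ((cont_int hc hn ha hg0).intervalIntegrable_of_Icc hab)
    · refine ContinuousOn.intervalIntegrable_of_Icc hab ?_
      refine continuousOn_const.mul (continuousOn_id.rpow_const fun t ht => Or.inl ?_)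
      have := ht.1
      intro h
      simp only [id] at h
      linarith
    · intro t ht
      have ht0 : 0 < t := by linarith [ht.1]
      have g1 := hg t ht
      have k1 := hY t (by linarith [ht.1])
      have k5 : 1 / (t * gn n t ^ 2) ≤ 4 / t := by
        rw [div_le_div_iff₀ (by have := hg0 t ht; positivity) ht0, ← sq_abs]
        have : (1 / 2) ^ 2 ≤ |gn n t| ^ 2 := by gcongr
        nlinarith
      have k6 : 14 / (t * |gn n t|) ≤ 28 / t := by
        rw [div_le_div_iff₀ (by have := hg0 t ht; positivity) ht0]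
        nlinarith
      have k7 : t ^ (1 / 2 + η - 1) = t ^ (1 / 2 + η) / t := by
        rw [Real.rpow_sub ht0, Real.rpow_one]
      have k8 : 0 ≤ 1 / (t * gn n t ^ 2) + 14 / (t * |gn n t|) := by positivity
      calc _ ≤ A * (N * t ^ (1 / 2 + η)) * (4 / t + 28 / t) := by
            apply mul_le_mul k1 (add_le_add k5 k6) k8
            positivity
        _ = _ := by
            rw [k7]
            field_simp
            ring
  have e3 : ∫ t in a..b, 32 * A * N * t ^ (1 / 2 + η - 1) ≤ 64 * A * (N * b ^ (1 / 2 + η)) := by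
    rw [intervalIntegral.integral_const_mul, integral_rpow (Or.inl (by linarith))]
    have e4 : (1 / 2 + η - 1 + 1 : ℝ) = 1 / 2 + η := by ring
    rw [e4]
    have e5 : (b ^ (1 / 2 + η) - a ^ (1 / 2 + η)) / (1 / 2 + η) ≤ 2 * b ^ (1 / 2 + η) := by
      rw [div_le_iff₀ (by linarith)]
      have : 0 ≤ a ^ (1 / 2 + η) := by positivity
      have : 0 ≤ b ^ (1 / 2 + η) := by positivity
      nlinarith
    calc _ ≤ 32 * A * N * (2 * b ^ (1 / 2 + η)) := by gcongr
      _ = _ := by ring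
  have e6 := e1 a ⟨le_rfl, hab⟩
  have e7 := e1 b ⟨hab, le_rfl⟩
  calc _ ≤ _ := h2
    _ ≤ 2 * (A * (N * b ^ (1 / 2 + η))) + 2 * (A * (N * b ^ (1 / 2 + η))) +
        64 * A * (N * b ^ (1 / 2 + η)) := add_le_add (add_le_add e6 e7) (e2.trans e3)
    _ = _ := by ring

/-- size of `Y` near the saddle -/
theorem nb (h0 : 0 < η) (h1 : η ≤ 1 / 2) (hn : 1 ≤ n) {t : ℝ} (ht : 0 ≤ t)
    (h : t ≤ 4 * Real.pi * n) :
    (n : ℝ) ^ (-(1 + η)) * t ^ (1 / 2 + η) ≤ 4 * Real.pi * (n : ℝ) ^ (-(1 / 2 : ℝ)) := by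
  have hn0 : (0 : ℝ) < n := by exact_mod_cast (show 0 < n by omega)
  have hpi := Real.pi_gt_three
  have k1 : t ^ (1 / 2 + η) ≤ (4 * Real.pi * n) ^ (1 / 2 + η) :=
    Real.rpow_le_rpow ht h (by linarith)
  have k2 : (4 * Real.pi * n) ^ (1 / 2 + η) = (4 * Real.pi) ^ (1 / 2 + η) * (n : ℝ) ^ (1 / 2 + η) :=
    Real.mul_rpow (by positivity) hn0.le
  have k3 : (4 * Real.pi) ^ (1 / 2 + η) ≤ 4 * Real.pi := by
    calc _ ≤ (4 * Real.pi) ^ (1 : ℝ) := Real.rpow_le_rpow_of_exponent_le (by linarith) (by linarith)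
      _ = _ := Real.rpow_one _
  have k4 : (n : ℝ) ^ (-(1 + η)) * (n : ℝ) ^ (1 / 2 + η) = (n : ℝ) ^ (-(1 / 2 : ℝ)) := by
    rw [← Real.rpow_add hn0]
    congr 1
    ring
  calc _ ≤ (n : ℝ) ^ (-(1 + η)) * (4 * Real.pi * (n : ℝ) ^ (1 / 2 + η)) := by
        rw [k2] at k1
        refine mul_le_mul_of_nonneg_left (k1.trans ?_) (by positivity)
        gcongr
    _ = 4 * Real.pi * ((n : ℝ) ^ (-(1 + η)) * (n : ℝ) ^ (1 / 2 + η)) := by ring
    _ = _ := by rw [k4]

theorem n_sq (hn : 1 ≤ n) : (n : ℝ) * (n : ℝ) ^ (-(1 / 2 : ℝ)) = √(n : ℝ) := by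
  have hn0 : (0 : ℝ) < n := by exact_mod_cast (show 0 < n by omega)
  rw [Real.sqrt_eq_rpow]
  nth_rewrite 1 [← Real.rpow_one (n : ℝ)]
  rw [← Real.rpow_add hn0]
  norm_num

theorem s_sq (hn : 1 ≤ n) : √(n : ℝ) * (n : ℝ) ^ (-(1 / 2 : ℝ)) = 1 := by
  have hn0 : (0 : ℝ) < n := by exact_mod_cast (show 0 < n by omega)
  rw [Real.sqrt_eq_rpow, ← Real.rpow_add hn0]
  norm_num

/-- bounds for the derivative of the phase near the saddle -/
theorem gn_bd (hn : 1 ≤ n) {t : ℝ} (h2 : Real.pi * n ≤ t) (h3 : t ≤ 4 * Real.pi * n) :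
    |t - 2 * Real.pi * n| / (4 * Real.pi * n) ≤ |gn n t| ∧ |gn n t| ≤ 1 := by
  have hn0 : (0 : ℝ) < n := by exact_mod_cast (show 0 < n by omega)
  have hpi := Real.pi_pos
  have hm : 0 < 2 * Real.pi * n := by positivity
  set y : ℝ := t / (2 * Real.pi * n) with hy
  have hty : t = y * (2 * Real.pi * n) := by rw [hy]; field_simp
  have y1 : 1 / 2 ≤ y := by
    rw [hy, le_div_iff₀ hm]
    linarith
  have y2 : y ≤ 2 := by
    rw [hy, div_le_iff₀ hm]
    linarith
  have y0 : 0 < y := by linarith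
  have l1 := Real.one_sub_inv_le_log_of_pos y0
  have l2 := Real.log_le_sub_one_of_pos y0
  have e1 : |t - 2 * Real.pi * n| / (4 * Real.pi * n) = |y - 1| / 2 := by
    rw [hty]
    have : y * (2 * Real.pi * n) - 2 * Real.pi * n = (y - 1) * (2 * Real.pi * n) := by ring
    rw [this, abs_mul, abs_of_pos hm]
    field_simp
    ring
  have l3 : y⁻¹ ≤ 2 := by
    rw [inv_le_comm₀ y0 (by norm_num)]
    linarith
  rw [e1]
  change |y - 1| / 2 ≤ |Real.log y| ∧ |Real.log y| ≤ 1
  constructor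
  · rcases le_total 1 y with h | h
    · rw [abs_of_nonneg (by linarith : 0 ≤ y - 1)]
      have l4 : (y - 1) / 2 ≤ 1 - y⁻¹ := by
        have : 1 - y⁻¹ = (y - 1) / y := by field_simp
        rw [this]
        exact div_le_div_of_nonneg_left (by linarith) y0 y2
      exact (l4.trans l1).trans (le_abs_self _)
    · rw [abs_of_nonpos (by linarith : y - 1 ≤ 0)]
      have : -(y - 1) / 2 ≤ - Real.log y := by linarith
      exact this.trans (neg_le_abs _)
  · rw [abs_le]
    constructor <;> linarith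

/-- near the saddle -/
theorem near (hP : S_PART) (hA : 0 < A) (h0 : 0 < η) (h1 : η ≤ 1 / 2) (hn : 1 ≤ n)
    (hc : ContinuousOn (Y (1 + η) n) (Ici 1))
    (hY : ∀ t : ℝ, 1 ≤ t → ‖Y (1 + η) n t‖ ≤ A * ((n : ℝ) ^ (-(1 + η)) * t ^ (1 / 2 + η)))
    {a b d : ℝ} (ha : 12 ≤ a) (hab : a ≤ b) (h2 : Real.pi * n ≤ a) (h3 : b ≤ 4 * Real.pi * n)
    (hd : 0 < d) (h4 : b ≤ 2 * Real.pi * n - d ∨ 2 * Real.pi * n + d ≤ a) :
    ‖∫ t in a..b, Y (1 + η) n t‖ ≤ 992 * Real.pi ^ 2 * A * (√(n : ℝ) / d) := by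
  have hn0 : (0 : ℝ) < n := by exact_mod_cast (show 0 < n by omega)
  have hpi := Real.pi_pos
  have hdd : ∀ t ∈ Icc a b, d ≤ |t - 2 * Real.pi * n| := by
    intro t ht
    rcases h4 with h | h
    · have := ht.2
      refine le_trans ?_ (neg_le_abs _)
      linarith
    · have := ht.1
      refine le_trans ?_ (le_abs_self _)
      linarith
  have hgb : ∀ t ∈ Icc a b, |t - 2 * Real.pi * n| / (4 * Real.pi * n) ≤ |gn n t| ∧ |gn n t| ≤ 1 :=
    fun t ht => gn_bd hn (h2.trans ht.1) (ht.2.trans h3)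
  have hgd : ∀ t ∈ Icc a b, d / (4 * Real.pi * n) ≤ |gn n t| := by
    intro t ht
    refine le_trans ?_ (hgb t ht).1
    have := hdd t ht
    gcongr
  have hg0 : ∀ t ∈ Icc a b, gn n t ≠ 0 := by
    intro t ht h
    have := hgd t ht
    rw [h, abs_zero] at this
    have h5 : 0 < d / (4 * Real.pi * n) := by positivity
    linarith
  have hne : ∀ t ∈ Icc a b, t ≠ 2 * Real.pi * n := by
    intro t ht h
    have := hdd t ht
    rw [h, sub_self, abs_zero] at this
    linarith
  have h5 := hP (1 + η) a b n (by linarith) (by linarith) ha hab hn hne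
  set q : ℝ := (n : ℝ) ^ (-(1 / 2 : ℝ)) with hq
  have hq0 : 0 < q := Real.rpow_pos_of_pos hn0 _
  have hYb : ∀ t ∈ Icc a b, ‖Y (1 + η) n t‖ ≤ A * (4 * Real.pi * q) := by
    intro t ht
    refine (hY t (by linarith [ht.1])).trans ?_
    have := nb h0 h1 hn (t := t) (by linarith [ht.1]) (ht.2.trans h3)
    gcongr
  have e1 : ∀ t ∈ Icc a b, ‖Y (1 + η) n t‖ / |gn n t| ≤
      A * (4 * Real.pi * q) * (4 * Real.pi * n / d) := by
    intro t ht
    have g1 := hgd t ht
    have k3 := hYb t ht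
    have g2 : 0 < |gn n t| := abs_pos.2 (hg0 t ht)
    rw [div_le_iff₀ g2]
    have g3 : 1 ≤ 4 * Real.pi * n / d * |gn n t| := by
      calc (1 : ℝ) = 4 * Real.pi * n / d * (d / (4 * Real.pi * n)) := by field_simp
        _ ≤ _ := by gcongr
    calc ‖Y (1 + η) n t‖ ≤ A * (4 * Real.pi * q) * 1 := by rw [mul_one]; exact k3
      _ ≤ A * (4 * Real.pi * q) * (4 * Real.pi * n / d * |gn n t|) := by gcongr
      _ = _ := by ring
  have e2 : ∫ t in a..b, ‖Y (1 + η) n t‖ * (1 / (t * gn n t ^ 2) + 14 / (t * |gn n t|)) ≤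
      ∫ t in a..b, A * (4 * Real.pi * q) * (240 * Real.pi * n) * ((t - 2 * Real.pi * n) ^ 2)⁻¹ := by
    refine intervalIntegral.integral_mono_on hab ?_ ?_ ?_
    · exact ((cont_int hc hn ha hg0).intervalIntegrable_of_Icc hab)
    · refine ContinuousOn.intervalIntegrable_of_Icc hab ?_
      refine continuousOn_const.mul (ContinuousOn.inv₀ (by fun_prop) fun t ht => ?_)
      have := hne t ht
      exact pow_ne_zero _ (sub_ne_zero.2 this)
    · intro t ht
      have ht0 : 0 < t := by linarith [ht.1]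
      have g2 : 0 < |gn n t| := abs_pos.2 (hg0 t ht)
      obtain ⟨g4, g5⟩ := hgb t ht
      have k3 := hYb t ht
      have hu : 0 < |t - 2 * Real.pi * n| := lt_of_lt_of_le hd (hdd t ht)
      have k6 : 14 / (t * |gn n t|) ≤ 14 / (t * gn n t ^ 2) := by
        rw [← sq_abs (gn n t)]
        refine div_le_div_of_nonneg_left (by norm_num) (by positivity) ?_
        gcongr
        nlinarith
      have k7 : 15 / (t * gn n t ^ 2) ≤ 240 * Real.pi * n * ((t - 2 * Real.pi * n) ^ 2)⁻¹ := by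
        have g6 : (|t - 2 * Real.pi * n| / (4 * Real.pi * n)) ^ 2 ≤ gn n t ^ 2 := by
          rw [← sq_abs (gn n t)]
          gcongr
        have g7 : Real.pi * n * (|t - 2 * Real.pi * n| / (4 * Real.pi * n)) ^ 2 ≤
            t * gn n t ^ 2 :=
          mul_le_mul (h2.trans ht.1) g6 (by positivity) ht0.le
        calc 15 / (t * gn n t ^ 2) ≤
            15 / (Real.pi * n * (|t - 2 * Real.pi * n| / (4 * Real.pi * n)) ^ 2) :=
              div_le_div_of_nonneg_left (by norm_num) (by positivity) g7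
          _ = 240 * Real.pi * n * (|t - 2 * Real.pi * n| ^ 2)⁻¹ := by
              field_simp
              ring
          _ = _ := by rw [sq_abs]
      have k8 : 0 ≤ 1 / (t * gn n t ^ 2) + 14 / (t * |gn n t|) := by positivity
      have k9 : 1 / (t * gn n t ^ 2) + 14 / (t * |gn n t|) ≤
          240 * Real.pi * n * ((t - 2 * Real.pi * n) ^ 2)⁻¹ := by
        calc _ ≤ 1 / (t * gn n t ^ 2) + 14 / (t * gn n t ^ 2) := by gcongr
          _ = 15 / (t * gn n t ^ 2) := by ring
          _ ≤ _ := k7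
      calc _ ≤ A * (4 * Real.pi * q) * (240 * Real.pi * n * ((t - 2 * Real.pi * n) ^ 2)⁻¹) :=
            mul_le_mul k3 k9 k8 (by positivity)
        _ = _ := by ring
  have e3 : ∫ t in a..b, ((t - 2 * Real.pi * n) ^ 2)⁻¹ ≤ 1 / d := by
    have f1 : ∀ t ∈ uIcc a b, HasDerivAt (fun t => -(t - 2 * Real.pi * n)⁻¹)
        (((t - 2 * Real.pi * n) ^ 2)⁻¹) t := by
      intro t ht
      rw [uIcc_of_le hab] at ht
      have f2 := (((hasDerivAt_id t).sub_const (2 * Real.pi * n)).inv
        (sub_ne_zero.2 (hne t ht))).neg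
      have f3 : -(-1 / (id t - 2 * Real.pi * n) ^ 2) = ((t - 2 * Real.pi * n) ^ 2)⁻¹ := by
        simp only [id]
        rw [neg_div, neg_neg, one_div]
      rw [f3] at f2
      exact f2
    have f4 : IntervalIntegrable (fun t => ((t - 2 * Real.pi * n) ^ 2)⁻¹) volume a b := by
      refine ContinuousOn.intervalIntegrable_of_Icc hab ?_
      refine ContinuousOn.inv₀ (by fun_prop) fun t ht => ?_
      exact pow_ne_zero _ (sub_ne_zero.2 (hne t ht))
    rw [intervalIntegral.integral_eq_sub_of_hasDerivAt f1 f4]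
    rcases h4 with h | h
    · have g1 : -(b - 2 * Real.pi * n)⁻¹ ≤ 1 / d := by
        rw [← inv_neg, one_div]
        exact inv_anti₀ hd (by linarith)
      have g2 : (a - 2 * Real.pi * n)⁻¹ ≤ 0 := inv_nonpos.2 (by linarith)
      linarith
    · have g1 : (a - 2 * Real.pi * n)⁻¹ ≤ 1 / d := by
        rw [one_div]
        exact inv_anti₀ hd (by linarith)
      have g2 : 0 ≤ (b - 2 * Real.pi * n)⁻¹ := inv_nonneg.2 (by linarith)
      linarith
  have e4 : ∫ t in a..b, A * (4 * Real.pi * q) * (240 * Real.pi * n) *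
      ((t - 2 * Real.pi * n) ^ 2)⁻¹ ≤ A * (4 * Real.pi * q) * (240 * Real.pi * n) * (1 / d) := by
    rw [intervalIntegral.integral_const_mul]
    gcongr
  have e6 := e1 a ⟨le_rfl, hab⟩
  have e7 := e1 b ⟨hab, le_rfl⟩
  calc _ ≤ _ := h5
    _ ≤ A * (4 * Real.pi * q) * (4 * Real.pi * n / d) + A * (4 * Real.pi * q) *
        (4 * Real.pi * n / d) + A * (4 * Real.pi * q) * (240 * Real.pi * n) * (1 / d) :=
        add_le_add (add_le_add e6 e7) (e2.trans e4)
    _ = 992 * Real.pi ^ 2 * A * ((n * q) / d) := by ring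
    _ = _ := by rw [hq, n_sq hn]

/-- distance `D` from the saddle (`D` may vanish), one side -/
theorem near2 (hP : S_PART) (hA : 0 < A) (h0 : 0 < η) (h1 : η ≤ 1 / 2) (hn : 1 ≤ n)
    (hc : ContinuousOn (Y (1 + η) n) (Ici 1))
    (hY : ∀ t : ℝ, 1 ≤ t → ‖Y (1 + η) n t‖ ≤ A * ((n : ℝ) ^ (-(1 + η)) * t ^ (1 / 2 + η)))
    {a b D : ℝ} (ha : 12 ≤ a) (hab : a ≤ b) (h2 : Real.pi * n ≤ a) (h3 : b ≤ 4 * Real.pi * n)
    (hD : 0 ≤ D) (h4 : b = 2 * Real.pi * n - D ∨ a = 2 * Real.pi * n + D) :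
    ‖∫ t in a..b, Y (1 + η) n t‖ ≤ 2 * (992 * Real.pi ^ 2 * A + 4 * Real.pi * A) *
      (√(n : ℝ) / (√(n : ℝ) + D)) := by
  have hn0 : (0 : ℝ) < n := by exact_mod_cast (show 0 < n by omega)
  have hpi := Real.pi_pos
  set S : ℝ := √(n : ℝ) with hS
  have hS0 : 0 < S := Real.sqrt_pos.2 hn0
  set q : ℝ := (n : ℝ) ^ (-(1 / 2 : ℝ)) with hq
  have hq0 : 0 < q := Real.rpow_pos_of_pos hn0 _
  have hSq : S * q = 1 := s_sq hn
  have hYb : ∀ t ∈ Icc a b, ‖Y (1 + η) n t‖ ≤ A * (4 * Real.pi * q) := by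
    intro t ht
    refine (hY t (by linarith [ht.1])).trans ?_
    have := nb h0 h1 hn (t := t) (by linarith [ht.1]) (ht.2.trans h3)
    gcongr
  have triv : ∀ u v : ℝ, a ≤ u → u ≤ v → v ≤ b → v - u ≤ S →
      ‖∫ t in u..v, Y (1 + η) n t‖ ≤ 4 * Real.pi * A := by
    intro u v hu huv hv hS1
    have k1 : ∀ t ∈ Set.uIoc u v, ‖Y (1 + η) n t‖ ≤ A * (4 * Real.pi * q) := by
      intro t ht
      rw [uIoc_of_le huv] at ht
      exact hYb t ⟨hu.trans ht.1.le, ht.2.trans hv⟩
    have k2 := intervalIntegral.norm_integral_le_of_norm_le_const k1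
    rw [abs_of_nonneg (by linarith)] at k2
    calc _ ≤ _ := k2
      _ ≤ A * (4 * Real.pi * q) * S := by gcongr
      _ = 4 * Real.pi * A * (S * q) := by ring
      _ = _ := by rw [hSq, mul_one]
  have hint : ∀ u v : ℝ, a ≤ u → a ≤ v → IntervalIntegrable (Y (1 + η) n) volume u v := by
    intro u v hu hv
    refine ContinuousOn.intervalIntegrable (hc.mono fun t ht => ?_)
    rcases le_total u v with h | h
    · rw [uIcc_of_le h] at ht
      have := ht.1
      change 1 ≤ t
      linarith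
    · rw [uIcc_of_ge h] at ht
      have := ht.1
      change 1 ≤ t
      linarith
  rcases le_total S D with hSD | hSD
  · have k1 : ‖∫ t in a..b, Y (1 + η) n t‖ ≤ 992 * Real.pi ^ 2 * A * (S / D) := by
      refine near hP hA h0 h1 hn hc hY ha hab h2 h3 (by linarith) ?_
      rcases h4 with h | h
      · exact Or.inl h.le
      · exact Or.inr h.ge
    have k2 : S / D ≤ 2 * (S / (S + D)) := by
      rw [div_le_iff₀ (by linarith)]
      have : 2 * (S / (S + D)) * D = 2 * D * S / (S + D) := by ring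
      rw [this, le_div_iff₀ (by linarith)]
      nlinarith
    calc _ ≤ _ := k1
      _ ≤ 992 * Real.pi ^ 2 * A * (2 * (S / (S + D))) := by gcongr
      _ ≤ 992 * Real.pi ^ 2 * A * (2 * (S / (S + D))) +
          4 * Real.pi * A * (2 * (S / (S + D))) := le_add_of_nonneg_right (by positivity)
      _ = _ := by ring
  · have k3 : 1 / 2 ≤ S / (S + D) := by
      rw [le_div_iff₀ (by linarith)]
      linarith
    have k4 : ‖∫ t in a..b, Y (1 + η) n t‖ ≤ 992 * Real.pi ^ 2 * A + 4 * Real.pi * A := by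
      rcases h4 with h | h
      · rcases le_total (b - a) S with hba | hba
        · refine (triv a b le_rfl hab le_rfl hba).trans (le_add_of_nonneg_left (by positivity))
        · rw [← intervalIntegral.integral_add_adjacent_intervals (hint a (b - S) le_rfl (by linarith))
            (hint (b - S) b (by linarith) hab)]
          refine (norm_add_le _ _).trans (add_le_add ?_ (triv (b - S) b (by linarith) (by linarith)
            le_rfl (by linarith)))
          have k5 := near hP hA h0 h1 hn hc hY (a := a) (b := b - S) (d := S) ha (by linarith) h2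
            (by linarith) hS0 (Or.inl (by linarith))
          rwa [← hS, div_self hS0.ne', mul_one] at k5
      · rcases le_total (b - a) S with hba | hba
        · refine (triv a b le_rfl hab le_rfl hba).trans (le_add_of_nonneg_left (by positivity))
        · rw [← intervalIntegral.integral_add_adjacent_intervals (hint a (a + S) le_rfl (by linarith))
            (hint (a + S) b (by linarith) hab), add_comm]
          refine (norm_add_le _ _).trans (add_le_add ?_ (triv a (a + S) le_rfl (by linarith)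
            (by linarith) (by linarith)))
          have k5 := near hP hA h0 h1 hn hc hY (a := a + S) (b := b) (d := S) (by linarith)
            (by linarith) (by linarith) h3 hS0 (Or.inr (by linarith))
          rwa [← hS, div_self hS0.ne', mul_one] at k5
    calc _ ≤ _ := k4
      _ = 2 * (992 * Real.pi ^ 2 * A + 4 * Real.pi * A) * (1 / 2) := by ring
      _ ≤ _ := by gcongr

theorem frac_mono {x y D : ℝ} (hx : 0 < x) (hxy : x ≤ y) (hD : 0 ≤ D) :
    √x / (√x + D) ≤ √y / (√y + D) := by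
  have h1 : 0 < √x := Real.sqrt_pos.2 hx
  have h2 : √x ≤ √y := Real.sqrt_le_sqrt hxy
  rw [div_le_div_iff₀ (by linarith) (by linarith)]
  nlinarith

/-- far, to the left -/
theorem g_left (hn : 1 ≤ n) {t : ℝ} (ht : 0 < t) (h : t ≤ Real.pi * n) : 1 / 2 ≤ |gn n t| := by
  have hn0 : (0 : ℝ) < n := by exact_mod_cast (show 0 < n by omega)
  have hpi := Real.pi_pos
  have h1 : t / (2 * Real.pi * n) ≤ 2⁻¹ := by
    rw [div_le_iff₀ (by positivity)]
    linarith
  have h2 : Real.log (t / (2 * Real.pi * n)) ≤ Real.log 2⁻¹ := Real.log_le_log (by positivity) h1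
  rw [Real.log_inv] at h2
  have h3 := Real.log_two_gt_d9
  unfold gn
  refine le_trans ?_ (neg_le_abs _)
  linarith

/-- far, to the right -/
theorem g_right (hn : 1 ≤ n) {t : ℝ} (h : 4 * Real.pi * n ≤ t) : 1 / 2 ≤ |gn n t| := by
  have hn0 : (0 : ℝ) < n := by exact_mod_cast (show 0 < n by omega)
  have hpi := Real.pi_pos
  have h1 : 2 ≤ t / (2 * Real.pi * n) := by
    rw [le_div_iff₀ (by positivity)]
    linarith
  have h2 : Real.log 2 ≤ Real.log (t / (2 * Real.pi * n)) := Real.log_le_log (by norm_num) h1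
  have h3 := Real.log_two_gt_d9
  unfold gn
  refine le_trans ?_ (le_abs_self _)
  linarith

end

/-- NEAR -/
theorem aux (hb : StBasic) {K : ℝ} (hl : ∀ s : ℂ, 1 / 2 ≤ s.re → s.re ≤ 4 → 1 ≤ s.im →
    Real.exp (-K) * s.im ^ (s.re - 1 / 2) ≤ ‖XX s‖ ∧ ‖XX s‖ ≤ Real.exp K * s.im ^ (s.re - 1 / 2))
    (hP : S_PART) (hS : S_SAD) (hC : S_SHC) : S_NEAR := by
  intro η h0 h1
  obtain ⟨C1, hC1, hS'⟩ := hS η h0
  obtain ⟨C2, hC2, hC'⟩ := hC
  set A : ℝ := Real.exp K with hAdef
  have hA : 0 < A := Real.exp_pos _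
  have hpi := Real.pi_gt_three
  have hpi4 := Real.pi_lt_d2
  set F : ℝ := 68 * A with hF
  set G : ℝ := 2 * (992 * Real.pi ^ 2 * A + 4 * Real.pi * A) with hG
  set E : ℝ := A * (12 * Real.pi) * (12 * Real.pi) + 2 * Real.pi with hE
  have hF0 : 0 < F := by positivity
  have hG0 : 0 < G := by positivity
  have hE0 : 0 < E := by positivity
  refine ⟨F + 4 * Real.pi * F + G + C1 + C2 + 9 * E, by positivity, ?_⟩
  intro T n hT hn
  have hn0 : (0 : ℝ) < n := by exact_mod_cast (show 0 < n by omega)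
  have hn1 : (1 : ℝ) ≤ n := by exact_mod_cast hn
  have hc := contY hb (1 + η) hn
  have hY : ∀ t : ℝ, 1 ≤ t → ‖Y (1 + η) n t‖ ≤
      A * ((n : ℝ) ^ (-(1 + η)) * t ^ (1 / 2 + η)) := fun t ht => normY hl h0 h1 ht hn
  have hint : ∀ u v : ℝ, 1 ≤ u → 1 ≤ v → IntervalIntegrable (Y (1 + η) n) volume u v := by
    intro u v hu hv
    refine ContinuousOn.intervalIntegrable (hc.mono fun t ht => ?_)
    exact le_trans (le_inf hu hv) ht.1
  set P : ℝ := (n : ℝ) ^ (-(1 + η)) * T ^ (1 / 2 + η) with hPd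
  set Q : ℝ := (n : ℝ) ^ (η - 1 / 2) with hQd
  set R : ℝ := √T / (√T + |T - 2 * Real.pi * n|) with hRd
  have hP0 : 0 < P := by positivity
  have hQ0 : 0 < Q := by positivity
  have hR0 : 0 ≤ R := by positivity
  set Ct : ℝ := F + 4 * Real.pi * F + G + C1 + C2 + 9 * E with hCt
  have hCt0 : 0 ≤ Ct := by positivity
  have b1 : P ≤ bd η T n := by
    unfold bd
    refine le_add_of_nonneg_right ?_
    split_ifs
    · positivity
    · exact le_rfl
  have b2 : (n : ℝ) ≤ T → bd η T n = P + (Q + R) := by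
    intro h
    unfold bd
    rw [if_pos h]
  -- the part up to `π n`
  have left : 4 ≤ n → ‖∫ t in (12 : ℝ)..(Real.pi * n), Y (1 + η) n t‖ ≤ 4 * Real.pi * F * Q := by
    intro hn4
    have hn4' : (4 : ℝ) ≤ n := by exact_mod_cast hn4
    have k1 : (12 : ℝ) ≤ Real.pi * n := by nlinarith
    have k2 := far hP hA h0 h1 hn hc hY (a := 12) (b := Real.pi * n) le_rfl k1
      (fun t ht => g_left hn (by linarith [ht.1]) ht.2)
    have k3 := nb h0 h1 hn (t := Real.pi * n) (by positivity) (by nlinarith)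
    have k4 : (n : ℝ) ^ (-(1 / 2 : ℝ)) ≤ Q :=
      Real.rpow_le_rpow_of_exponent_le hn1 (by linarith)
    calc _ ≤ _ := k2
      _ ≤ 68 * A * (4 * Real.pi * Q) := by
          refine mul_le_mul_of_nonneg_left (k3.trans ?_) (by positivity)
          gcongr
      _ = _ := by rw [hF]; ring
  rcases le_total T (Real.pi * n) with c1 | c1
  · -- T ≤ π n
    have k1 := far hP hA h0 h1 hn hc hY (a := 12) (b := T) le_rfl hT
      (fun t ht => g_left hn (by linarith [ht.1]) (ht.2.trans c1))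
    have k2 : ¬ (2 * Real.pi * n ≤ T) := by
      intro h
      nlinarith
    rw [if_neg k2, ofReal_zero, sub_zero]
    calc _ ≤ _ := k1
      _ ≤ Ct * P := by
          refine mul_le_mul_of_nonneg_right ?_ hP0.le
          rw [hCt, ← hF]
          have : 0 ≤ 4 * Real.pi * F := by positivity
          linarith
      _ ≤ _ := by gcongr
  have hnT : (n : ℝ) ≤ T := by nlinarith
  rcases Nat.lt_or_ge n 4 with n4 | n4
  · -- small `n`
    have hn3 : (n : ℝ) ≤ 3 := by exact_mod_cast (show n ≤ 3 by omega)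
    have k0 : 1 / 9 ≤ P := by
      have m1 : (1 : ℝ) ≤ T ^ (1 / 2 + η) := Real.one_le_rpow (by linarith) (by linarith)
      have m2 : (1 / 9 : ℝ) ≤ (n : ℝ) ^ (-(1 + η)) := by
        have m3 : (3 : ℝ) ^ (-(1 + η)) ≤ (n : ℝ) ^ (-(1 + η)) :=
          Real.rpow_le_rpow_of_nonpos hn0 hn3 (by linarith)
        have m4 : (3 : ℝ) ^ (-2 : ℝ) ≤ (3 : ℝ) ^ (-(1 + η)) :=
          Real.rpow_le_rpow_of_exponent_le (by norm_num) (by linarith)
        have m5 : (3 : ℝ) ^ (-2 : ℝ) = 1 / 9 := by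
          rw [Real.rpow_neg (by norm_num)]
          norm_num
        exact m5.symm.le.trans (m4.trans m3)
      calc (1 / 9 : ℝ) = 1 / 9 * 1 := by norm_num
        _ ≤ _ := mul_le_mul m2 m1 (by norm_num) (by positivity)
    have k1 : ∀ U : ℝ, 12 ≤ U → U ≤ 12 * Real.pi → ‖∫ t in (12 : ℝ)..U, Y (1 + η) n t‖ ≤
        A * (12 * Real.pi) * (12 * Real.pi) := by
      intro U hU hU2
      have m1 : ∀ t ∈ Set.uIoc (12 : ℝ) U, ‖Y (1 + η) n t‖ ≤ A * (12 * Real.pi) := by
        intro t ht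
        rw [uIoc_of_le hU] at ht
        refine (hY t (by linarith [ht.1])).trans ?_
        have m2 : (n : ℝ) ^ (-(1 + η)) ≤ 1 := Real.rpow_le_one_of_one_le_of_nonpos hn1 (by linarith)
        have m3 : t ^ (1 / 2 + η) ≤ 12 * Real.pi := by
          have ht0 : 1 ≤ t := by linarith [ht.1]
          calc t ^ (1 / 2 + η) ≤ t ^ (1 : ℝ) := Real.rpow_le_rpow_of_exponent_le ht0 (by linarith)
            _ = t := Real.rpow_one _
            _ ≤ _ := ht.2.trans hU2
        have ht0 : 0 < t := by linarith [ht.1]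
        calc _ ≤ A * (1 * (12 * Real.pi)) := by gcongr
          _ = _ := by ring
      have m4 := intervalIntegral.norm_integral_le_of_norm_le_const m1
      rw [abs_of_nonneg (by linarith)] at m4
      refine m4.trans ?_
      refine mul_le_mul_of_nonneg_left (by linarith) (by positivity)
    have k2 : ‖((if 2 * Real.pi * n ≤ T then 2 * Real.pi else 0 : ℝ) : ℂ)‖ ≤ 2 * Real.pi := by
      rw [Complex.norm_real]
      split_ifs
      · rw [Real.norm_of_nonneg (by positivity)]
      · rw [norm_zero]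
        positivity
    have k3 : E ≤ 9 * E * P := by nlinarith
    rcases le_total T (12 * Real.pi) with c2 | c2
    · calc _ ≤ _ := norm_sub_le _ _
        _ ≤ E := add_le_add (k1 T hT c2) k2
        _ ≤ 9 * E * P := k3
        _ ≤ Ct * P := by
            refine mul_le_mul_of_nonneg_right ?_ hP0.le
            rw [hCt]
            have : 0 ≤ 4 * Real.pi * F := by positivity
            linarith
        _ ≤ _ := by gcongr
    · rw [← intervalIntegral.integral_add_adjacent_intervals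
        (hint 12 (12 * Real.pi) (by norm_num) (by linarith))
        (hint (12 * Real.pi) T (by linarith) (by linarith))]
      have k4 := far hP hA h0 h1 hn hc hY (a := 12 * Real.pi) (b := T) (by linarith) c2
        (fun t ht => g_right hn (by nlinarith [ht.1]))
      calc _ ≤ _ := norm_sub_le _ _
        _ ≤ (A * (12 * Real.pi) * (12 * Real.pi) + F * P) + 2 * Real.pi := by
            refine add_le_add ((norm_add_le _ _).trans (add_le_add ?_ k4)) k2
            exact k1 _ (by linarith) le_rfl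
        _ = E + F * P := by rw [hE]; ring
        _ ≤ 9 * E * P + F * P := by linarith
        _ = (9 * E + F) * P := by ring
        _ ≤ Ct * P := by
            refine mul_le_mul_of_nonneg_right ?_ hP0.le
            rw [hCt]
            have : 0 ≤ 4 * Real.pi * F := by positivity
            linarith
        _ ≤ _ := by gcongr
  -- `n ≥ 4`, `π n ≤ T`
  have hn4' : (4 : ℝ) ≤ n := by exact_mod_cast n4
  have hpn : (12 : ℝ) ≤ Real.pi * n := by nlinarith
  have fin : ∀ X : ℝ, X ≤ F * P + (4 * Real.pi * F + C1 + C2) * Q + G * R → X ≤ Ct * bd η T n := by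
    intro X hX
    rw [b2 hnT]
    have p1 : F * P ≤ Ct * P := by
      refine mul_le_mul_of_nonneg_right ?_ hP0.le
      rw [hCt]
      have : 0 ≤ 4 * Real.pi * F := by positivity
      linarith
    have p2 : (4 * Real.pi * F + C1 + C2) * Q ≤ Ct * Q := by
      refine mul_le_mul_of_nonneg_right ?_ hQ0.le
      rw [hCt]
      linarith
    have p3 : G * R ≤ Ct * R := by
      refine mul_le_mul_of_nonneg_right ?_ hR0
      rw [hCt]
      have : 0 ≤ 4 * Real.pi * F := by positivity
      linarith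
    calc X ≤ _ := hX
      _ ≤ Ct * P + Ct * Q + Ct * R := by linarith
      _ = _ := by ring
  rcases lt_or_ge T (2 * Real.pi * n) with c2 | c2
  · -- `π n ≤ T < 2 π n`
    rw [if_neg (not_le.2 c2), ofReal_zero, sub_zero]
    refine fin _ ?_
    rw [← intervalIntegral.integral_add_adjacent_intervals
        (hint 12 (Real.pi * n) (by norm_num) (by linarith))
        (hint (Real.pi * n) T (by linarith) (by linarith))]
    have k1 := near2 hP hA h0 h1 hn hc hY (a := Real.pi * n) (b := T) (D := 2 * Real.pi * n - T)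
      hpn c1 le_rfl (by nlinarith) (by linarith) (Or.inl (by ring))
    have k2 := frac_mono (x := (n : ℝ)) (y := T) (D := 2 * Real.pi * n - T) hn0 hnT (by linarith)
    have k3 : |T - 2 * Real.pi * n| = 2 * Real.pi * n - T := by
      rw [abs_of_neg (by linarith)]
      ring
    have k4 : ‖∫ t in (Real.pi * n)..T, Y (1 + η) n t‖ ≤ G * R := by
      rw [hRd, k3]
      exact k1.trans (mul_le_mul_of_nonneg_left k2 hG0.le)
    have k5 : 0 ≤ F * P := by positivity
    have k6 : 0 ≤ (C1 + C2) * Q := by positivity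
    calc _ ≤ _ := norm_add_le _ _
      _ ≤ 4 * Real.pi * F * Q + G * R := add_le_add (left n4) k4
      _ ≤ _ := by linarith
  · rw [if_pos c2]
    refine fin _ ?_
    have hs : ‖(∫ t in (Real.pi * n)..(4 * Real.pi * n), Y (1 + η) n t) -
        ((2 * Real.pi : ℝ) : ℂ)‖ ≤ (C1 + C2) * Q := by
      have k1 := hS' n n4
      have k2 := hC' (1 + η) (by linarith) (by linarith) n hn
      have k4 : (n : ℝ) ^ (-(1 / 2 : ℝ)) ≤ Q :=
        Real.rpow_le_rpow_of_exponent_le hn1 (by linarith)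
      calc _ = ‖((∫ t in (Real.pi * n)..(4 * Real.pi * n), Y (1 + η) n t) -
            ∫ t in (Real.pi * n)..(4 * Real.pi * n), Y 4 n t) +
            ((∫ t in (Real.pi * n)..(4 * Real.pi * n), Y 4 n t) - ((2 * Real.pi : ℝ) : ℂ))‖ := by
            congr 1
            ring
        _ ≤ _ := norm_add_le _ _
        _ ≤ C2 * (n : ℝ) ^ (-(1 / 2 : ℝ)) + C1 * (n : ℝ) ^ (η - 1 / 2) := add_le_add k2 k1
        _ ≤ C2 * Q + C1 * Q := by gcongr
        _ = _ := by ring
    rcases le_total T (4 * Real.pi * n) with c3 | c3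
    · -- `2 π n ≤ T ≤ 4 π n`
      have k1 := near2 hP hA h0 h1 hn hc hY (a := T) (b := 4 * Real.pi * n)
        (D := T - 2 * Real.pi * n) hT c3 c1 le_rfl (by linarith) (Or.inr (by ring))
      have k2 := frac_mono (x := (n : ℝ)) (y := T) (D := T - 2 * Real.pi * n) hn0 hnT (by linarith)
      have k3 : |T - 2 * Real.pi * n| = T - 2 * Real.pi * n := abs_of_nonneg (by linarith)
      have k4 : ‖∫ t in T..(4 * Real.pi * n), Y (1 + η) n t‖ ≤ G * R := by
        rw [hRd, k3]
        exact k1.trans (mul_le_mul_of_nonneg_left k2 hG0.le)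
      have k5 : 0 ≤ F * P := by positivity
      have e1 : (∫ t in (12 : ℝ)..T, Y (1 + η) n t) =
          (∫ t in (12 : ℝ)..(Real.pi * n), Y (1 + η) n t) +
          (∫ t in (Real.pi * n)..(4 * Real.pi * n), Y (1 + η) n t) -
          ∫ t in T..(4 * Real.pi * n), Y (1 + η) n t := by
        rw [intervalIntegral.integral_add_adjacent_intervals
          (hint 12 (Real.pi * n) (by norm_num) (by linarith))
          (hint (Real.pi * n) (4 * Real.pi * n) (by linarith) (by linarith)),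
          ← intervalIntegral.integral_add_adjacent_intervals
          (hint 12 T (by norm_num) (by linarith)) (hint T (4 * Real.pi * n) (by linarith)
          (by linarith))]
        ring
      rw [e1]
      calc _ = ‖(∫ t in (12 : ℝ)..(Real.pi * n), Y (1 + η) n t) +
            ((∫ t in (Real.pi * n)..(4 * Real.pi * n), Y (1 + η) n t) -
            ((2 * Real.pi : ℝ) : ℂ)) - ∫ t in T..(4 * Real.pi * n), Y (1 + η) n t‖ := by
            congr 1
            ring
        _ ≤ _ := norm_sub_le _ _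
        _ ≤ (4 * Real.pi * F * Q + (C1 + C2) * Q) + G * R :=
            add_le_add ((norm_add_le _ _).trans (add_le_add (left n4) hs)) k4
        _ ≤ _ := by linarith
    · -- `4 π n ≤ T`
      have k4 := far hP hA h0 h1 hn hc hY (a := 4 * Real.pi * n) (b := T) (by linarith) c3
        (fun t ht => g_right hn ht.1)
      have k5 : 0 ≤ G * R := by positivity
      rw [← intervalIntegral.integral_add_adjacent_intervals
        (hint 12 (4 * Real.pi * n) (by norm_num) (by linarith))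
        (hint (4 * Real.pi * n) T (by linarith) (by linarith)),
        ← intervalIntegral.integral_add_adjacent_intervals
        (hint 12 (Real.pi * n) (by norm_num) (by linarith))
        (hint (Real.pi * n) (4 * Real.pi * n) (by linarith) (by linarith))]
      calc _ = ‖(∫ t in (12 : ℝ)..(Real.pi * n), Y (1 + η) n t) +
            ((∫ t in (Real.pi * n)..(4 * Real.pi * n), Y (1 + η) n t) -
            ((2 * Real.pi : ℝ) : ℂ)) + ∫ t in (4 * Real.pi * n)..T, Y (1 + η) n t‖ := by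
            congr 1
            ring
        _ ≤ _ := norm_add_le _ _
        _ ≤ (4 * Real.pi * F * Q + (C1 + C2) * Q) + F * P :=
            add_le_add ((norm_add_le _ _).trans (add_le_add (left n4) hs)) k4
        _ ≤ _ := by linarith

end Pool.Agent.N30.SR.Near

/-- NEAR: the truncated integral on the line `Re s = 1 + η` -/
theorem Pool.Agent.N30.SR.t_NEAR (hP : Pool.Agent.N30.SR.S_PART) (hS : Pool.Agent.N30.SR.S_SAD)
    (hC : Pool.Agent.N30.SR.S_SHC) : Pool.Agent.N30.SR.S_NEAR := by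
  obtain ⟨K, -, hl⟩ := Pool.Agent.W338.QS.qs_line.2.2.2.2.2.2.2.2.1
  exact Pool.Agent.N30.SR.Near.aux Pool.Agent.W22.QS.qs_basic hl hP hS hC
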