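import Pool.Agent.N30.SR.Stm
import Pool.Agent.N30.MZ.Ke
import Pool.Agent.W372.QS.Mel
import Pool.Agent.W253.QS.I3
import Pool.Agent.W338.QS.Line
import Pool.Agent.W22.QS.Basic

/-!
# Project SR, SAD: the full saddle on the line `Re s = 4` (helper340)
-/

set_option autoImplicit false

open Complex MeasureTheory Set Filter Topology
open Pool.Agent.W188.QS
open Pool.Agent.N30.MZ (ge In_asym)

namespace Pool.Agent.N30.SR.SAD

/-! ### the weight -/

theorem fp_sub (T t : ℝ) : fp t - cp T = 7 / 2 + ((t - T : ℝ) : ℂ) * I := by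
  unfold fp cp
  push_cast
  ring

/-- the base of the exponent -/
noncomputable def aa (T D t : ℝ) : ℂ := (7 / 2 + ((t - T : ℝ) : ℂ) * I) / (D : ℂ)

theorem GG_eq (T D t : ℝ) : GG T D (fp t) = cexp (aa T D t ^ 2) := by
  unfold GG aa
  rw [fp_sub]

theorem norm_aux (u : ℝ) : ‖(7 / 2 + (u : ℂ) * I : ℂ)‖ ^ 2 = 49 / 4 + u ^ 2 := by
  have h : (7 / 2 + (u : ℂ) * I : ℂ) = (((7 / 2 : ℝ) : ℂ) + (u : ℂ) * I) := by push_cast; rfl
  rw [h, Complex.sq_norm, Complex.normSq_add_mul_I]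
  norm_num

theorem aa_sq_norm (T D t : ℝ) : ‖aa T D t ^ 2‖ = (49 / 4 + (t - T) ^ 2) / D ^ 2 := by
  unfold aa
  rw [norm_pow, norm_div, div_pow, norm_aux, Complex.norm_real, Real.norm_eq_abs, sq_abs]

theorem aa_norm {T D t : ℝ} (hD : 0 < D) : ‖aa T D t‖ ≤ (7 / 2 + |t - T|) / D := by
  unfold aa
  rw [norm_div, Complex.norm_real, Real.norm_eq_abs, abs_of_pos hD]
  refine div_le_div_of_nonneg_right ?_ hD.le
  refine (norm_add_le _ _).trans ?_
  rw [norm_mul, Complex.norm_I, mul_one, Complex.norm_real, Real.norm_eq_abs]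
  norm_num

theorem aa_sq_re {T D t : ℝ} (_hD : 0 < D) :
    (aa T D t ^ 2).re = (49 / 4 - (t - T) ^ 2) / D ^ 2 := by
  have h1 : (7 / 2 + ((t - T : ℝ) : ℂ) * I : ℂ) ^ 2 =
      ((49 / 4 - (t - T) ^ 2 : ℝ) : ℂ) + ((7 * (t - T) : ℝ) : ℂ) * I := by
    push_cast
    ring_nf
    rw [I_sq]
    ring
  unfold aa
  rw [div_pow, h1, ← Complex.ofReal_pow, Complex.div_ofReal_re, Complex.add_re,
    Complex.ofReal_re, Complex.re_ofReal_mul, Complex.I_re, mul_zero, add_zero]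

theorem w_norm {T D t : ℝ} (hD : 4 ≤ D) :
    ‖GG T D (fp t)‖ ≤ 3 * Real.exp (-((t - T) / D) ^ 2) := by
  have hD0 : 0 < D := by linarith
  rw [GG_eq, Complex.norm_exp, aa_sq_re hD0]
  have h1 : (49 / 4 - (t - T) ^ 2) / D ^ 2 = 49 / 4 / D ^ 2 + -((t - T) / D) ^ 2 := by
    rw [div_pow]
    ring
  rw [h1, Real.exp_add]
  refine mul_le_mul_of_nonneg_right ?_ (Real.exp_pos _).le
  have h2 : 49 / 4 / D ^ 2 ≤ 1 := by
    rw [div_le_one (by positivity)]
    nlinarith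
  have h3 := Real.exp_one_lt_d9
  have h4 := Real.exp_le_exp.2 h2
  linarith

theorem exp_neg_le {y : ℝ} (hy : 0 ≤ y) : Real.exp (-y) ≤ (1 + y)⁻¹ := by
  rw [Real.exp_neg]
  refine inv_anti₀ (by linarith) ?_
  have := Real.add_one_le_exp y
  linarith

theorem w_norm2 {T D t : ℝ} (hD : 4 ≤ D) :
    ‖GG T D (fp t)‖ ≤ 3 * (D ^ 2 / (D ^ 2 + (t - T) ^ 2)) := by
  have hD0 : 0 < D := by linarith
  refine (w_norm hD).trans (mul_le_mul_of_nonneg_left ?_ (by norm_num))
  refine (exp_neg_le (sq_nonneg _)).trans (le_of_eq ?_)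
  have h1 : D ^ 2 + (t - T) ^ 2 ≠ 0 := by positivity
  have h2 : 1 + ((t - T) / D) ^ 2 ≠ 0 := by positivity
  rw [div_pow] at h2 ⊢
  rw [inv_eq_one_div, div_eq_div_iff h2 h1]
  field_simp

theorem w_norm3 {T D t : ℝ} (hD : 4 ≤ D) : ‖GG T D (fp t)‖ ≤ 3 := by
  refine (w_norm hD).trans ?_
  have h1 : Real.exp (-((t - T) / D) ^ 2) ≤ 1 := by
    rw [Real.exp_le_one_iff]
    have := sq_nonneg ((t - T) / D)
    linarith
  linarith

theorem f_norm4 {T D t : ℝ} (hD : 4 ≤ D) : ‖1 - GG T D (fp t)‖ ≤ 4 := by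
  have h1 := norm_sub_le (1 : ℂ) (GG T D (fp t))
  rw [norm_one] at h1
  have h2 := w_norm3 (T := T) (t := t) hD
  linarith

theorem f_norm {T D t : ℝ} (hD : 4 ≤ D) (hu : 1 ≤ |t - T|) :
    ‖1 - GG T D (fp t)‖ ≤ 60 * ((t - T) ^ 2 / (D ^ 2 + (t - T) ^ 2)) := by
  have hD0 : 0 < D := by linarith
  have hu2 : 1 ≤ (t - T) ^ 2 := by
    rw [← sq_abs]
    nlinarith
  have hpos : 0 < D ^ 2 + (t - T) ^ 2 := by positivity
  rcases le_or_gt ‖aa T D t ^ 2‖ 1 with h | h
  · have h1 := Complex.norm_exp_sub_one_le h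
    rw [norm_sub_rev, ← GG_eq] at h1
    rw [aa_sq_norm] at h1 h
    rw [div_le_one (by positivity)] at h
    have h2 : (49 / 4 + (t - T) ^ 2) / D ^ 2 ≤ 30 * ((t - T) ^ 2 / (D ^ 2 + (t - T) ^ 2)) := by
      rw [mul_div_assoc', div_le_div_iff₀ (by positivity) hpos]
      nlinarith
    linarith
  · rw [aa_sq_norm, one_lt_div (by positivity)] at h
    refine (f_norm4 hD).trans ?_
    rw [mul_div_assoc', le_div_iff₀ hpos]
    nlinarith

/-- the derivative of the weight -/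
noncomputable def wd (T D t : ℝ) : ℂ := GG T D (fp t) * (2 * aa T D t * (I / (D : ℂ)))

theorem w_deriv (T D t : ℝ) : HasDerivAt (fun t => GG T D (fp t)) (wd T D t) t := by
  have h1 : HasDerivAt (fun y : ℝ => ((y - T : ℝ) : ℂ)) ((1 : ℝ) : ℂ) t :=
    ((hasDerivAt_id t).sub_const T).ofReal_comp
  have h2 : HasDerivAt (aa T D) (I / (D : ℂ)) t := by
    have h3 := ((h1.mul_const I).const_add (7 / 2)).div_const (D : ℂ)
    rw [Complex.ofReal_one, one_mul] at h3
    exact h3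
  have h4 : HasDerivAt (fun t => aa T D t ^ 2) (2 * aa T D t * (I / (D : ℂ))) t := by
    have h5 : HasDerivAt (fun t => aa T D t ^ 2) _ t := h2.fun_pow 2
    exact h5.congr_deriv (by norm_num)
  have h5 := h4.cexp
  simp only [← GG_eq] at h5
  exact h5

theorem wd_norm {T D t : ℝ} (hD : 4 ≤ D) (hu : 1 ≤ |t - T|) :
    ‖wd T D t‖ ≤ 27 * (|t - T| / (D ^ 2 + (t - T) ^ 2)) := by
  have hD0 : 0 < D := by linarith
  have hpos : 0 < D ^ 2 + (t - T) ^ 2 := by positivity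
  unfold wd
  rw [norm_mul, norm_mul, norm_mul, norm_div, Complex.norm_I, Complex.norm_real,
    Real.norm_eq_abs, abs_of_pos hD0, Complex.norm_ofNat]
  have h1 := w_norm2 (T := T) (t := t) hD
  have h2 : 2 * ‖aa T D t‖ * (1 / D) ≤ 9 * |t - T| / D ^ 2 := by
    have h3 := aa_norm (T := T) (t := t) hD0
    have h4 : 2 * ‖aa T D t‖ * (1 / D) ≤ 2 * ((7 / 2 + |t - T|) / D) * (1 / D) := by gcongr
    refine h4.trans ?_
    have h5 : 2 * ((7 / 2 + |t - T|) / D) * (1 / D) = (7 + 2 * |t - T|) / D ^ 2 := by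
      field_simp
    rw [h5]
    refine div_le_div_of_nonneg_right ?_ (by positivity)
    linarith
  calc ‖GG T D (fp t)‖ * (2 * ‖aa T D t‖ * (1 / D)) ≤
        3 * (D ^ 2 / (D ^ 2 + (t - T) ^ 2)) * (9 * |t - T| / D ^ 2) := by gcongr
    _ = 27 * (|t - T| / (D ^ 2 + (t - T) ^ 2)) := by
        field_simp
        norm_num

/-! ### the oscillating factor -/

theorem Y_eq (n : ℕ) (t : ℝ) : Y 4 n t = (n : ℂ) ^ (-fp t) * XX (fp t) := by
  unfold Y fp
  rw [show ((4 : ℝ) : ℂ) = 4 by norm_num, mul_comm]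

theorem fp_im (t : ℝ) : (fp t).im = t := by
  unfold fp
  simp

theorem fp_re (t : ℝ) : (fp t).re = 4 := by
  unfold fp
  simp

theorem hasDerivAt_fp (t : ℝ) : HasDerivAt fp I t := by
  have h1 : HasDerivAt (fun y : ℝ => (y : ℂ)) ((1 : ℝ) : ℂ) t := (hasDerivAt_id t).ofReal_comp
  have h2 := (h1.mul_const I).const_add (4 : ℂ)
  rw [Complex.ofReal_one, one_mul] at h2
  exact h2

theorem Y_deriv (hB : StBasic) {n : ℕ} (hn : 1 ≤ n) {t : ℝ} (ht : 1 ≤ t) :
    HasDerivAt (Y 4 n) (I * ((logDeriv XX (fp t) - Complex.log n) * Y 4 n t)) t := by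
  obtain ⟨hd, h0, -⟩ := hB (fp t) (by rw [fp_im]; exact ht)
  have hn0 : (n : ℂ) ≠ 0 := by exact_mod_cast (by omega : n ≠ 0)
  have h1 : HasDerivAt (fun s : ℂ => (n : ℂ) ^ (-s))
      ((n : ℂ) ^ (-fp t) * Complex.log n * (-1)) (fp t) :=
    (hasDerivAt_neg (fp t)).const_cpow (Or.inl hn0)
  have h2 := h1.mul hd.hasDerivAt
  have h3 := h2.scomp t (hasDerivAt_fp t)
  have h5 : ((fun s : ℂ => (n : ℂ) ^ (-s)) * XX) ∘ fp = Y 4 n := by
    funext s
    exact (Y_eq n s).symm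
  rw [h5] at h3
  refine h3.congr_deriv ?_
  rw [Y_eq, logDeriv_apply, smul_eq_mul]
  field_simp
  ring

theorem Y_cont (hB : StBasic) {n : ℕ} (hn : 1 ≤ n) : ContinuousOn (Y 4 n) (Ioi 1) :=
  fun _ ht => (Y_deriv hB hn (le_of_lt ht)).continuousAt.continuousWithinAt

/-- the error of the logarithmic derivative -/
theorem rr_norm (hL : StLine) {n : ℕ} (hn : 1 ≤ n) {t : ℝ} (ht : 12 ≤ t) :
    ‖logDeriv XX (fp t) - Complex.log n - (gn n t : ℂ)‖ ≤ 14 / t := by
  obtain ⟨-, -, -, -, -, -, -, h8, -⟩ := hL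
  have h1 := h8 (fp t) (by rw [fp_re]; norm_num) (by rw [fp_re]) (by rw [fp_im]; exact ht)
  rw [fp_im] at h1
  have hn0 : (0 : ℝ) < n := by exact_mod_cast (by omega : 0 < n)
  have h2 : gn n t = Real.log (t / (2 * Real.pi)) - Real.log n := by
    unfold gn
    rw [← div_div, Real.log_div (by positivity) hn0.ne']
  rw [h2]
  have h3 : logDeriv XX (fp t) - Complex.log n -
      ((Real.log (t / (2 * Real.pi)) - Real.log n : ℝ) : ℂ) =
      logDeriv XX (fp t) - (Real.log (t / (2 * Real.pi)) : ℂ) := by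
    push_cast [Complex.natCast_log]
    ring
  rw [h3]
  exact h1

theorem gn_deriv {n : ℕ} (hn : 1 ≤ n) {t : ℝ} (ht : 0 < t) : HasDerivAt (gn n) (1 / t) t := by
  have hn0 : (0 : ℝ) < n := by exact_mod_cast (by omega : 0 < n)
  have h1 : HasDerivAt (fun t : ℝ => t / (2 * Real.pi * n)) (1 / (2 * Real.pi * n)) t :=
    (hasDerivAt_id t).div_const _
  have h2 := h1.log (by positivity)
  have h3 : 1 / (2 * Real.pi * n) / (t / (2 * Real.pi * n)) = 1 / t := by
    field_simp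
  rw [h3] at h2
  exact h2

/-! ### integration by parts -/

theorem parts (hB : StBasic) (hL : StLine) {n : ℕ} (hn : 1 ≤ n) {a b : ℝ} (ha : 12 ≤ a)
    (hab : a ≤ b) {f f' : ℝ → ℂ} (hf : ∀ t, HasDerivAt f (f' t) t)
    (hg : ∀ t ∈ Icc a b, gn n t ≠ 0) {M E : ℝ} (hM : ∀ t ∈ Icc a b, ‖Y 4 n t‖ ≤ M)
    (hE : ∀ t ∈ Icc a b, ‖f t‖ / |gn n t| ≤ E) {B B' : ℝ → ℝ} (hBd : ∀ t, HasDerivAt B (B' t) t)
    (hR : ∀ t ∈ Icc a b, ‖f t‖ / |gn n t| * (14 / t) + ‖f' t‖ / |gn n t| +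
      ‖f t‖ / (t * gn n t ^ 2) ≤ B' t) :
    ‖∫ t in a..b, Y 4 n t * f t‖ ≤ M * (2 * E + (B b - B a)) := by
  have hM0 : 0 ≤ M := (norm_nonneg _).trans (hM a (left_mem_Icc.2 hab))
  have hfc : Continuous f := continuous_iff_continuousAt.2 fun t => (hf t).continuousAt
  have hYf : ContinuousOn (fun t => Y 4 n t * f t) (Ioi 1) := (Y_cont hB hn).mul hfc.continuousOn
  have hint : ∀ t ∈ Icc a b, IntervalIntegrable (fun t => Y 4 n t * f t) volume a t := by
    intro t ht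
    refine ContinuousOn.intervalIntegrable (hYf.mono ?_)
    rw [uIcc_of_le ht.1]
    intro s hs
    exact lt_of_lt_of_le (by linarith) hs.1
  have hP : ∀ t ∈ Icc a b, HasDerivAt (fun x => ∫ s in a..x, Y 4 n s * f s) (Y 4 n t * f t) t := by
    intro t ht
    have h1 : (1 : ℝ) < t := lt_of_lt_of_le (by linarith) ht.1
    exact intervalIntegral.integral_hasDerivAt_right (hint t ht)
      (hYf.stronglyMeasurableAtFilter isOpen_Ioi t h1) (hYf.continuousAt (Ioi_mem_nhds h1))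
  have hH : ∀ t ∈ Icc a b, HasDerivAt (fun x => Y 4 n x * (f x / (gn n x : ℂ)))
      (I * (Y 4 n t * f t) + Y 4 n t * (I * (logDeriv XX (fp t) - Complex.log n - (gn n t : ℂ)) *
        (f t / (gn n t : ℂ)) + (f' t / (gn n t : ℂ) - f t / ((t : ℂ) * (gn n t : ℂ) ^ 2)))) t := by
    intro t ht
    have ht0 : 0 < t := lt_of_lt_of_le (by linarith) ht.1
    have h0 : (gn n t : ℂ) ≠ 0 := by exact_mod_cast hg t ht
    have h1 := Y_deriv hB hn (show 1 ≤ t by linarith [ht.1])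
    have h2 : HasDerivAt (fun x => (gn n x : ℂ)) ((1 / t : ℝ) : ℂ) t := (gn_deriv hn ht0).ofReal_comp
    have h3 := h1.mul ((hf t).div h2 h0)
    refine h3.congr_deriv ?_
    have ht1 : (t : ℂ) ≠ 0 := by exact_mod_cast ht0.ne'
    simp only [Pi.div_apply]
    push_cast
    field_simp
    ring
  have hF : ∀ t ∈ Icc a b, HasDerivAt (fun x => Y 4 n x * (f x / (gn n x : ℂ)) -
      I * (∫ s in a..x, Y 4 n s * f s) - Y 4 n a * (f a / (gn n a : ℂ)))
      (Y 4 n t * (I * (logDeriv XX (fp t) - Complex.log n - (gn n t : ℂ)) *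
        (f t / (gn n t : ℂ)) + (f' t / (gn n t : ℂ) - f t / ((t : ℂ) * (gn n t : ℂ) ^ 2)))) t := by
    intro t ht
    have h1 := ((hH t ht).sub ((hP t ht).const_mul I)).sub_const (Y 4 n a * (f a / (gn n a : ℂ)))
    refine h1.congr_deriv ?_
    ring
  have hkey := image_norm_le_of_norm_deriv_right_le_deriv_boundary (a := a) (b := b)
    (f := fun x => Y 4 n x * (f x / (gn n x : ℂ)) -
      I * (∫ s in a..x, Y 4 n s * f s) - Y 4 n a * (f a / (gn n a : ℂ)))
    (f' := fun t => Y 4 n t * (I * (logDeriv XX (fp t) - Complex.log n - (gn n t : ℂ)) *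
        (f t / (gn n t : ℂ)) + (f' t / (gn n t : ℂ) - f t / ((t : ℂ) * (gn n t : ℂ) ^ 2))))
    (B := fun x => M * (B x - B a)) (B' := fun x => M * B' x)
    (fun t ht => (hF t ht).continuousAt.continuousWithinAt)
    (fun t ht => (hF t ⟨ht.1, ht.2.le⟩).hasDerivWithinAt)
    (by
      simp only [intervalIntegral.integral_same, mul_zero, sub_zero, sub_self, norm_zero, le_refl])
    (fun t => ((hBd t).sub_const (B a)).const_mul M)
    (fun t ht => by
      have ht' : t ∈ Icc a b := ⟨ht.1, ht.2.le⟩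
      have ht0 : 0 < t := lt_of_lt_of_le (by linarith) ht.1
      rw [norm_mul]
      refine mul_le_mul (hM t ht') ?_ (norm_nonneg _) hM0
      refine le_trans ?_ (hR t ht')
      have e1 : ‖I * (logDeriv XX (fp t) - Complex.log n - (gn n t : ℂ)) *
          (f t / (gn n t : ℂ))‖ ≤ ‖f t‖ / |gn n t| * (14 / t) := by
        rw [norm_mul, norm_mul, Complex.norm_I, one_mul, norm_div, Complex.norm_real,
          Real.norm_eq_abs, mul_comm]
        exact mul_le_mul_of_nonneg_left (rr_norm hL hn (ha.trans ht.1)) (by positivity)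
      have e2 : ‖f' t / (gn n t : ℂ) - f t / ((t : ℂ) * (gn n t : ℂ) ^ 2)‖ ≤
          ‖f' t‖ / |gn n t| + ‖f t‖ / (t * gn n t ^ 2) := by
        refine (norm_sub_le _ _).trans (le_of_eq ?_)
        rw [norm_div, norm_div, norm_mul, norm_pow, Complex.norm_real, Complex.norm_real,
          Real.norm_eq_abs, Real.norm_eq_abs, sq_abs, abs_of_pos ht0]
      refine (norm_add_le _ _).trans ?_
      linarith)
  have h1 := hkey (right_mem_Icc.2 hab)
  have hHn : ∀ t ∈ Icc a b, ‖Y 4 n t * (f t / (gn n t : ℂ))‖ ≤ M * E := by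
    intro t ht
    rw [norm_mul, norm_div, Complex.norm_real, Real.norm_eq_abs]
    exact mul_le_mul (hM t ht) (hE t ht) (by positivity) hM0
  have h2 := hHn a (left_mem_Icc.2 hab)
  have h3 := hHn b (right_mem_Icc.2 hab)
  have h4 : ‖∫ t in a..b, Y 4 n t * f t‖ = ‖I * ∫ t in a..b, Y 4 n t * f t‖ := by
    rw [norm_mul, Complex.norm_I, one_mul]
  rw [h4]
  have h5 : I * (∫ t in a..b, Y 4 n t * f t) = Y 4 n b * (f b / (gn n b : ℂ)) -
      Y 4 n a * (f a / (gn n a : ℂ)) - (Y 4 n b * (f b / (gn n b : ℂ)) -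
      I * (∫ s in a..b, Y 4 n s * f s) - Y 4 n a * (f a / (gn n a : ℂ))) := by ring
  rw [h5]
  refine (norm_sub_le _ _).trans ?_
  have h6 := norm_sub_le (Y 4 n b * (f b / (gn n b : ℂ))) (Y 4 n a * (f a / (gn n a : ℂ)))
  linarith

/-! ### the middle part -/

theorem gn_low {n : ℕ} (hn : 1 ≤ n) {t : ℝ} (h1 : Real.pi * n ≤ t) (h2 : t ≤ 4 * Real.pi * n) :
    |t - 2 * Real.pi * n| ≤ 13 * n * |gn n t| := by
  have hn0 : (0 : ℝ) < n := by exact_mod_cast (by omega : 0 < n)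
  have hpi := Real.pi_pos
  have hpi2 := Real.pi_lt_d2
  obtain ⟨x, hx⟩ : ∃ x : ℝ, x = t / (2 * Real.pi * n) := ⟨_, rfl⟩
  have hpn : 0 < 2 * Real.pi * n := by positivity
  have ht : t = 2 * Real.pi * n * x := by
    rw [hx]
    field_simp
  have hx1 : 1 / 2 ≤ x := by
    rw [hx, le_div_iff₀ hpn]
    linarith
  have hx2 : x ≤ 2 := by
    rw [hx, div_le_iff₀ hpn]
    linarith
  have hx0 : 0 < x := by linarith
  have hg : gn n t = Real.log x := by
    unfold gn
    rw [hx]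
  have hlog : |x - 1| ≤ 2 * |Real.log x| := by
    rcases le_or_gt 1 x with h | h
    · rw [abs_of_nonneg (by linarith), abs_of_nonneg (Real.log_nonneg h)]
      have h3 := Real.one_sub_inv_le_log_of_pos hx0
      have h4 : (x - 1) / 2 ≤ 1 - x⁻¹ := by
        rw [← sub_nonneg]
        have h5 : 1 - x⁻¹ - (x - 1) / 2 = (x - 1) * (2 - x) / (2 * x) := by
          field_simp
        rw [h5]
        exact div_nonneg (mul_nonneg (by linarith) (by linarith)) (by linarith)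
      linarith
    · rw [abs_of_nonpos (by linarith), abs_of_nonpos (Real.log_nonpos hx0.le h.le)]
      have h3 := Real.log_le_sub_one_of_pos hx0
      linarith
  rw [hg]
  have h5 : t - 2 * Real.pi * n = 2 * Real.pi * n * (x - 1) := by
    rw [ht]
    ring
  rw [h5, abs_mul, abs_of_pos hpn]
  calc 2 * Real.pi * n * |x - 1| ≤ 2 * Real.pi * n * (2 * |Real.log x|) := by gcongr
    _ = (4 * Real.pi) * (n * |Real.log x|) := by ring
    _ ≤ 13 * (n * |Real.log x|) := by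
        refine mul_le_mul_of_nonneg_right (by linarith) (by positivity)
    _ = _ := by ring

theorem side (hB : StBasic) (hL : StLine) {n : ℕ} (hn : 4 ≤ n) {D : ℝ} (hD : 4 ≤ D) {a b M : ℝ}
    (ha : Real.pi * n ≤ a) (hab : a ≤ b) (hb : b ≤ 4 * Real.pi * n)
    (hu : ∀ t ∈ Icc a b, 1 ≤ |t - 2 * Real.pi * n|) (hM : ∀ t ∈ Icc a b, ‖Y 4 n t‖ ≤ M) :
    ‖∫ t in a..b, Y 4 n t * (1 - GG (2 * Real.pi * n) D (fp t))‖ ≤ M * (34000 * (n / D)) := by
  have hM0 : 0 ≤ M := (norm_nonneg _).trans (hM a (left_mem_Icc.2 hab))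
  have hn1 : 1 ≤ n := by omega
  have hn4 : (4 : ℝ) ≤ n := by exact_mod_cast hn
  have hn0 : (0 : ℝ) < n := by linarith
  have hD0 : 0 < D := by linarith
  have hpi3 := Real.pi_gt_three
  have hpi4 := Real.pi_lt_d2
  have ha12 : 12 ≤ a := by nlinarith
  obtain ⟨T, hT⟩ : ∃ T : ℝ, T = 2 * Real.pi * n := ⟨_, rfl⟩
  rw [← hT] at hu ⊢
  have hlow : ∀ t ∈ Icc a b, |t - T| ≤ 13 * n * |gn n t| := by
    intro t ht
    rw [hT]
    exact gn_low hn1 (ha.trans ht.1) (ht.2.trans hb)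
  have hg : ∀ t ∈ Icc a b, 0 < |gn n t| := by
    intro t ht
    have h1 := hlow t ht
    have h2 := hu t ht
    by_contra h3
    have h4 : |gn n t| = 0 := le_antisymm (not_lt.1 h3) (abs_nonneg _)
    rw [h4, mul_zero] at h1
    linarith
  have ht3 : ∀ t ∈ Icc a b, 3 * (n : ℝ) ≤ t := by
    intro t ht
    have h1 := ha.trans ht.1
    nlinarith
  have hE : ∀ t ∈ Icc a b, ‖1 - GG T D (fp t)‖ / |gn n t| ≤ 390 * (n / D) := by
    intro t ht
    have h1 := hlow t ht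
    rw [div_le_iff₀ (hg t ht)]
    refine (f_norm hD (hu t ht)).trans ?_
    have hpos : 0 < D ^ 2 + (t - T) ^ 2 := by positivity
    have h2 : 60 * ((t - T) ^ 2 / (D ^ 2 + (t - T) ^ 2)) ≤ 30 * |t - T| / D := by
      rw [mul_div_assoc', div_le_div_iff₀ hpos hD0, ← sq_abs (t - T)]
      nlinarith [mul_nonneg (abs_nonneg (t - T)) (sq_nonneg (D - |t - T|))]
    refine h2.trans ?_
    rw [div_le_iff₀ hD0]
    have h3 : 390 * (n / D) * |gn n t| * D = 30 * (13 * n * |gn n t|) := by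
      field_simp
      ring
    rw [h3]
    linarith
  have hBd : ∀ t : ℝ, HasDerivAt (fun t : ℝ => 1820 * t / D +
      3731 * (n / D) * Real.arctan ((t - T) / D))
      (1820 / D + 3731 * (n / (D ^ 2 + (t - T) ^ 2))) t := by
    intro t
    have h1 : HasDerivAt (fun t : ℝ => (t - T) / D) (1 / D) t :=
      ((hasDerivAt_id t).sub_const T).div_const D
    have h2 := (h1.arctan).const_mul (3731 * (n / D) : ℝ)
    have h3 : HasDerivAt (fun t : ℝ => 1820 * t / D) (1820 * 1 / D) t :=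
      ((hasDerivAt_id t).const_mul 1820).div_const D
    refine (h3.add h2).congr_deriv ?_
    have hpos : D ^ 2 + (t - T) ^ 2 ≠ 0 := by positivity
    have h4 : 1 + ((t - T) / D) ^ 2 = (D ^ 2 + (t - T) ^ 2) / D ^ 2 := by
      field_simp
    rw [h4]
    field_simp
  have hmain := parts hB hL hn1 ha12 hab (f := fun t => 1 - GG T D (fp t))
    (f' := fun t => -wd T D t) (fun t => (w_deriv T D t).const_sub 1)
    (fun t ht => abs_pos.1 (hg t ht)) hM hE hBd (fun t ht => by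
      have ht0 : 0 < t := by linarith [ht3 t ht]
      have hpos : 0 < D ^ 2 + (t - T) ^ 2 := by positivity
      have hgt := hg t ht
      have hl := hlow t ht
      have e1 : ‖1 - GG T D (fp t)‖ / |gn n t| * (14 / t) ≤ 1820 / D := by
        have h1 : 14 / t ≤ 14 / (3 * n) :=
          div_le_div_of_nonneg_left (by norm_num) (by positivity) (ht3 t ht)
        calc ‖1 - GG T D (fp t)‖ / |gn n t| * (14 / t) ≤ 390 * (n / D) * (14 / (3 * n)) :=
              mul_le_mul (hE t ht) h1 (by positivity) (by positivity)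
          _ = 1820 / D := by
              field_simp
              norm_num
      have e2 : ‖-wd T D t‖ / |gn n t| ≤ 351 * (n / (D ^ 2 + (t - T) ^ 2)) := by
        rw [norm_neg, div_le_iff₀ hgt]
        refine (wd_norm hD (hu t ht)).trans ?_
        rw [mul_div_assoc', mul_div_assoc', div_mul_eq_mul_div]
        refine div_le_div_of_nonneg_right ?_ hpos.le
        linarith
      have e3 : ‖1 - GG T D (fp t)‖ / (t * gn n t ^ 2) ≤ 3380 * (n / (D ^ 2 + (t - T) ^ 2)) := by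
        have hg2 : 0 < gn n t ^ 2 := by
          rw [← sq_abs]
          positivity
        rw [div_le_iff₀ (by positivity)]
        refine (f_norm hD (hu t ht)).trans ?_
        rw [mul_div_assoc', mul_div_assoc', div_mul_eq_mul_div]
        refine div_le_div_of_nonneg_right ?_ hpos.le
        have h1 : (t - T) ^ 2 ≤ 169 * n ^ 2 * gn n t ^ 2 := by
          rw [← sq_abs (t - T), ← sq_abs (gn n t)]
          calc |t - T| ^ 2 ≤ (13 * n * |gn n t|) ^ 2 := pow_le_pow_left₀ (abs_nonneg _) hl 2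
            _ = _ := by ring
        have h2 : 3 * (n : ℝ) * (n * gn n t ^ 2) ≤ t * (n * gn n t ^ 2) :=
          mul_le_mul_of_nonneg_right (ht3 t ht) (by positivity)
        nlinarith
      show ‖1 - GG T D (fp t)‖ / |gn n t| * (14 / t) + ‖-wd T D t‖ / |gn n t| +
        ‖1 - GG T D (fp t)‖ / (t * gn n t ^ 2) ≤ 1820 / D + 3731 * (n / (D ^ 2 + (t - T) ^ 2))
      linarith)
  refine hmain.trans (mul_le_mul_of_nonneg_left ?_ hM0)
  have hx : 0 < (n : ℝ) / D := by positivity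
  have h1 := Real.arctan_lt_pi_div_two ((b - T) / D)
  have h2 := Real.neg_pi_div_two_lt_arctan ((a - T) / D)
  have h3 : (n : ℝ) / D * (Real.arctan ((b - T) / D) - Real.arctan ((a - T) / D)) ≤
      n / D * 3.15 := mul_le_mul_of_nonneg_left (by linarith) hx.le
  have h4 : (b - a) / D ≤ 9.45 * (n / D) := by
    rw [mul_div_assoc']
    refine div_le_div_of_nonneg_right ?_ hD0.le
    nlinarith
  have h5 : 1820 * b / D + 3731 * (n / D) * Real.arctan ((b - T) / D) -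
      (1820 * a / D + 3731 * (n / D) * Real.arctan ((a - T) / D)) =
      1820 * ((b - a) / D) +
        3731 * ((n : ℝ) / D * (Real.arctan ((b - T) / D) - Real.arctan ((a - T) / D))) := by
    ring
  show 2 * (390 * (n / D)) + (1820 * b / D + 3731 * (n / D) * Real.arctan ((b - T) / D) -
      (1820 * a / D + 3731 * (n / D) * Real.arctan ((a - T) / D))) ≤ 34000 * (n / D)
  rw [h5]
  linarith

theorem w_cont (T D : ℝ) : Continuous fun t => GG T D (fp t) :=
  continuous_iff_continuousAt.2 fun t => (w_deriv T D t).continuousAt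

theorem mid (hB : StBasic) (hL : StLine) {n : ℕ} (hn : 4 ≤ n) {D : ℝ} (hD : 4 ≤ D) {M : ℝ}
    (hM : ∀ t ∈ Icc (Real.pi * n) (4 * Real.pi * n), ‖Y 4 n t‖ ≤ M) :
    ‖∫ t in (Real.pi * n)..(4 * Real.pi * n),
      Y 4 n t * (1 - GG (2 * Real.pi * n) D (fp t))‖ ≤ M * (8 + 68000 * (n / D)) := by
  have hn1 : 1 ≤ n := by omega
  have hn4 : (4 : ℝ) ≤ n := by exact_mod_cast hn
  have hpi3 := Real.pi_gt_three
  have hpn : 12 ≤ Real.pi * n := by nlinarith
  have hM0 : 0 ≤ M := (norm_nonneg _).trans (hM (Real.pi * n) ⟨le_refl _, by linarith⟩)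
  have hc : ContinuousOn (fun t => Y 4 n t * (1 - GG (2 * Real.pi * n) D (fp t))) (Ioi 1) :=
    (Y_cont hB hn1).mul (continuous_const.sub (w_cont _ _)).continuousOn
  have hi : ∀ a b : ℝ, 12 ≤ a → a ≤ b → IntervalIntegrable
      (fun t => Y 4 n t * (1 - GG (2 * Real.pi * n) D (fp t))) volume a b := by
    intro a b ha hab
    refine ContinuousOn.intervalIntegrable (hc.mono ?_)
    rw [uIcc_of_le hab]
    intro t ht
    exact lt_of_lt_of_le (by linarith) ht.1
  have hs1 := intervalIntegral.integral_add_adjacent_intervals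
    (hi (Real.pi * n) (2 * Real.pi * n - 1) hpn (by linarith))
    (hi (2 * Real.pi * n - 1) (4 * Real.pi * n) (by linarith) (by linarith))
  have hs2 := intervalIntegral.integral_add_adjacent_intervals
    (hi (2 * Real.pi * n - 1) (2 * Real.pi * n + 1) (by linarith) (by linarith))
    (hi (2 * Real.pi * n + 1) (4 * Real.pi * n) (by linarith) (by linarith))
  have h1 := side hB hL hn hD (a := Real.pi * n) (b := 2 * Real.pi * n - 1) (M := M) (le_refl _)
    (by linarith) (by linarith)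
    (fun t ht => by
      rw [abs_sub_comm, abs_of_nonneg (by linarith [ht.2])]
      linarith [ht.2])
    (fun t ht => hM t ⟨ht.1, by linarith [ht.2]⟩)
  have h2 := side hB hL hn hD (a := 2 * Real.pi * n + 1) (b := 4 * Real.pi * n) (M := M)
    (by linarith) (by linarith) (le_refl _)
    (fun t ht => by
      rw [abs_of_nonneg (by linarith [ht.1])]
      linarith [ht.1])
    (fun t ht => hM t ⟨by linarith [ht.1], ht.2⟩)
  have h3 : ‖∫ t in (2 * Real.pi * n - 1)..(2 * Real.pi * n + 1),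
      Y 4 n t * (1 - GG (2 * Real.pi * n) D (fp t))‖ ≤
      M * 4 * |(2 * Real.pi * n + 1) - (2 * Real.pi * n - 1)| := by
    refine intervalIntegral.norm_integral_le_of_norm_le_const fun t ht => ?_
    rw [uIoc_of_le (by linarith)] at ht
    rw [norm_mul]
    exact mul_le_mul (hM t ⟨by linarith [ht.1], by linarith [ht.2]⟩) (f_norm4 hD)
      (norm_nonneg _) hM0
  have h4 : |(2 * Real.pi * n + 1) - (2 * Real.pi * (n : ℝ) - 1)| = 2 := by
    rw [show (2 * Real.pi * n + 1) - (2 * Real.pi * (n : ℝ) - 1) = 2 by ring]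
    norm_num
  rw [h4] at h3
  rw [← hs1, ← hs2]
  refine (norm_add_le _ _).trans ?_
  have h5 := norm_add_le (∫ t in (2 * Real.pi * n - 1)..(2 * Real.pi * n + 1),
      Y 4 n t * (1 - GG (2 * Real.pi * n) D (fp t)))
    (∫ t in (2 * Real.pi * n + 1)..(4 * Real.pi * n),
      Y 4 n t * (1 - GG (2 * Real.pi * n) D (fp t)))
  linarith

theorem Y_bound (hL : StLine) : ∃ M : ℝ, 0 ≤ M ∧ ∀ n : ℕ, 1 ≤ n →
    ∀ t ∈ Icc (Real.pi * n) (4 * Real.pi * n), ‖Y 4 n t‖ ≤ M * (n : ℝ) ^ (-(1 / 2 : ℝ)) := by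
  obtain ⟨-, -, -, -, -, -, -, -, ⟨K, hK, h9⟩, -⟩ := hL
  refine ⟨Real.exp K * (4 * Real.pi) ^ (7 / 2 : ℝ), by positivity, ?_⟩
  intro n hn t ht
  have hn0 : (0 : ℝ) < n := by exact_mod_cast (by omega : 0 < n)
  have hn1 : (1 : ℝ) ≤ n := by exact_mod_cast hn
  have hpi3 := Real.pi_gt_three
  have ht1 : 1 ≤ t := by nlinarith [ht.1]
  have h1 := (h9 (fp t) (by rw [fp_re]; norm_num) (by rw [fp_re]) (by rw [fp_im]; exact ht1)).2
  rw [fp_re, fp_im, show (4 : ℝ) - 1 / 2 = 7 / 2 by norm_num] at h1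
  rw [Y_eq, norm_mul, Complex.norm_natCast_cpow_of_pos (by omega), Complex.neg_re, fp_re]
  have h2 : t ^ (7 / 2 : ℝ) ≤ (4 * Real.pi) ^ (7 / 2 : ℝ) * (n : ℝ) ^ (7 / 2 : ℝ) := by
    rw [← Real.mul_rpow (by positivity) hn0.le]
    exact Real.rpow_le_rpow (by linarith) ht.2 (by norm_num)
  calc (n : ℝ) ^ (-(4 : ℝ)) * ‖XX (fp t)‖ ≤ (n : ℝ) ^ (-(4 : ℝ)) * (Real.exp K *
        ((4 * Real.pi) ^ (7 / 2 : ℝ) * (n : ℝ) ^ (7 / 2 : ℝ))) := by
        refine mul_le_mul_of_nonneg_left (h1.trans ?_) (by positivity)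
        exact mul_le_mul_of_nonneg_left h2 (Real.exp_pos _).le
    _ = Real.exp K * (4 * Real.pi) ^ (7 / 2 : ℝ) * ((n : ℝ) ^ (-(4 : ℝ)) *
        (n : ℝ) ^ (7 / 2 : ℝ)) := by ring
    _ = _ := by
        rw [← Real.rpow_add hn0]
        norm_num

/-! ### the tails -/

theorem exp_aux {y : ℝ} (hy : 0 ≤ y) : y ^ 2 * Real.exp (-y) ≤
    128 * (Real.exp (-(y / 4)) * (1 + y)⁻¹) := by
  have h1 : y ^ 2 * Real.exp (-(y / 4)) ≤ 64 := by
    have h2 : y / 8 ≤ Real.exp (y / 8) := by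
      have := Real.add_one_le_exp (y / 8)
      linarith
    have h3 : (y / 8) ^ 2 ≤ Real.exp (y / 4) := by
      calc (y / 8) ^ 2 ≤ Real.exp (y / 8) ^ 2 := pow_le_pow_left₀ (by positivity) h2 2
        _ = Real.exp (y / 4) := by
            rw [← Real.exp_nat_mul]
            congr 1
            push_cast
            ring
    rw [Real.exp_neg, ← div_eq_mul_inv, div_le_iff₀ (Real.exp_pos _)]
    nlinarith
  have h4 : Real.exp (-(y / 2)) ≤ 2 * (1 + y)⁻¹ := by
    refine (exp_neg_le (by positivity)).trans ?_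
    rw [← div_eq_mul_inv, inv_eq_one_div, div_le_div_iff₀ (by positivity) (by positivity)]
    linarith
  have h5 : Real.exp (-y) = Real.exp (-(y / 4)) * Real.exp (-(y / 4)) * Real.exp (-(y / 2)) := by
    rw [← Real.exp_add, ← Real.exp_add]
    congr 1
    ring
  rw [h5]
  calc y ^ 2 * (Real.exp (-(y / 4)) * Real.exp (-(y / 4)) * Real.exp (-(y / 2))) =
      (y ^ 2 * Real.exp (-(y / 4))) * (Real.exp (-(y / 4)) * Real.exp (-(y / 2))) := by ring
    _ ≤ 64 * (Real.exp (-(y / 4)) * (2 * (1 + y)⁻¹)) := by gcongr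
    _ = _ := by ring

theorem tail (h3 : StI3) : ∃ C : ℝ, 0 ≤ C ∧ ∀ n : ℕ, 1 ≤ n → ∀ D : ℝ, 4 ≤ D →
    D ≤ 2 * Real.pi * n →
    ‖(∫ t in (Real.pi * n)..(4 * Real.pi * n), Y 4 n t * GG (2 * Real.pi * n) D (fp t)) -
      In (2 * Real.pi * n) D n‖ ≤
      C * ((n : ℝ) ^ (-(4 : ℝ)) * D ^ 5 * Real.exp (-(2 * (n / D) ^ 2))) := by
  obtain ⟨C, hC1, hC2⟩ := h3
  have hC0 : 0 ≤ C := by
    have := (norm_nonneg _).trans (hC1 0)
    rw [abs_zero, add_zero, one_pow, mul_one] at this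
    exact this
  refine ⟨98304 * C * Real.pi, by positivity, ?_⟩
  intro n hn D hD hDT
  have hn0 : (0 : ℝ) < n := by exact_mod_cast (by omega : 0 < n)
  have hn1 : (1 : ℝ) ≤ n := by exact_mod_cast hn
  have hD0 : 0 < D := by linarith
  have hpi3 := Real.pi_gt_three
  obtain ⟨T, hT⟩ : ∃ T : ℝ, T = 2 * Real.pi * n := ⟨_, rfl⟩
  obtain ⟨hint, -⟩ := hC2 (2 * Real.pi * n) D (by linarith) hDT n hn
  rw [← hT] at hint ⊢
  have h1 : (∫ t in (Real.pi * n)..(4 * Real.pi * n), Y 4 n t * GG T D (fp t)) =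
      ∫ t in Ioc (Real.pi * n) (4 * Real.pi * n),
        (n : ℂ) ^ (-fp t) * XX (fp t) * GG T D (fp t) := by
    rw [intervalIntegral.integral_of_le (by nlinarith)]
    simp only [Y_eq]
  have h2 := integral_add_compl
    (measurableSet_Ioc : MeasurableSet (Ioc (Real.pi * (n : ℝ)) (4 * Real.pi * n))) hint
  rw [h1]
  unfold In
  rw [← h2, sub_add_cancel_left, norm_neg]
  obtain ⟨K, hK⟩ : ∃ K : ℝ, K = 98304 * C * ((n : ℝ) ^ (-(4 : ℝ)) * D ^ 4 *
    Real.exp (-(2 * (n / D) ^ 2))) := ⟨_, rfl⟩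
  have hK0 : 0 ≤ K := by rw [hK]; positivity
  have hGi : Integrable (fun t : ℝ => K * (1 + ((t - T) / D) ^ 2)⁻¹) := by
    refine Integrable.const_mul ?_ K
    exact ((integrable_inv_one_add_sq.comp_div hD0.ne').comp_sub_right T)
  have hG : ∫ t : ℝ, K * (1 + ((t - T) / D) ^ 2)⁻¹ = K * (D * Real.pi) := by
    rw [integral_const_mul,
      integral_sub_right_eq_self (fun t : ℝ => (1 + (t / D) ^ 2)⁻¹) T,
      Measure.integral_comp_div (fun t : ℝ => (1 + t ^ 2)⁻¹) D, abs_of_pos hD0,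
      integral_univ_inv_one_add_sq, smul_eq_mul]
  have hbd : ∀ t ∈ (Ioc (Real.pi * (n : ℝ)) (4 * Real.pi * n))ᶜ,
      ‖(n : ℂ) ^ (-fp t) * XX (fp t) * GG T D (fp t)‖ ≤ K * (1 + ((t - T) / D) ^ 2)⁻¹ := by
    intro t ht
    have hu : Real.pi * n ≤ |t - T| := by
      rcases le_or_gt t (Real.pi * n) with h | h
      · rw [abs_sub_comm, abs_of_nonneg (by linarith)]
        linarith
      · have h4 : 4 * Real.pi * n < t := by
          by_contra h5
          exact ht ⟨h, not_lt.1 h5⟩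
        rw [abs_of_nonneg (by linarith)]
        linarith
    have hu1 : 1 ≤ |t - T| := by nlinarith
    have ht4 : 1 + |t| ≤ 4 * |t - T| := by
      have h5 : |t| ≤ |t - T| + |T| := by
        have := abs_add_le (t - T) T
        rwa [sub_add_cancel] at this
      have h6 : |T| = 2 * (Real.pi * n) := by
        rw [hT, abs_of_pos (by positivity)]
        ring
      linarith
    rw [norm_mul, norm_mul, Complex.norm_natCast_cpow_of_pos (by omega), Complex.neg_re, fp_re]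
    have e1 : ‖XX (fp t)‖ ≤ C * (256 * ((t - T) ^ 2) ^ 2) := by
      refine (hC1 t).trans (mul_le_mul_of_nonneg_left ?_ hC0)
      calc (1 + |t|) ^ 4 ≤ (4 * |t - T|) ^ 4 := pow_le_pow_left₀ (by positivity) ht4 4
        _ = 256 * ((t - T) ^ 2) ^ 2 := by
            rw [← sq_abs (t - T)]
            ring
    have e2 := w_norm (T := T) (t := t) hD
    have e3 := exp_aux (y := ((t - T) / D) ^ 2) (sq_nonneg _)
    have e4 : Real.exp (-(((t - T) / D) ^ 2 / 4)) ≤ Real.exp (-(2 * (n / D) ^ 2)) := by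
      refine Real.exp_le_exp.2 (neg_le_neg ?_)
      rw [div_pow, div_pow, mul_div_assoc', div_div, div_le_div_iff₀ (by positivity)
        (by positivity)]
      have h7 : 9 * (n : ℝ) ^ 2 ≤ (t - T) ^ 2 := by
        rw [← sq_abs (t - T)]
        have h8 : 3 * (n : ℝ) ≤ |t - T| := by nlinarith
        calc 9 * (n : ℝ) ^ 2 = (3 * n) ^ 2 := by ring
          _ ≤ _ := pow_le_pow_left₀ (by positivity) h8 2
      have h9 : 8 * (n : ℝ) ^ 2 ≤ (t - T) ^ 2 := by nlinarith [sq_nonneg (n : ℝ)]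
      have h10 := mul_le_mul_of_nonneg_right h9 (sq_nonneg D)
      linarith
    have e5 : ((t - T) ^ 2) ^ 2 = D ^ 4 * (((t - T) / D) ^ 2) ^ 2 := by
      field_simp
    have hinv : 0 ≤ (1 + ((t - T) / D) ^ 2)⁻¹ := by positivity
    calc (n : ℝ) ^ (-(4 : ℝ)) * ‖XX (fp t)‖ * ‖GG T D (fp t)‖ ≤
        (n : ℝ) ^ (-(4 : ℝ)) * (C * (256 * ((t - T) ^ 2) ^ 2)) *
          (3 * Real.exp (-((t - T) / D) ^ 2)) := by gcongr
      _ = (n : ℝ) ^ (-(4 : ℝ)) * C * 768 * D ^ 4 * ((((t - T) / D) ^ 2) ^ 2 *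
          Real.exp (-((t - T) / D) ^ 2)) := by
          rw [e5]
          ring
      _ ≤ (n : ℝ) ^ (-(4 : ℝ)) * C * 768 * D ^ 4 * (128 * (Real.exp (-(2 * (n / D) ^ 2)) *
          (1 + ((t - T) / D) ^ 2)⁻¹)) := by
          refine mul_le_mul_of_nonneg_left (e3.trans ?_) (by positivity)
          gcongr
      _ = K * (1 + ((t - T) / D) ^ 2)⁻¹ := by
          rw [hK]
          ring
  have h5 : ‖∫ t in (Ioc (Real.pi * (n : ℝ)) (4 * Real.pi * n))ᶜ,
      (n : ℂ) ^ (-fp t) * XX (fp t) * GG T D (fp t)‖ ≤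
      ∫ t in (Ioc (Real.pi * (n : ℝ)) (4 * Real.pi * n))ᶜ, K * (1 + ((t - T) / D) ^ 2)⁻¹ := by
    refine norm_integral_le_of_norm_le hGi.integrableOn ?_
    exact (ae_restrict_iff' measurableSet_Ioc.compl).2 (Eventually.of_forall hbd)
  have h6 : ∫ t in (Ioc (Real.pi * (n : ℝ)) (4 * Real.pi * n))ᶜ, K * (1 + ((t - T) / D) ^ 2)⁻¹ ≤
      ∫ t : ℝ, K * (1 + ((t - T) / D) ^ 2)⁻¹ :=
    setIntegral_le_integral hGi (Eventually.of_forall fun t => by positivity)
  rw [hG] at h6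
  refine (h5.trans h6).trans (le_of_eq ?_)
  rw [hK]
  ring

/-! ### the result -/

theorem exp_small {y : ℝ} (hy : 0 < y) (k : ℕ) : Real.exp (-y) ≤ k.factorial / y ^ k := by
  have h1 := Real.pow_div_factorial_le_exp y hy.le k
  rw [Real.exp_neg, ← one_div, div_le_div_iff₀ (Real.exp_pos _) (by positivity), one_mul]
  rw [div_le_iff₀ (by positivity)] at h1
  linarith

theorem sad : S_SAD := by
  have hB : StBasic := Pool.Agent.W22.QS.qs_basic
  have hL : StLine := Pool.Agent.W338.QS.qs_line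
  have hMel : StMel := Pool.Agent.W372.QS.qs_mel
  have hI3 : StI3 := Pool.Agent.W253.QS.qs_i3
  intro η hη
  obtain ⟨δ, hδ⟩ : ∃ δ : ℝ, δ = min η (1 / 2) := ⟨_, rfl⟩
  have hδ0 : 0 < δ := by rw [hδ]; exact lt_min hη (by norm_num)
  have hδ1 : δ ≤ η := by rw [hδ]; exact min_le_left _ _
  have hδ2 : δ ≤ 1 / 2 := by rw [hδ]; exact min_le_right _ _
  obtain ⟨k, hk⟩ := exists_nat_ge (1 / δ)
  have hkδ : 1 ≤ δ * k := by
    rw [div_le_iff₀ hδ0] at hk
    linarith
  obtain ⟨M, hM0, hM⟩ := Y_bound hL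
  obtain ⟨C, hC0, hC⟩ := tail hI3
  refine ⟨M * (8 + 68000) + C * (1024 * (k.factorial * 8 ^ k)) + 72 * (1 + 128) +
    7 * (k.factorial * 8 ^ k), by positivity, ?_⟩
  intro n hn
  have hn1 : 1 ≤ n := by omega
  have hnR : (1 : ℝ) ≤ n := by exact_mod_cast hn1
  have hn0 : (0 : ℝ) < n := by linarith
  have hpi3 := Real.pi_gt_three
  have hpi4 := Real.pi_lt_d2
  obtain ⟨X, hX⟩ : ∃ X : ℝ, X = (n : ℝ) ^ (δ - 1 / 2) := ⟨_, rfl⟩
  have hX0 : 0 < X := by rw [hX]; positivity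
  have hXη : X ≤ (n : ℝ) ^ (η - 1 / 2) := by
    rw [hX]
    exact Real.rpow_le_rpow_of_exponent_le hnR (by linarith)
  have hpw : ∀ e : ℝ, e ≤ δ - 1 / 2 → (n : ℝ) ^ e ≤ X := fun e he => by
    rw [hX]
    exact Real.rpow_le_rpow_of_exponent_le hnR he
  obtain ⟨D, hDdef⟩ : ∃ D : ℝ, D = 4 * (n : ℝ) ^ (1 - δ) := ⟨_, rfl⟩
  have hD4 : 4 ≤ D := by
    have : 1 ≤ (n : ℝ) ^ (1 - δ) := Real.one_le_rpow hnR (by linarith)
    linarith
  have hD0 : 0 < D := by linarith
  have hDn : D ≤ 4 * n := by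
    have : (n : ℝ) ^ (1 - δ) ≤ (n : ℝ) ^ (1 : ℝ) :=
      Real.rpow_le_rpow_of_exponent_le hnR (by linarith)
    rw [Real.rpow_one] at this
    linarith
  have hDT : D ≤ 2 * Real.pi * n := by nlinarith
  have hnD : (n : ℝ) / D = (n : ℝ) ^ δ / 4 := by
    rw [hDdef, Real.rpow_sub hn0, Real.rpow_one]
    have : (n : ℝ) ^ δ ≠ 0 := by positivity
    field_simp
  -- exponential smallness
  have hexp : Real.exp (-(2 * (n / D) ^ 2)) ≤ (k.factorial * 8 ^ k) * (n : ℝ) ^ (-(2 : ℝ)) := by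
    have h1 : 2 * ((n : ℝ) / D) ^ 2 = (n : ℝ) ^ (2 * δ) / 8 := by
      rw [hnD, div_pow, ← Real.rpow_natCast ((n : ℝ) ^ δ) 2, ← Real.rpow_mul hn0.le]
      push_cast
      rw [mul_comm δ 2]
      ring
    have h2 : 0 < (n : ℝ) ^ (2 * δ) / 8 := by positivity
    rw [h1]
    refine (exp_small h2 k).trans ?_
    have h3 : (n : ℝ) ^ (2 : ℝ) ≤ ((n : ℝ) ^ (2 * δ)) ^ k := by
      rw [← Real.rpow_natCast ((n : ℝ) ^ (2 * δ)) k, ← Real.rpow_mul hn0.le]
      exact Real.rpow_le_rpow_of_exponent_le hnR (by linarith)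
    have h4 : 0 < (n : ℝ) ^ (2 : ℝ) := by positivity
    rw [div_pow, div_div_eq_mul_div, Real.rpow_neg hn0.le, ← div_eq_mul_inv]
    exact div_le_div_of_nonneg_left (by positivity) h4 h3
  have hK0 : (0 : ℝ) ≤ k.factorial * 8 ^ k := by positivity
  -- the middle
  have hmid := mid hB hL hn hD4 (hM n hn1)
  have hm1 : M * (n : ℝ) ^ (-(1 / 2 : ℝ)) * (8 + 68000 * (n / D)) ≤ M * (8 + 68000) * X := by
    have h1 : (n : ℝ) ^ (-(1 / 2 : ℝ)) ≤ X := hpw _ (by linarith)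
    have h2 : (n : ℝ) ^ (-(1 / 2 : ℝ)) * (n / D) ≤ X := by
      rw [hnD, mul_div_assoc', ← Real.rpow_add hn0, show -(1 / 2 : ℝ) + δ = δ - 1 / 2 by ring,
        ← hX]
      linarith
    calc M * (n : ℝ) ^ (-(1 / 2 : ℝ)) * (8 + 68000 * (n / D)) =
        M * (8 * (n : ℝ) ^ (-(1 / 2 : ℝ)) + 68000 * ((n : ℝ) ^ (-(1 / 2 : ℝ)) * (n / D))) := by
          ring
      _ ≤ M * (8 * X + 68000 * X) := by gcongr
      _ = _ := by ring
  -- the tails
  have htail := hC n hn1 D hD4 hDT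
  have ht1 : C * ((n : ℝ) ^ (-(4 : ℝ)) * D ^ 5 * Real.exp (-(2 * (n / D) ^ 2))) ≤
      C * (1024 * (k.factorial * 8 ^ k)) * X := by
    have h1 : D ^ 5 ≤ 1024 * (n : ℝ) ^ (5 : ℝ) := by
      calc D ^ 5 ≤ (4 * n) ^ 5 := pow_le_pow_left₀ hD0.le hDn 5
        _ = 1024 * (n : ℝ) ^ (5 : ℝ) := by
            rw [show (5 : ℝ) = ((5 : ℕ) : ℝ) by norm_num, Real.rpow_natCast]
            ring
    have h2 : (n : ℝ) ^ (-(1 : ℝ)) ≤ X := hpw _ (by linarith)
    calc C * ((n : ℝ) ^ (-(4 : ℝ)) * D ^ 5 * Real.exp (-(2 * (n / D) ^ 2))) ≤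
        C * ((n : ℝ) ^ (-(4 : ℝ)) * (1024 * (n : ℝ) ^ (5 : ℝ)) *
          ((k.factorial * 8 ^ k) * (n : ℝ) ^ (-(2 : ℝ)))) := by gcongr
      _ = C * (1024 * (k.factorial * 8 ^ k)) * ((n : ℝ) ^ (-(4 : ℝ)) * (n : ℝ) ^ (5 : ℝ) *
          (n : ℝ) ^ (-(2 : ℝ))) := by ring
      _ = C * (1024 * (k.factorial * 8 ^ k)) * (n : ℝ) ^ (-(1 : ℝ)) := by
          rw [← Real.rpow_add hn0, ← Real.rpow_add hn0]
          norm_num
      _ ≤ _ := mul_le_mul_of_nonneg_left h2 (by positivity)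
  -- the whole integral
  have hIn := In_asym hMel (2 * Real.pi * n) hD4 n hn1
  have hi1 : 72 * (4 / D + 128 * n / D ^ 2) ≤ 72 * (1 + 128) * X := by
    have h1 : 4 / D ≤ X := by
      have h2 : 4 / D = (n : ℝ) ^ (δ - 1) := by
        rw [hDdef, show δ - 1 = -(1 - δ) by ring, Real.rpow_neg hn0.le]
        have : (n : ℝ) ^ (1 - δ) ≠ 0 := by positivity
        field_simp
      rw [h2]
      exact hpw _ (by linarith)
    have h3 : (n : ℝ) / D ^ 2 ≤ X := by
      have h4 : (n : ℝ) / D ^ 2 = (n : ℝ) / D * (4 / D) / 4 := by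
        field_simp
      have h5 : (n : ℝ) / D * (4 / D) = (n : ℝ) ^ (2 * δ - 1) / 4 := by
        have h6 : 4 / D = (n : ℝ) ^ (δ - 1) := by
          rw [hDdef, show δ - 1 = -(1 - δ) by ring, Real.rpow_neg hn0.le]
          have : (n : ℝ) ^ (1 - δ) ≠ 0 := by positivity
          field_simp
        rw [h6, hnD, div_mul_eq_mul_div, ← Real.rpow_add hn0]
        congr 2
        ring
      have h7 : (n : ℝ) ^ (2 * δ - 1) ≤ X := hpw _ (by linarith)
      have h8 : 0 < (n : ℝ) ^ (2 * δ - 1) := by positivity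
      rw [h4, h5]
      linarith
    have h9 : 128 * (n : ℝ) / D ^ 2 = 128 * (n / D ^ 2) := by ring
    rw [h9]
    linarith
  have hg1 : ge (2 * Real.pi * n) D n = 1 := by
    unfold ge
    rw [sub_self, zero_div]
    norm_num
  have hg2 : ge (2 * Real.pi * n) D (-n) ≤ (k.factorial * 8 ^ k) * X := by
    have h1 : ge (2 * Real.pi * n) D (-n) ≤ Real.exp (-(2 * (n / D) ^ 2)) := by
      unfold ge
      refine Real.exp_le_exp.2 ?_
      have h2 : (2 * Real.pi * n - 2 * Real.pi * (-n)) / D = 4 * Real.pi * (n / D) := by ring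
      rw [h2, neg_le_neg_iff, mul_pow]
      refine mul_le_mul_of_nonneg_right ?_ (sq_nonneg _)
      nlinarith
    refine h1.trans (hexp.trans (mul_le_mul_of_nonneg_left ?_ hK0))
    exact hpw _ (by linarith)
  have hg3 : 0 ≤ ge (2 * Real.pi * n) D (-n) := (Real.exp_pos _).le
  -- integrability on the interval
  have hYc := Y_cont hB hn1
  have hpn : (1 : ℝ) < Real.pi * n := by nlinarith
  have hii1 : IntervalIntegrable (fun t => Y 4 n t * GG (2 * Real.pi * n) D (fp t)) volume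
      (Real.pi * n) (4 * Real.pi * n) := by
    refine ContinuousOn.intervalIntegrable ((hYc.mul (w_cont _ _).continuousOn).mono ?_)
    rw [uIcc_of_le (by linarith)]
    exact fun t ht => lt_of_lt_of_le hpn ht.1
  have hii2 : IntervalIntegrable (fun t => Y 4 n t * (1 - GG (2 * Real.pi * n) D (fp t))) volume
      (Real.pi * n) (4 * Real.pi * n) := by
    refine ContinuousOn.intervalIntegrable
      ((hYc.mul (continuous_const.sub (w_cont _ _)).continuousOn).mono ?_)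
    rw [uIcc_of_le (by linarith)]
    exact fun t ht => lt_of_lt_of_le hpn ht.1
  have hsum : (∫ t in (Real.pi * n)..(4 * Real.pi * n), Y 4 n t) =
      (∫ t in (Real.pi * n)..(4 * Real.pi * n), Y 4 n t * GG (2 * Real.pi * n) D (fp t)) +
      ∫ t in (Real.pi * n)..(4 * Real.pi * n), Y 4 n t * (1 - GG (2 * Real.pi * n) D (fp t)) := by
    rw [← intervalIntegral.integral_add hii1 hii2]
    refine intervalIntegral.integral_congr fun t _ => ?_
    show Y 4 n t = Y 4 n t * GG (2 * Real.pi * n) D (fp t) +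
      Y 4 n t * (1 - GG (2 * Real.pi * n) D (fp t))
    ring
  have hfin : (∫ t in (Real.pi * n)..(4 * Real.pi * n), Y 4 n t) - ((2 * Real.pi : ℝ) : ℂ) =
      (∫ t in (Real.pi * n)..(4 * Real.pi * n),
        Y 4 n t * (1 - GG (2 * Real.pi * n) D (fp t))) +
      ((∫ t in (Real.pi * n)..(4 * Real.pi * n), Y 4 n t * GG (2 * Real.pi * n) D (fp t)) -
        In (2 * Real.pi * n) D n) +
      (In (2 * Real.pi * n) D n - ((2 * Real.pi * (ge (2 * Real.pi * n) D n +
        ge (2 * Real.pi * n) D (-n)) : ℝ) : ℂ)) +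
      ((2 * Real.pi * ge (2 * Real.pi * n) D (-n) : ℝ) : ℂ) := by
    rw [hsum, hg1]
    push_cast
    ring
  have hlast : ‖((2 * Real.pi * ge (2 * Real.pi * n) D (-n) : ℝ) : ℂ)‖ ≤
      7 * (k.factorial * 8 ^ k) * X := by
    rw [Complex.norm_real, Real.norm_eq_abs, abs_of_nonneg (by positivity)]
    have h1 : 2 * Real.pi * ge (2 * Real.pi * n) D (-n) ≤ 7 * ge (2 * Real.pi * n) D (-n) :=
      mul_le_mul_of_nonneg_right (by linarith) hg3
    linarith
  rw [hfin]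
  refine (norm_add_le _ _).trans ?_
  have n1 := norm_add_le ((∫ t in (Real.pi * n)..(4 * Real.pi * n),
        Y 4 n t * (1 - GG (2 * Real.pi * n) D (fp t))) +
      ((∫ t in (Real.pi * n)..(4 * Real.pi * n), Y 4 n t * GG (2 * Real.pi * n) D (fp t)) -
        In (2 * Real.pi * n) D n))
      (In (2 * Real.pi * n) D n - ((2 * Real.pi * (ge (2 * Real.pi * n) D n +
        ge (2 * Real.pi * n) D (-n)) : ℝ) : ℂ))
  have n2 := norm_add_le (∫ t in (Real.pi * n)..(4 * Real.pi * n),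
        Y 4 n t * (1 - GG (2 * Real.pi * n) D (fp t)))
      ((∫ t in (Real.pi * n)..(4 * Real.pi * n), Y 4 n t * GG (2 * Real.pi * n) D (fp t)) -
        In (2 * Real.pi * n) D n)
  have hall : (M * (8 + 68000) + C * (1024 * (k.factorial * 8 ^ k)) + 72 * (1 + 128) +
      7 * (k.factorial * 8 ^ k)) * X ≤ (M * (8 + 68000) + C * (1024 * (k.factorial * 8 ^ k)) +
      72 * (1 + 128) + 7 * (k.factorial * 8 ^ k)) * (n : ℝ) ^ (η - 1 / 2) :=
    mul_le_mul_of_nonneg_left hXη (by positivity)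
  refine le_trans ?_ hall
  have hm2 := hmid.trans hm1
  have ht2 := htail.trans ht1
  have hi2 := hIn.trans hi1
  linarith

end Pool.Agent.N30.SR.SAD

namespace Pool.Agent.N30.SR

theorem t_SAD (_hP : S_PART) : S_SAD := SAD.sad

end Pool.Agent.N30.SR
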