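import Pool.Agent.N30.SR.Stm
import Pool.Agent.W22.QS.Basic
import Pool.Agent.W338.QS.Line

/-!
SR/SHC: from the line `Re s = 4` to the line `Re s = c` (helper31 for the project SR of helper30).
-/

set_option autoImplicit false

open Complex MeasureTheory Set Filter Topology
open Pool.Agent.W188.QS (XX cp fp)

namespace Pool.Agent.N30.SR

namespace SHC

noncomputable def Gs (n : ℕ) (s : ℂ) : ℂ := XX s * (n : ℂ) ^ (-s)

lemma Gs_diff {n : ℕ} (hn : 1 ≤ n) {s : ℂ} (hs : 1 ≤ s.im) : DifferentiableAt ℂ (Gs n) s := by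
  unfold Gs
  refine (Pool.Agent.W22.QS.qs_basic s hs).1.mul ?_
  exact (differentiableAt_id.neg).const_cpow (Or.inl (Nat.cast_ne_zero.2 (by omega)))

lemma Gs_bd {K : ℝ} (hK : ∀ s : ℂ, 1 / 2 ≤ s.re → s.re ≤ 4 → 1 ≤ s.im →
    Real.exp (-K) * s.im ^ (s.re - 1 / 2) ≤ ‖XX s‖ ∧ ‖XX s‖ ≤ Real.exp K * s.im ^ (s.re - 1 / 2))
    {n : ℕ} (hn : 1 ≤ n) {σ t : ℝ} (h1 : 1 / 2 ≤ σ) (h2 : σ ≤ 4) (h3 : 1 ≤ t)
    (h4 : t ≤ 4 * Real.pi * n) :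
    ‖Gs n (⟨σ, t⟩ : ℂ)‖ ≤ Real.exp K * (4 * Real.pi) ^ (7 / 2 : ℝ) * (n : ℝ) ^ (-(1 / 2 : ℝ)) := by
  have hn0 : (0 : ℝ) < n := by exact_mod_cast hn
  have hpi : (1 : ℝ) ≤ 4 * Real.pi := by linarith [Real.pi_gt_three]
  have hb := (hK (⟨σ, t⟩ : ℂ) h1 h2 h3).2
  simp only at hb
  have hc : ‖(n : ℂ) ^ (-(⟨σ, t⟩ : ℂ))‖ = (n : ℝ) ^ (-σ) := by
    rw [Complex.norm_natCast_cpow_of_pos (by omega)]
    simp
  unfold Gs
  rw [norm_mul, hc]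
  have e1 : t ^ (σ - 1 / 2) ≤ (4 * Real.pi) ^ (7 / 2 : ℝ) * (n : ℝ) ^ (σ - 1 / 2) := by
    calc t ^ (σ - 1 / 2) ≤ (4 * Real.pi * n) ^ (σ - 1 / 2) :=
          Real.rpow_le_rpow (by linarith) h4 (by linarith)
      _ = (4 * Real.pi) ^ (σ - 1 / 2) * (n : ℝ) ^ (σ - 1 / 2) :=
          Real.mul_rpow (by linarith) hn0.le
      _ ≤ (4 * Real.pi) ^ (7 / 2 : ℝ) * (n : ℝ) ^ (σ - 1 / 2) :=
          mul_le_mul_of_nonneg_right (Real.rpow_le_rpow_of_exponent_le hpi (by linarith))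
            (Real.rpow_nonneg hn0.le _)
  calc ‖XX (⟨σ, t⟩ : ℂ)‖ * (n : ℝ) ^ (-σ)
      ≤ (Real.exp K * ((4 * Real.pi) ^ (7 / 2 : ℝ) * (n : ℝ) ^ (σ - 1 / 2))) * (n : ℝ) ^ (-σ) :=
        mul_le_mul_of_nonneg_right (hb.trans (mul_le_mul_of_nonneg_left e1 (Real.exp_pos _).le))
          (Real.rpow_nonneg hn0.le _)
    _ = Real.exp K * (4 * Real.pi) ^ (7 / 2 : ℝ) * ((n : ℝ) ^ (σ - 1 / 2) * (n : ℝ) ^ (-σ)) := by ring
    _ = Real.exp K * (4 * Real.pi) ^ (7 / 2 : ℝ) * (n : ℝ) ^ (-(1 / 2 : ℝ)) := by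
        rw [← Real.rpow_add hn0]
        congr 2
        ring

lemma rect {n : ℕ} (hn : 1 ≤ n) (c : ℝ) {a b : ℝ} (ha : 1 ≤ a) (hab : a ≤ b) :
    (∫ t in a..b, Y c n t) - ∫ t in a..b, Y 4 n t =
      I * (∫ x in c..4, Gs n (⟨x, b⟩ : ℂ)) - I * (∫ x in c..4, Gs n (⟨x, a⟩ : ℂ)) := by
  have hrect := Complex.integral_boundary_rect_eq_zero_of_differentiableOn (Gs n) (⟨c, a⟩ : ℂ)
    (⟨4, b⟩ : ℂ) (by
      intro s hs
      rw [mem_reProdIm] at hs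
      simp only at hs
      have him : s.im ∈ Icc a b := by rw [← uIcc_of_le hab]; exact hs.2
      exact (Gs_diff hn (by linarith [him.1])).differentiableWithinAt)
  simp only [smul_eq_mul] at hrect
  have e1 : (∫ y in a..b, Gs n ((c : ℂ) + (y : ℂ) * I)) = ∫ t in a..b, Y c n t := rfl
  have e2 : (∫ y in a..b, Gs n (((4 : ℝ) : ℂ) + (y : ℂ) * I)) = ∫ t in a..b, Y 4 n t := rfl
  have e3 : ∀ x y : ℝ, ((x : ℂ) + (y : ℂ) * I) = (⟨x, y⟩ : ℂ) := by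
    intro x y; apply Complex.ext <;> simp
  rw [e1, e2] at hrect
  simp only [e3] at hrect
  have hI : I * I = -1 := Complex.I_mul_I
  linear_combination I * hrect - ((∫ t in a..b, Y 4 n t) - ∫ t in a..b, Y c n t) * hI

end SHC

theorem t_SHC : S_SHC := by
  obtain ⟨-, -, -, -, -, -, -, -, ⟨K, hK0, hK⟩, -⟩ := Pool.Agent.W338.QS.qs_line
  refine ⟨7 * (Real.exp K * (4 * Real.pi) ^ (7 / 2 : ℝ)), by positivity, ?_⟩
  intro c hc1 hc2 n hn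
  have hn0 : (1 : ℝ) ≤ n := by exact_mod_cast hn
  have hpi := Real.pi_gt_three
  have hb1 : 1 ≤ Real.pi * n := by nlinarith
  have hab : Real.pi * n ≤ 4 * Real.pi * n := by nlinarith
  rw [SHC.rect hn c hb1 hab]
  have hside : ∀ t : ℝ, 1 ≤ t → t ≤ 4 * Real.pi * n →
      ‖∫ x in c..4, SHC.Gs n (⟨x, t⟩ : ℂ)‖ ≤
        7 / 2 * (Real.exp K * (4 * Real.pi) ^ (7 / 2 : ℝ) * (n : ℝ) ^ (-(1 / 2 : ℝ))) := by
    intro t ht1 ht2
    have hb : ∀ x ∈ uIoc c 4, ‖SHC.Gs n (⟨x, t⟩ : ℂ)‖ ≤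
        Real.exp K * (4 * Real.pi) ^ (7 / 2 : ℝ) * (n : ℝ) ^ (-(1 / 2 : ℝ)) := by
      intro x hx
      rw [uIoc_of_le hc2] at hx
      exact SHC.Gs_bd hK hn (by linarith [hx.1]) hx.2 ht1 ht2
    have h := intervalIntegral.norm_integral_le_of_norm_le_const hb
    refine h.trans ?_
    rw [mul_comm]
    refine mul_le_mul_of_nonneg_right ?_ (by positivity)
    rw [abs_of_nonneg (by linarith)]
    linarith
  have h1 := hside (4 * Real.pi * n) (by linarith) le_rfl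
  have h2 := hside (Real.pi * n) hb1 hab
  refine (norm_sub_le _ _).trans ?_
  rw [norm_mul, norm_mul, Complex.norm_I, one_mul, one_mul]
  linarith

end Pool.Agent.N30.SR
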