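import Pool.Agent.N30.SR.Mc

set_option autoImplicit false

/-! Assembly. -/

open Complex MeasureTheory Set Filter Topology Polynomial

namespace Pool.Agent.N30.SR

open Pool.Agent.W188.QS Pool.Agent.N30.HM Pool.Agent.N30.MZ Pool.Agent.N30.OD

/-- `f(T) = O(T^(θ+ε))` for all `ε > 0` -/
def BO (θ : ℝ) (f : ℝ → ℂ) : Prop := ∀ ε : ℝ, 0 < ε → ∃ C T₀ : ℝ, ∀ T : ℝ, T₀ ≤ T → ‖f T‖ ≤ C * T ^ (θ + ε)

lemma BO.add {θ : ℝ} {f g : ℝ → ℂ} (hf : BO θ f) (hg : BO θ g) : BO θ (fun T => f T + g T) := by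
  intro ε hε
  obtain ⟨C1, T1, h1⟩ := hf ε hε
  obtain ⟨C2, T2, h2⟩ := hg ε hε
  refine ⟨C1 + C2, max T1 T2, fun T hT => ?_⟩
  refine (norm_add_le _ _).trans ?_
  rw [add_mul]
  exact add_le_add (h1 T ((le_max_left _ _).trans hT)) (h2 T ((le_max_right _ _).trans hT))

lemma BO.neg {θ : ℝ} {f : ℝ → ℂ} (hf : BO θ f) : BO θ (fun T => - f T) := by
  intro ε hε
  obtain ⟨C1, T1, h1⟩ := hf ε hε
  exact ⟨C1, T1, fun T hT => by rw [norm_neg]; exact h1 T hT⟩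

lemma BO.congr {θ : ℝ} {f g : ℝ → ℂ} (hf : BO θ f) (h : ∀ T, f T = g T) : BO θ g := by
  have : f = g := funext h
  rwa [← this]

lemma BO.mono {θ θ' : ℝ} (hθ : θ ≤ θ') {f : ℝ → ℂ} (hf : BO θ f) : BO θ' f := by
  intro ε hε
  obtain ⟨C1, T1, h1⟩ := hf ε hε
  refine ⟨|C1|, max T1 1, fun T hT => ?_⟩
  have hT1 : 1 ≤ T := (le_max_right _ _).trans hT
  refine (h1 T ((le_max_left _ _).trans hT)).trans ?_
  calc C1 * T ^ (θ + ε) ≤ |C1| * T ^ (θ + ε) := mul_le_mul_of_nonneg_right (le_abs_self _) (by positivity)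
    _ ≤ |C1| * T ^ (θ' + ε) := by
      apply mul_le_mul_of_nonneg_left _ (abs_nonneg _)
      exact Real.rpow_le_rpow_of_exponent_le hT1 (by linarith)

lemma Expo_mono {a b : ℝ} (hab : a ≤ b) (H : Expo a) : Expo b := by
  intro ε hε
  obtain ⟨C1, T1, h1⟩ := H ε hε
  refine ⟨|C1|, max T1 1, fun T hT => ?_⟩
  have hT1 : 1 ≤ T := (le_max_right _ _).trans hT
  refine (h1 T ((le_max_left _ _).trans hT)).trans ?_
  calc C1 * T ^ (a + ε) ≤ |C1| * T ^ (a + ε) := mul_le_mul_of_nonneg_right (le_abs_self _) (by positivity)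
    _ ≤ |C1| * T ^ (b + ε) := by
      apply mul_le_mul_of_nonneg_left _ (abs_nonneg _)
      exact Real.rpow_le_rpow_of_exponent_le hT1 (by linarith)

/-- the arithmetic remainder of the mixed moment -/
noncomputable def RA (K : ℕ) (T : ℝ) : ℂ := AA K (K - 2) T - ((2 * Real.pi * DD K (T / (2 * Real.pi)) : ℝ) : ℂ)

/-- the polynomial remainder of the mixed moment -/
noncomputable def RP (P : ℝ[X]) (K : ℕ) (T : ℝ) : ℂ :=
  AA K (K - 2) T - ((T * P.eval (Real.log (T / (2 * Real.pi))) : ℝ) : ℂ)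

/-- the remainder in the divisor problem -/
noncomputable def RD (P : ℝ[X]) (K : ℕ) (y : ℝ) : ℂ := ((ER K P y : ℝ) : ℂ)

lemma RP_eq (P : ℝ[X]) (K : ℕ) (T : ℝ) : RP P K T = RA K T + ((2 * Real.pi : ℝ) : ℂ) * RD P K (T / (2 * Real.pi)) := by
  have hp : (2 * Real.pi : ℝ) ≠ 0 := by have := Real.pi_pos; positivity
  unfold RP RA RD ER
  have e : (2 * Real.pi * DD K (T / (2 * Real.pi)) : ℝ) - 2 * Real.pi * (DD K (T / (2 * Real.pi)) -
      T / (2 * Real.pi) * P.eval (Real.log (T / (2 * Real.pi)))) = T * P.eval (Real.log (T / (2 * Real.pi))) := by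
    field_simp
    ring
  have e2 := congrArg (fun x : ℝ => (x : ℂ)) e
  push_cast at e2 ⊢
  linear_combination e2

/-- change of scale -/
lemma BO.scale {θ c : ℝ} (hθ : 0 ≤ θ) (hc : 0 < c) {f : ℝ → ℂ} (hf : BO θ f) (a : ℂ) : BO θ (fun T => a * f (T / c)) := by
  intro ε hε
  obtain ⟨C1, T1, h1⟩ := hf ε hε
  refine ⟨‖a‖ * (|C1| * (1 / c) ^ (θ + ε)), max (T1 * c) 1, fun T hT => ?_⟩
  have hT1 : 1 ≤ T := (le_max_right _ _).trans hT
  have h2 := h1 (T / c) (by rw [le_div_iff₀ hc]; exact (le_max_left _ _).trans hT)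
  rw [norm_mul]
  have h3 : C1 * (T / c) ^ (θ + ε) ≤ |C1| * ((1 / c) ^ (θ + ε) * T ^ (θ + ε)) := by
    rw [← Real.mul_rpow (by positivity) (by linarith), show 1 / c * T = T / c by ring]
    exact mul_le_mul_of_nonneg_right (le_abs_self _) (by positivity)
  calc ‖a‖ * ‖f (T / c)‖ ≤ ‖a‖ * (|C1| * ((1 / c) ^ (θ + ε) * T ^ (θ + ε))) :=
        mul_le_mul_of_nonneg_left (h2.trans h3) (norm_nonneg _)
    _ = _ := by ring

section main

variable (hV : S_CVX) (hS : S_SUM) (h1 : S_INV) (h2 : S_MOVE) (h3 : S_EST) (h4 : S_MON)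

include hV hS in
/-- (a) -/
theorem main_a {K : ℕ} (hK : 2 ≤ K) {θ : ℝ} (hθ : 1 / 2 ≤ θ) : BO θ (RA K) ↔ Expo (θ / K) := by
  constructor
  · intro H
    exact lower_sr hK (by linarith) H
  · intro H ε hε
    exact upper_sr hV hS hK hθ H hε

include hV hS in
/-- (b) -/
theorem main_b {K : ℕ} (hK : 2 ≤ K) {θ : ℝ} (hθ : 1 / 2 ≤ θ) (P : ℝ[X]) :
    BO θ (RP P K) ↔ Expo (θ / K) ∧ BO θ (RD P K) := by
  have hp := Real.pi_pos
  have hp2 : ((2 * Real.pi : ℝ) : ℂ) ≠ 0 := by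
    rw [Complex.ofReal_ne_zero]; positivity
  constructor
  · intro H
    have hg : Expo (θ / K) := lower_poly hK (by linarith) P H
    refine ⟨hg, ?_⟩
    have ha := (main_a hV hS hK hθ).2 hg
    have h5 : BO θ (fun T => ((2 * Real.pi : ℝ) : ℂ) * RD P K (T / (2 * Real.pi))) :=
      (H.add ha.neg).congr fun T => by rw [RP_eq]; ring
    have h6 := h5.scale (c := 1 / (2 * Real.pi)) (by linarith) (by positivity) (((2 * Real.pi : ℝ) : ℂ)⁻¹)
    refine h6.congr fun T => ?_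
    rw [← mul_assoc, inv_mul_cancel₀ hp2, one_mul]
    congr 1
    field_simp
  · rintro ⟨hg, hd⟩
    have ha := (main_a hV hS hK hθ).2 hg
    have h6 := hd.scale (c := 2 * Real.pi) (by linarith) (by positivity) ((2 * Real.pi : ℝ) : ℂ)
    exact (ha.add h6).congr fun T => (RP_eq P K T).symm

lemma RD_of {K : ℕ} {P : ℝ[X]} (H : ∀ ε : ℝ, 0 < ε → ∃ C : ℝ, 0 ≤ C ∧ ∀ x : ℝ, 1 ≤ x → |ER K P x| ≤ C * x ^ (1 / 2 + ε)) :
    BO (1 / 2) (RD P K) := by
  intro ε hε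
  obtain ⟨C, -, h⟩ := H ε hε
  refine ⟨C, 1, fun T hT => ?_⟩
  unfold RD
  rw [Complex.norm_real, Real.norm_eq_abs]
  exact h T hT

/-- `P` is the polynomial of the divisor problem -/
def IsP (K : ℕ) (P : ℝ[X]) : Prop := P.natDegree = K - 1 ∧ P.leadingCoeff = 1 / ((K - 1).factorial : ℝ) ∧
  ∃ δ : ℝ, 0 < δ ∧ δ < 1 / 2 ∧ Sav K P δ

lemma exP (K : ℕ) (hK : 2 ≤ K) : ∃ P : ℝ[X], IsP K P := by
  obtain ⟨P, hd, hc, C, δ, hC, hδ, h⟩ := div_asym (K - 1) (by omega)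
  have e : K - 1 + 1 = K := by omega
  rw [e] at h
  have hf : (0 : ℝ) < ((K - 1).factorial : ℝ) := by exact_mod_cast Nat.factorial_pos _
  have hdeg : P.natDegree = K - 1 := by
    apply le_antisymm hd
    apply le_natDegree_of_ne_zero
    rw [hc]
    positivity
  refine ⟨P, hdeg, ?_, min δ (1 / 4), lt_min hδ (by norm_num), lt_of_le_of_lt (min_le_right _ _) (by norm_num), C, fun x hx => ?_⟩
  · rw [leadingCoeff, hdeg, hc]
  · have e2 : ER K P x = Pool.Agent.TH935.LP.SD K ⌊x⌋₊ - x * P.eval (Real.log x) := rfl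
    rw [e2]
    refine (h x hx).trans ?_
    apply mul_le_mul_of_nonneg_left _ hC
    apply Real.rpow_le_rpow_of_exponent_le hx
    linarith [min_le_left δ (1 / 4)]

include h1 h2 h3 h4 in
/-- the divisor problem for `K ≤ 4` -/
theorem div_four {K : ℕ} (hK : 2 ≤ K) (hK4 : K ≤ 4) {P : ℝ[X]} (hP : IsP K P) : BO (1 / 2) (RD P K) := by
  obtain ⟨-, -, δ, hδ, hδ2, hs⟩ := hP
  apply RD_of
  refine piltz_sr h1 h2 h3 h4 (by omega) hδ hδ2 hs (mild_of (by norm_num) Expo_sixth K (by omega) ?_) (mean_four K hK4)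
  have : (K : ℝ) ≤ 4 := by exact_mod_cast hK4
  linarith

include h1 h2 h3 h4 in
/-- the divisor problem under Lindelöf's hypothesis -/
theorem div_lh {K : ℕ} (hK : 2 ≤ K) (H : Expo 0) {P : ℝ[X]} (hP : IsP K P) : BO (1 / 2) (RD P K) := by
  obtain ⟨-, -, δ, hδ, hδ2, hs⟩ := hP
  apply RD_of
  exact piltz_sr h1 h2 h3 h4 (by omega) hδ hδ2 hs (mild_of le_rfl H K (by omega) (by norm_num)) (mean_of_lh H K (by omega))

include hV hS h1 h2 h3 h4 in
/-- (c) -/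
theorem main_c {P : ℝ[X]} : (IsP 2 P → BO (1 / 2) (RP P 2)) ∧ (IsP 3 P → BO (1 / 2) (RP P 3)) ∧ (IsP 4 P → BO (2 / 3) (RP P 4)) := by
  refine ⟨fun hP => ?_, fun hP => ?_, fun hP => ?_⟩
  · refine (main_b hV hS (by norm_num) (by norm_num) P).2 ⟨Expo_mono ?_ Expo_sixth, div_four h1 h2 h3 h4 (by norm_num) (by norm_num) hP⟩
    norm_num
  · refine (main_b hV hS (by norm_num) (by norm_num) P).2 ⟨Expo_mono ?_ Expo_sixth, div_four h1 h2 h3 h4 (by norm_num) (by norm_num) hP⟩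
    norm_num
  · refine (main_b hV hS (by norm_num) (by norm_num) P).2 ⟨Expo_mono ?_ Expo_sixth,
      (div_four h1 h2 h3 h4 (by norm_num) (by norm_num) hP).mono (by norm_num)⟩
    norm_num

include hV hS h1 h2 h3 h4 in
/-- (d) -/
theorem main_d {P : ℕ → ℝ[X]} (hP : ∀ K, 2 ≤ K → IsP K (P K)) :
    [Expo 0, ∀ K : ℕ, 2 ≤ K → BO (1 / 2) (RP (P K) K), ∀ N : ℕ, ∃ K : ℕ, N ≤ K ∧ 2 ≤ K ∧ BO (1 / 2) (RP (P K) K)].TFAE := by
  tfae_have 1 → 2 := by
    intro H K hK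
    refine (main_b hV hS hK le_rfl (P K)).2 ⟨Expo_mono (by positivity) H, div_lh h1 h2 h3 h4 hK H (hP K hK)⟩
  tfae_have 2 → 3 := by
    intro H N
    exact ⟨N + 2, by omega, by omega, H (N + 2) (by omega)⟩
  tfae_have 3 → 1 := by
    intro H
    apply Expo_inf (θ := 1 / 2)
    intro N
    obtain ⟨K, hNK, hK, h⟩ := H N
    exact ⟨K, hNK, by omega, lower_poly hK (by norm_num) (P K) h⟩
  tfae_finish

end main

end Pool.Agent.N30.SR
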