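import Pool.Agent.N30.HM.Am
import Pool.Agent.N30.SR.Md
import Pool.Agent.N30.SR.L_PART
import Pool.Agent.N30.SR.L_SAD
import Pool.Agent.N30.SR.L_SHC
import Pool.Agent.N30.SR.L_NEAR
import Pool.Agent.N30.SR.L_SUM
import Pool.Agent.N30.SR.L_CVX
import Pool.Agent.N30.SR.L_HOL
import Pool.Agent.N30.SR.L_INV
import Pool.Agent.N30.SR.L_MOVE
import Pool.Agent.N30.SR.L_EST
import Pool.Agent.N30.SR.L_MON

set_option autoImplicit false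

/-! The final form (parts by helpers 31, 134, 152, 340, 413, 432, 700, 738, 814, 833, 999). -/

open Complex MeasureTheory Set Filter Topology Polynomial

namespace Pool.Agent.N30.SR

open Pool.Agent.W188.QS Pool.Agent.N30.HM Pool.Agent.N30.MZ Pool.Agent.N30.OD

theorem c_SUM : S_SUM := t_SUM (t_NEAR t_PART (t_SAD t_PART) t_SHC)

theorem c_INV : S_INV := t_INV t_HOL

theorem fin_all : ∃ P : ℕ → ℝ[X], (∀ K, 2 ≤ K → IsP K (P K)) ∧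
    (∀ K : ℕ, 2 ≤ K → ∀ θ : ℝ, 1 / 2 ≤ θ →
      (BO θ (RA K) ↔ Expo (θ / K)) ∧ (BO θ (RP (P K) K) ↔ Expo (θ / K) ∧ BO θ (RD (P K) K))) ∧
    (∀ K : ℕ, 3 ≤ K → BO (K / 6) (RA K)) ∧ BO (1 / 2) (RP (P 3) 3) ∧ BO (2 / 3) (RP (P 4) 4) ∧
    [Expo 0, ∀ K : ℕ, 2 ≤ K → BO (1 / 2) (RP (P K) K), ∀ N : ℕ, ∃ K : ℕ, N ≤ K ∧ 2 ≤ K ∧ BO (1 / 2) (RP (P K) K)].TFAE := by
  have h : ∀ K : ℕ, ∃ P : ℝ[X], 2 ≤ K → IsP K P := by
    intro K
    by_cases hK : 2 ≤ K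
    · obtain ⟨P, hP⟩ := exP K hK
      exact ⟨P, fun _ => hP⟩
    · exact ⟨0, fun h => absurd h hK⟩
  choose P hP using h
  refine ⟨P, hP, fun K hK θ hθ => ⟨main_a t_CVX c_SUM hK hθ, main_b t_CVX c_SUM hK hθ (P K)⟩, fun K hK => ?_, ?_, ?_, ?_⟩
  · have hK3 : (3 : ℝ) ≤ K := by exact_mod_cast hK
    refine (main_a t_CVX c_SUM (by omega) (by linarith)).2 ?_
    have e : ((K : ℝ) / 6) / K = 1 / 6 := by field_simp
    rw [e]
    exact Expo_sixth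
  · exact (main_c t_CVX c_SUM c_INV t_MOVE t_EST t_MON).2.1 (hP 3 (by norm_num))
  · exact (main_c t_CVX c_SUM c_INV t_MOVE t_EST t_MON).2.2 (hP 4 (by norm_num))
  · exact main_d t_CVX c_SUM c_INV t_MOVE t_EST t_MON hP

end Pool.Agent.N30.SR
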