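import Pool.Agent.N30.SR.Stm
import Pool.Agent.N30.HM.An

set_option autoImplicit false

/-! The sharp formula for the `(K-1,1)` moment from the bound for zeta on the critical line. -/

open Complex MeasureTheory Set Filter Topology Polynomial

namespace Pool.Agent.N30.SR

open Pool.Agent.W188.QS Pool.Agent.N30.HM Pool.Agent.N30.MZ Pool.Agent.N30.OD
open Pool.Agent.W885.QS (fp_re fp_im fp_cont zeta_cont)

/-- Cauchy's theorem in the rectangle -/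
lemma rectc (K : ℕ) (n : ℤ) {c a b : ℝ} (ha : 1 ≤ a) (hab : a ≤ b) :
    ∫ t in a..b, FZ K n (cp t) = (∫ t in a..b, FZ K n ((c : ℂ) + (t : ℂ) * I)) -
      I * (∫ x in (1 / 2 : ℝ)..c, FZ K n (⟨x, a⟩ : ℂ)) + I * (∫ x in (1 / 2 : ℝ)..c, FZ K n (⟨x, b⟩ : ℂ)) := by
  have hrect := Complex.integral_boundary_rect_eq_zero_of_differentiableOn (FZ K n) (⟨1 / 2, a⟩ : ℂ)
    (⟨c, b⟩ : ℂ) (by
      intro s hs
      rw [mem_reProdIm] at hs
      simp only at hs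
      have him : s.im ∈ Icc a b := by rw [← uIcc_of_le hab]; exact hs.2
      exact (FZ_diff K n (by linarith [him.1])).differentiableWithinAt)
  simp only [smul_eq_mul] at hrect
  have e1 : ∀ y : ℝ, (((1 / 2 : ℝ) : ℂ) + y * I) = cp y := by intro y; unfold cp; push_cast; ring
  have e3 : ∀ x y : ℝ, ((x : ℂ) + (y : ℂ) * I) = (⟨x, y⟩ : ℂ) := by intro x y; apply Complex.ext <;> simp
  simp only [e1] at hrect
  simp only [e3] at hrect ⊢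
  have hI : I * I = -1 := Complex.I_mul_I
  linear_combination I * hrect - ((∫ t in a..b, FZ K n (⟨c, t⟩ : ℂ)) - ∫ t in a..b, FZ K n (cp t)) * hI

/-- the horizontal side -/
lemma horiz (hV : S_CVX) {K : ℕ} (hK : 1 ≤ K) {θ : ℝ} (hθ : 1 / 2 ≤ θ) (H : Gro (θ / K)) {ε η : ℝ} (hε : 0 < ε)
    (hη : 0 < η) (hη2 : 2 * η ≤ ε) (hη1 : η ≤ 1 / 2) : ∃ C T₀ : ℝ, 0 ≤ C ∧ ∀ T : ℝ, T₀ ≤ T →
    ‖∫ x in (1 / 2 : ℝ)..(1 + η), FZ K 1 (⟨x, T⟩ : ℂ)‖ ≤ C * T ^ (θ + ε) := by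
  have hK0 : (0 : ℝ) < K := by exact_mod_cast hK
  obtain ⟨C1, T1, hC1, hT1, h1⟩ := hV (θ / K) (by positivity) H (ε / (2 * K)) (by positivity)
  obtain ⟨-, -, -, -, -, -, -, -, ⟨K0, hK00, hX⟩, -⟩ := a_line
  refine ⟨C1 ^ K * Real.exp K0, max T1 1, by positivity, fun T hT => ?_⟩
  have hTT1 : T1 ≤ T := (le_max_left _ _).trans hT
  have hT1' : 1 ≤ T := (le_max_right _ _).trans hT
  have hT0 : 0 < T := by linarith
  have hb : ∀ x ∈ uIoc (1 / 2 : ℝ) (1 + η), ‖FZ K 1 (⟨x, T⟩ : ℂ)‖ ≤ C1 ^ K * Real.exp K0 * T ^ (θ + ε) := by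
    intro x hx
    rw [uIoc_of_le (by linarith)] at hx
    have e3 : ((x : ℂ) + (T : ℂ) * I) = (⟨x, T⟩ : ℂ) := by apply Complex.ext <;> simp
    have h3 := h1 T x hTT1 hx.1.le (by linarith [hx.2])
    rw [e3] at h3
    have h4 := (hX (⟨x, T⟩ : ℂ) hx.1.le (by show x ≤ 4; linarith [hx.2]) hT1').2
    unfold FZ
    rw [norm_mul, norm_pow, zpow_one]
    have h5 : ‖riemannZeta (⟨x, T⟩ : ℂ)‖ ^ K ≤ C1 ^ K * T ^ (2 * θ * max (1 - x) 0 + ε / 2) := by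
      calc _ ≤ (C1 * T ^ (2 * (θ / K) * max (1 - x) 0 + ε / (2 * K))) ^ K := pow_le_pow_left₀ (norm_nonneg _) h3 _
        _ = _ := by
          rw [mul_pow, ← Real.rpow_natCast (T ^ (2 * (θ / K) * max (1 - x) 0 + ε / (2 * K))) K, ← Real.rpow_mul hT0.le]
          congr 2
          field_simp
    calc ‖riemannZeta (⟨x, T⟩ : ℂ)‖ ^ K * ‖XX (⟨x, T⟩ : ℂ)‖
        ≤ (C1 ^ K * T ^ (2 * θ * max (1 - x) 0 + ε / 2)) * (Real.exp K0 * T ^ (x - 1 / 2)) :=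
          mul_le_mul h5 h4 (norm_nonneg _) (by positivity)
      _ = C1 ^ K * Real.exp K0 * (T ^ (2 * θ * max (1 - x) 0 + ε / 2) * T ^ (x - 1 / 2)) := by ring
      _ = C1 ^ K * Real.exp K0 * T ^ (2 * θ * max (1 - x) 0 + ε / 2 + (x - 1 / 2)) := by rw [← Real.rpow_add hT0]
      _ ≤ C1 ^ K * Real.exp K0 * T ^ (θ + ε) := by
        apply mul_le_mul_of_nonneg_left _ (by positivity)
        apply Real.rpow_le_rpow_of_exponent_le hT1'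
        rcases le_total x 1 with h | h
        · rw [max_eq_left (by linarith)]
          nlinarith [hx.1, mul_nonneg (by linarith : 0 ≤ 2 * θ - 1) (by linarith [hx.1] : 0 ≤ x - 1 / 2)]
        · rw [max_eq_right (by linarith)]
          linarith [hx.2]
  have := intervalIntegral.norm_integral_le_of_norm_le_const hb
  rw [abs_of_nonneg (by linarith : 0 ≤ 1 + η - 1 / 2)] at this
  refine this.trans ?_
  have h6 : 0 ≤ C1 ^ K * Real.exp K0 * T ^ (θ + ε) := by positivity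
  nlinarith

/-- the sharp formula -/
theorem upper_sr (hV : S_CVX) (hS : S_SUM) {K : ℕ} (hK : 2 ≤ K) {θ : ℝ} (hθ : 1 / 2 ≤ θ) (H : Gro (θ / K)) {ε : ℝ}
    (hε : 0 < ε) : ∃ C T₀ : ℝ, ∀ T : ℝ, T₀ ≤ T →
      ‖AA K (K - 2) T - ((2 * Real.pi * DD K (T / (2 * Real.pi)) : ℝ) : ℂ)‖ ≤ C * T ^ (θ + ε) := by
  obtain ⟨η, hη⟩ : ∃ η, η = min (ε / 2) (1 / 2) := ⟨_, rfl⟩
  have hη0 : 0 < η := by rw [hη]; exact lt_min (by linarith) (by norm_num)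
  have hη1 : η ≤ 1 / 2 := by rw [hη]; exact min_le_right _ _
  have hη2 : 2 * η ≤ ε := by have : η ≤ ε / 2 := by rw [hη]; exact min_le_left _ _
                             linarith
  obtain ⟨C1, T1, hC1, h1⟩ := horiz hV (by omega : 1 ≤ K) hθ H hε hη0 hη2 hη1
  obtain ⟨C2, hC2, h2⟩ := hS K (by omega) ε η hη0 hη2 hη1
  obtain ⟨D, hD⟩ : ∃ D, D = ‖AA K (K - 2) 12‖ + ‖∫ x in (1 / 2 : ℝ)..(1 + η), FZ K 1 (⟨x, 12⟩ : ℂ)‖ := ⟨_, rfl⟩
  have hD0 : 0 ≤ D := by rw [hD]; positivity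
  refine ⟨D + C1 + C2, max T1 12, fun T hT => ?_⟩
  have hTT1 : T1 ≤ T := (le_max_left _ _).trans hT
  have hT12 : 12 ≤ T := (le_max_right _ _).trans hT
  have hT0 : 0 < T := by linarith
  have hn : (K : ℤ) - ((K - 2 : ℕ) : ℤ) = 2 * 1 := by omega
  have e1 : AA K (K - 2) T = AA K (K - 2) 12 + ∫ t in (12 : ℝ)..T, FZ K 1 (cp t) := by
    unfold AA
    rw [← intervalIntegral.integral_add_adjacent_intervals (tw_ii K (K - 2) 0 12) (tw_ii K (K - 2) 12 T)]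
    congr 1
    apply intervalIntegral.integral_congr
    intro t ht
    rw [uIcc_of_le hT12] at ht
    exact tw_eq (by omega) hn (by linarith [ht.1])
  have e4 : (∫ t in (12 : ℝ)..T, FZ K 1 (((1 + η : ℝ) : ℂ) + (t : ℂ) * I)) =
      ∫ t in (12 : ℝ)..T, riemannZeta (((1 + η : ℝ) : ℂ) + (t : ℂ) * I) ^ K * XX (((1 + η : ℝ) : ℂ) + (t : ℂ) * I) := by
    apply intervalIntegral.integral_congr
    intro t _
    simp only [FZ, zpow_one]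
  rw [e1, rectc K 1 (c := 1 + η) (by norm_num) hT12, e4]
  have h3 := h1 T hTT1
  have h4 := h2 T hT12
  obtain ⟨Q, hQ⟩ : ∃ Q, Q = ∫ t in (12 : ℝ)..T, riemannZeta (((1 + η : ℝ) : ℂ) + (t : ℂ) * I) ^ K *
    XX (((1 + η : ℝ) : ℂ) + (t : ℂ) * I) := ⟨_, rfl⟩
  rw [← hQ] at h4 ⊢
  have e5 : AA K (K - 2) 12 + (Q - I * (∫ x in (1 / 2 : ℝ)..(1 + η), FZ K 1 (⟨x, 12⟩ : ℂ)) +
      I * (∫ x in (1 / 2 : ℝ)..(1 + η), FZ K 1 (⟨x, T⟩ : ℂ))) - ((2 * Real.pi * DD K (T / (2 * Real.pi)) : ℝ) : ℂ) =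
      (AA K (K - 2) 12 - I * (∫ x in (1 / 2 : ℝ)..(1 + η), FZ K 1 (⟨x, 12⟩ : ℂ))) +
      I * (∫ x in (1 / 2 : ℝ)..(1 + η), FZ K 1 (⟨x, T⟩ : ℂ)) +
      (Q - ((2 * Real.pi * DD K (T / (2 * Real.pi)) : ℝ) : ℂ)) := by ring
  rw [e5]
  have h5 : ‖AA K (K - 2) 12 - I * (∫ x in (1 / 2 : ℝ)..(1 + η), FZ K 1 (⟨x, 12⟩ : ℂ))‖ ≤ D := by
    rw [hD]
    refine (norm_sub_le _ _).trans ?_
    rw [norm_mul, Complex.norm_I, one_mul]
  have hpow : 1 ≤ T ^ (θ + ε) := Real.one_le_rpow (by linarith) (by linarith)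
  have h6 : T ^ (1 / 2 + ε) ≤ T ^ (θ + ε) := Real.rpow_le_rpow_of_exponent_le (by linarith) (by linarith)
  refine (norm_add₃_le).trans ?_
  rw [norm_mul, Complex.norm_I, one_mul]
  have h7 : D * 1 ≤ D * T ^ (θ + ε) := mul_le_mul_of_nonneg_left hpow hD0
  have h8 : C2 * T ^ (1 / 2 + ε) ≤ C2 * T ^ (θ + ε) := mul_le_mul_of_nonneg_left h6 hC2
  linarith

end Pool.Agent.N30.SR
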