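import Pool.Agent.N30.SR.Ma
import Pool.Agent.N852.Div

set_option autoImplicit false

/-! The converse: the remainder controls zeta. -/

open Complex MeasureTheory Set Filter Topology Polynomial

namespace Pool.Agent.N30.SR

open Pool.Agent.W188.QS Pool.Agent.N30.HM Pool.Agent.N30.MZ Pool.Agent.N30.OD

lemma dK_nonneg (K n : ℕ) : 0 ≤ dK K n := Nat.cast_nonneg _

lemma dK_le (K : ℕ) {ε : ℝ} (hε : 0 < ε) : ∃ C : ℝ, 0 ≤ C ∧ ∀ n : ℕ, 1 ≤ n → dK K n ≤ C * (n : ℝ) ^ ε := by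
  obtain ⟨C, hC, h⟩ := Pool.Agent.N852.divisor_bound (ε / (K + 1)) (by positivity)
  refine ⟨C ^ K, by positivity, fun n hn => ?_⟩
  have hn0 : (1 : ℝ) ≤ n := by exact_mod_cast hn
  have h1 : dK K n ≤ ((n.divisors.card : ℕ) : ℝ) ^ K := by
    have := Pool.Agent.TH935.LD.dk_le K n
    unfold dK
    exact_mod_cast this
  have h2 := h n (by omega)
  calc dK K n ≤ ((n.divisors.card : ℕ) : ℝ) ^ K := h1
    _ ≤ (C * (n : ℝ) ^ (ε / (K + 1))) ^ K := pow_le_pow_left₀ (Nat.cast_nonneg _) h2 K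
    _ = C ^ K * (n : ℝ) ^ (ε / (K + 1) * K) := by
      rw [mul_pow, ← Real.rpow_natCast ((n : ℝ) ^ (ε / (K + 1))) K, ← Real.rpow_mul (by linarith)]
    _ ≤ C ^ K * (n : ℝ) ^ ε := by
      apply mul_le_mul_of_nonneg_left _ (by positivity)
      apply Real.rpow_le_rpow_of_exponent_le hn0
      rw [div_mul_eq_mul_div, div_le_iff₀ (by positivity)]
      nlinarith

lemma DD_step (K : ℕ) {y v : ℝ} (hy : 0 ≤ y) (hyv : y ≤ v) (hv : v ≤ y + 1) :
    0 ≤ DD K v - DD K y ∧ DD K v - DD K y ≤ dK K (⌊y⌋₊ + 1) := by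
  have h1 : ⌊y⌋₊ ≤ ⌊v⌋₊ := Nat.floor_le_floor hyv
  have h2 : ⌊v⌋₊ ≤ ⌊y⌋₊ + 1 := by
    rw [← Nat.floor_add_one hy]
    exact Nat.floor_le_floor hv
  rcases Nat.lt_or_ge ⌊y⌋₊ ⌊v⌋₊ with h | h
  · have h3 : ⌊v⌋₊ = ⌊y⌋₊ + 1 := by omega
    unfold DD
    rw [h3, Finset.sum_Icc_succ_top (by omega)]
    constructor
    · linarith [dK_nonneg K (⌊y⌋₊ + 1)]
    · linarith
  · have h3 : ⌊v⌋₊ = ⌊y⌋₊ := by omega
    unfold DD
    rw [h3, sub_self]
    exact ⟨le_rfl, dK_nonneg _ _⟩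

lemma DD_slow (K : ℕ) : ∀ ε : ℝ, 0 < ε → ∃ C T₀ : ℝ, ∀ T : ℝ, T₀ ≤ T → ∀ u : ℝ, |u| ≤ 1 →
    ‖((2 * Real.pi * DD K ((T + u) / (2 * Real.pi)) : ℝ) : ℂ) - ((2 * Real.pi * DD K (T / (2 * Real.pi)) : ℝ) : ℂ)‖ ≤
      C * T ^ ε := by
  intro ε hε
  obtain ⟨C, hC, h⟩ := dK_le K hε
  refine ⟨2 * Real.pi * (C * 2 ^ ε), 4, fun T hT u hu => ?_⟩
  rw [abs_le] at hu
  have hp := Real.pi_gt_three
  have hT0 : 0 < T := by linarith
  -- both points lie within distance one of each other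
  have key : ∀ a b : ℝ, 0 ≤ a → a ≤ b → b ≤ a + 1 → b ≤ T + 1 →
      |DD K (b / (2 * Real.pi)) - DD K (a / (2 * Real.pi))| ≤ C * (2 ^ ε * T ^ ε) := by
    intro a b ha hab hb hbT
    have h1 := DD_step K (y := a / (2 * Real.pi)) (v := b / (2 * Real.pi)) (by positivity) (by gcongr) (by
      rw [div_le_iff₀ (by positivity)]
      have : a / (2 * Real.pi) * (2 * Real.pi) = a := by field_simp
      nlinarith)
    rw [abs_of_nonneg h1.1]
    refine h1.2.trans ((h _ (by omega)).trans ?_)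
    apply mul_le_mul_of_nonneg_left _ hC
    rw [← Real.mul_rpow (by norm_num) hT0.le]
    apply Real.rpow_le_rpow (by positivity) _ hε.le
    push_cast
    have h2 : (⌊a / (2 * Real.pi)⌋₊ : ℝ) ≤ a / (2 * Real.pi) := Nat.floor_le (by positivity)
    have h3 : a / (2 * Real.pi) ≤ a / 6 := by
      apply div_le_div_of_nonneg_left ha (by norm_num) (by linarith)
    linarith
  have e1 : ‖((2 * Real.pi * DD K ((T + u) / (2 * Real.pi)) : ℝ) : ℂ) - ((2 * Real.pi * DD K (T / (2 * Real.pi)) : ℝ) : ℂ)‖ =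
      2 * Real.pi * |DD K ((T + u) / (2 * Real.pi)) - DD K (T / (2 * Real.pi))| := by
    rw [← Complex.ofReal_sub, Complex.norm_real, ← mul_sub, Real.norm_eq_abs, abs_mul, abs_of_pos (by positivity : 0 < 2 * Real.pi)]
  rw [e1]
  have h4 : |DD K ((T + u) / (2 * Real.pi)) - DD K (T / (2 * Real.pi))| ≤ C * (2 ^ ε * T ^ ε) := by
    rcases le_total 0 u with h0 | h0
    · exact key T (T + u) hT0.le (by linarith) (by linarith [hu.2]) (by linarith [hu.2])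
    · rw [abs_sub_comm]
      exact key (T + u) T (by linarith [hu.1]) (by linarith) (by linarith [hu.1]) (by linarith)
  calc 2 * Real.pi * |DD K ((T + u) / (2 * Real.pi)) - DD K (T / (2 * Real.pi))| ≤ 2 * Real.pi * (C * (2 ^ ε * T ^ ε)) :=
        mul_le_mul_of_nonneg_left h4 (by positivity)
    _ = _ := by ring

/-- the converse, arithmetic main term -/
theorem lower_sr {K : ℕ} (hK : 2 ≤ K) {θ : ℝ} (hθ : 0 ≤ θ)
    (H : ∀ ε : ℝ, 0 < ε → ∃ C T₀ : ℝ, ∀ T : ℝ, T₀ ≤ T →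
      ‖AA K (K - 2) T - ((2 * Real.pi * DD K (T / (2 * Real.pi)) : ℝ) : ℂ)‖ ≤ C * T ^ (θ + ε)) : Gro (θ / K) := by
  apply root (by omega)
  intro ε hε
  exact detectG (m := K - 2) (by omega) (by omega)
    (fun T => ((2 * Real.pi * DD K (T / (2 * Real.pi)) : ℝ) : ℂ)) (DD_slow K) hθ H hε

/-- the converse, polynomial main term -/
theorem lower_poly {K : ℕ} (hK : 2 ≤ K) {θ : ℝ} (hθ : 0 ≤ θ) (P : ℝ[X])
    (H : ∀ ε : ℝ, 0 < ε → ∃ C T₀ : ℝ, ∀ T : ℝ, T₀ ≤ T →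
      ‖AA K (K - 2) T - ((T * P.eval (Real.log (T / (2 * Real.pi))) : ℝ) : ℂ)‖ ≤ C * T ^ (θ + ε)) : Gro (θ / K) := by
  apply root (by omega)
  intro ε hε
  exact detectG (m := K - 2) (by omega) (by omega)
    (fun T => ((T * P.eval (Real.log (T / (2 * Real.pi))) : ℝ) : ℂ)) (main_slow P) hθ H hε

end Pool.Agent.N30.SR
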