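import Pool.Agent.N30.SR.Mb
import Pool.Agent.TH158.FM.Main

set_option autoImplicit false

/-! The divisor problem: hypotheses `Mild` and `Mean`. -/

open Complex MeasureTheory Set Filter Topology Polynomial

namespace Pool.Agent.N30.SR

open Pool.Agent.W188.QS Pool.Agent.N30.HM Pool.Agent.N30.MZ Pool.Agent.N30.OD

/-- the divisor problem -/
theorem piltz_sr (h1 : S_INV) (h2 : S_MOVE) (h3 : S_EST) (h4 : S_MON) {K : ℕ} {P : ℝ[X]} {δ : ℝ} (hK : 1 ≤ K)
    (hδ : 0 < δ) (hδ2 : δ < 1 / 2) (hS : Sav K P δ) (hM : Mild K) (hA : Mean K) :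
    ∀ ε : ℝ, 0 < ε → ∃ C : ℝ, 0 ≤ C ∧ ∀ x : ℝ, 1 ≤ x → |ER K P x| ≤ C * x ^ (1 / 2 + ε) :=
  h4 K P (h3 K P hK hA (h2 K P (1 - δ / 2) hK hM (by linarith) (by linarith)
    (h1 K P δ hK hδ hδ2 hS hM (1 - δ / 2) (by linarith) (by linarith))))

lemma mild_of {κ : ℝ} (hκ : 0 ≤ κ) (H : Expo κ) (K : ℕ) (hK : 1 ≤ K) (hKκ : K * κ < 1) : Mild K := by
  have hK0 : (0 : ℝ) < K := by exact_mod_cast hK
  obtain ⟨ε, hε⟩ : ∃ ε, ε = (1 - K * κ) / (2 * K) := ⟨_, rfl⟩
  have hε0 : 0 < ε := by rw [hε]; apply div_pos (by linarith) (by positivity)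
  have hKε : K * ε = (1 - K * κ) / 2 := by rw [hε]; field_simp
  obtain ⟨C, T0, hC, h⟩ := right_bound hκ H hε0
  -- compact part
  have hc : IsCompact (Icc (1 / 2 : ℝ) 1 ×ℂ Icc (1 : ℝ) (max T0 1)) := isCompact_Icc.reProdIm isCompact_Icc
  have hcont : ContinuousOn (fun s : ℂ => ‖riemannZeta s‖ ^ K) (Icc (1 / 2 : ℝ) 1 ×ℂ Icc (1 : ℝ) (max T0 1)) := by
    intro s hs
    rw [mem_reProdIm] at hs
    have hs1 : s ≠ 1 := by
      intro h
      have := hs.2.1
      rw [h] at this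
      norm_num at this
    exact ((differentiableAt_riemannZeta hs1).continuousAt.norm.pow K).continuousWithinAt
  obtain ⟨M, hM⟩ := hc.bddAbove_image hcont
  refine ⟨K * (κ + ε), max M (C ^ K), by positivity, by rw [mul_add, hKε]; linarith, ?_⟩
  intro s hs1 hs2 hs3
  have hp : 1 ≤ s.im ^ (K * (κ + ε)) := Real.one_le_rpow hs3 (by positivity)
  have hmax : 0 ≤ max M (C ^ K) := le_trans (by positivity) (le_max_right _ _)
  by_cases ht : T0 ≤ s.im
  · have h1 := h s.im ht s.re hs1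
    have e : (⟨s.re, s.im⟩ : ℂ) = s := rfl
    rw [e] at h1
    calc ‖riemannZeta s‖ ^ K ≤ (C * s.im ^ (κ + ε)) ^ K := pow_le_pow_left₀ (norm_nonneg _) h1 K
      _ = C ^ K * s.im ^ (K * (κ + ε)) := by
        rw [mul_pow, ← Real.rpow_natCast (s.im ^ (κ + ε)) K, ← Real.rpow_mul (by linarith), mul_comm (κ + ε)]
      _ ≤ _ := mul_le_mul_of_nonneg_right (le_max_right _ _) (by positivity)
  · push Not at ht
    have h1 : ‖riemannZeta s‖ ^ K ≤ M := by
      apply hM
      refine ⟨s, ?_, rfl⟩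
      rw [mem_reProdIm]
      exact ⟨⟨hs1, hs2⟩, ⟨hs3, (le_of_lt ht).trans (le_max_left _ _)⟩⟩
    calc ‖riemannZeta s‖ ^ K ≤ max M (C ^ K) * 1 := by rw [mul_one]; exact h1.trans (le_max_left _ _)
      _ ≤ _ := mul_le_mul_of_nonneg_left hp hmax

lemma zeta_cp_ii (K : ℕ) (a b : ℝ) : IntervalIntegrable (fun t => ‖riemannZeta (cp t)‖ ^ K) volume a b :=
  (zz_cont.norm.pow K).intervalIntegrable _ _

/-- Lindelöf's hypothesis gives the mean values -/
lemma mean_of_lh (H : Expo 0) (K : ℕ) (hK : 1 ≤ K) : Mean K := by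
  intro ε hε
  have hK0 : (0 : ℝ) < K := by exact_mod_cast hK
  obtain ⟨C0, T0, h⟩ := H (ε / K) (by positivity)
  obtain ⟨C, hC⟩ : ∃ C, C = |C0| := ⟨_, rfl⟩
  have hC0 : 0 ≤ C := by rw [hC]; exact abs_nonneg _
  obtain ⟨T1, hT1⟩ : ∃ T1, T1 = max T0 1 := ⟨_, rfl⟩
  have hT11 : 1 ≤ T1 := by rw [hT1]; exact le_max_right _ _
  have hb : ∀ t : ℝ, T1 ≤ t → ‖riemannZeta (cp t)‖ ^ K ≤ C ^ K * t ^ ε := by
    intro t ht
    have ht1 : 1 ≤ t := hT11.trans ht
    have h1 := h t (le_trans (by rw [hT1]; exact le_max_left _ _) ht)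
    rw [zero_add] at h1
    calc ‖riemannZeta (cp t)‖ ^ K ≤ (C * t ^ (ε / K)) ^ K := by
          apply pow_le_pow_left₀ (norm_nonneg _)
          refine h1.trans ?_
          rw [hC]
          exact mul_le_mul_of_nonneg_right (le_abs_self _) (by positivity)
      _ = _ := by
        rw [mul_pow, ← Real.rpow_natCast (t ^ (ε / K)) K, ← Real.rpow_mul (by linarith)]
        congr 2
        field_simp
  obtain ⟨A, hA⟩ : ∃ A, A = ∫ t in (1 : ℝ)..T1, ‖riemannZeta (cp t)‖ ^ K := ⟨_, rfl⟩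
  have hA0 : 0 ≤ A := by
    rw [hA]
    exact intervalIntegral.integral_nonneg hT11 fun t _ => by positivity
  refine ⟨A + C ^ K, fun T hT => ?_⟩
  have hp : 1 ≤ T ^ (1 + ε) := Real.one_le_rpow hT (by positivity)
  have hT0 : 0 < T := by linarith
  rcases le_total T T1 with h1 | h1
  · have h2 : ∫ t in (1 : ℝ)..T, ‖riemannZeta (cp t)‖ ^ K ≤ A := by
      rw [hA]
      exact intervalIntegral.integral_mono_interval le_rfl hT h1 (Eventually.of_forall fun t => by positivity)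
        (zeta_cp_ii K _ _)
    calc _ ≤ A * 1 := by rw [mul_one]; exact h2
      _ ≤ (A + C ^ K) * T ^ (1 + ε) := mul_le_mul (by linarith [pow_nonneg hC0 K]) hp zero_le_one (by positivity)
  · have e1 := intervalIntegral.integral_add_adjacent_intervals (zeta_cp_ii K 1 T1) (zeta_cp_ii K T1 T)
    have h2 : ∫ t in T1..T, ‖riemannZeta (cp t)‖ ^ K ≤ C ^ K * T ^ (1 + ε) := by
      have h3 : ∀ t ∈ Icc T1 T, ‖riemannZeta (cp t)‖ ^ K ≤ C ^ K * T ^ ε := by
        intro t ht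
        refine (hb t ht.1).trans ?_
        apply mul_le_mul_of_nonneg_left _ (pow_nonneg hC0 K)
        exact Real.rpow_le_rpow (by linarith [ht.1]) ht.2 hε.le
      calc _ ≤ ∫ t in T1..T, C ^ K * T ^ ε := intervalIntegral.integral_mono_on h1 (zeta_cp_ii K _ _)
            intervalIntegrable_const h3
        _ = (T - T1) * (C ^ K * T ^ ε) := by rw [intervalIntegral.integral_const, smul_eq_mul]
        _ ≤ T * (C ^ K * T ^ ε) := mul_le_mul_of_nonneg_right (by linarith) (by positivity)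
        _ = C ^ K * (T ^ (1 : ℝ) * T ^ ε) := by rw [Real.rpow_one]; ring
        _ = _ := by rw [← Real.rpow_add hT0]
    rw [← e1, ← hA, add_mul]
    have h4 : A * 1 ≤ A * T ^ (1 + ε) := mul_le_mul_of_nonneg_left hp hA0
    linarith

/-- the fourth moment gives the mean values for `K ≤ 4` -/
lemma mean_four (K : ℕ) (hK : K ≤ 4) : Mean K := by
  intro ε hε
  have hl := (isLittleO_log_rpow_rpow_atTop (4 : ℝ) hε).bound (by norm_num : (0:ℝ) < 1)
  obtain ⟨T0, hT0⟩ := eventually_atTop.1 hl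
  obtain ⟨T1, hT1⟩ : ∃ T1, T1 = max T0 1000 := ⟨_, rfl⟩
  have hT11 : 1000 ≤ T1 := by rw [hT1]; exact le_max_right _ _
  have hpt : ∀ t : ℝ, Pool.Agent.TH158.FM.pt (1 / 2) t = cp t := by
    intro t
    unfold Pool.Agent.TH158.FM.pt cp
    push_cast
    ring
  have hle : ∀ t : ℝ, ‖riemannZeta (cp t)‖ ^ K ≤ 1 + ‖riemannZeta (cp t)‖ ^ 4 := by
    intro t
    rcases le_total ‖riemannZeta (cp t)‖ 1 with h | h
    · have := pow_le_one₀ (norm_nonneg (riemannZeta (cp t))) h (n := K)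
      have h4 : 0 ≤ ‖riemannZeta (cp t)‖ ^ 4 := by positivity
      linarith
    · have := pow_le_pow_right₀ h hK
      linarith
  have hbig : ∀ T : ℝ, T1 ≤ T → ∫ t in (1 : ℝ)..T, ‖riemannZeta (cp t)‖ ^ K ≤ 2 * T ^ (1 + ε) := by
    intro T hT
    have hT1000 : 1000 ≤ T := hT11.trans hT
    have hTp : 0 < T := by linarith
    have h4 := Pool.Agent.TH158.FM.fourth_all T hT1000
    simp only [hpt] at h4
    have e1 := intervalIntegral.integral_add_adjacent_intervals (zeta_cp_ii 4 0 1) (zeta_cp_ii 4 1 T)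
    have h5 : 0 ≤ ∫ t in (0 : ℝ)..1, ‖riemannZeta (cp t)‖ ^ 4 :=
      intervalIntegral.integral_nonneg (by norm_num) fun t _ => by positivity
    have h6 : ∫ t in (1 : ℝ)..T, ‖riemannZeta (cp t)‖ ^ K ≤ ∫ t in (1 : ℝ)..T, (1 + ‖riemannZeta (cp t)‖ ^ 4) :=
      intervalIntegral.integral_mono_on (by linarith) (zeta_cp_ii K _ _)
        (intervalIntegrable_const.add (zeta_cp_ii 4 _ _)) fun t _ => hle t
    rw [intervalIntegral.integral_add intervalIntegrable_const (zeta_cp_ii 4 _ _), intervalIntegral.integral_const,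
      smul_eq_mul, mul_one] at h6
    have h7 : Real.log T ^ 4 ≤ T ^ ε := by
      have := hT0 T (le_trans (by rw [hT1]; exact le_max_left _ _) hT)
      have hlog : 0 ≤ Real.log T := Real.log_nonneg (by linarith)
      rw [show (4 : ℝ) = ((4 : ℕ) : ℝ) by norm_num, Real.rpow_natCast, Real.norm_of_nonneg (by positivity),
        Real.norm_of_nonneg (by positivity), one_mul] at this
      exact this
    have h8 : T * Real.log T ^ 4 ≤ T ^ (1 + ε) := by
      rw [Real.rpow_add hTp, Real.rpow_one]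
      exact mul_le_mul_of_nonneg_left h7 hTp.le
    have h9 : T ≤ T ^ (1 + ε) := by
      calc T = T ^ (1 : ℝ) := (Real.rpow_one T).symm
        _ ≤ _ := Real.rpow_le_rpow_of_exponent_le (by linarith) (by linarith)
    linarith
  obtain ⟨A, hA⟩ : ∃ A, A = ∫ t in (1 : ℝ)..T1, ‖riemannZeta (cp t)‖ ^ K := ⟨_, rfl⟩
  have hA0 : 0 ≤ A := by
    rw [hA]
    exact intervalIntegral.integral_nonneg (by linarith) fun t _ => by positivity
  refine ⟨A + 2, fun T hT => ?_⟩
  have hp : 1 ≤ T ^ (1 + ε) := Real.one_le_rpow hT (by positivity)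
  rcases le_total T T1 with h1 | h1
  · have h2 : ∫ t in (1 : ℝ)..T, ‖riemannZeta (cp t)‖ ^ K ≤ A := by
      rw [hA]
      exact intervalIntegral.integral_mono_interval le_rfl hT h1 (Eventually.of_forall fun t => by positivity)
        (zeta_cp_ii K _ _)
    calc _ ≤ A * 1 := by rw [mul_one]; exact h2
      _ ≤ (A + 2) * T ^ (1 + ε) := mul_le_mul (by linarith) hp zero_le_one (by positivity)
  · refine (hbig T h1).trans ?_
    exact mul_le_mul_of_nonneg_right (by linarith) (by positivity)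

end Pool.Agent.N30.SR
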