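import Pool.Agent.W188.QS.Stm2

set_option autoImplicit false

/-!
# Project SR (helper30): the (K-1,1) moments of zeta with square-root remainder

`z(t) = ζ(1/2 + it)`.  THEOREM: for all `K ≥ 2` and `θ ≥ 1/2`,
`∫_0^T z^(K-1) conj z dt = 2π Σ_{n ≤ T/2π} d_K(n) + O(T^(θ+ε))` for all `ε > 0` if and only if
`z(t) = O(t^(θ/K+ε))` for all `ε > 0`; in particular (with the polynomial main term of the divisor problem) the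
remainder is `O(T^(1/2+ε))` unconditionally for `K = 3`, and for all `K` if and only if Lindelöf's hypothesis holds.

Independent parts: statements.
-/

open Complex MeasureTheory Set Filter Topology Polynomial
open Pool.Agent.W188.QS (XX cp fp)

namespace Pool.Agent.N30.SR

/-- `d_K(n)` -/
noncomputable def dK (K n : ℕ) : ℝ := (((ArithmeticFunction.zeta ^ K : ArithmeticFunction ℕ) n : ℕ) : ℝ)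

/-- `Σ_{n ≤ y} d_K(n)` -/
noncomputable def DD (K : ℕ) (y : ℝ) : ℝ := ∑ n ∈ Finset.Icc 1 ⌊y⌋₊, dK K n

/-- `X(s) n^{-s}` on the line `Re s = c` -/
noncomputable def Y (c : ℝ) (n : ℕ) (t : ℝ) : ℂ :=
  XX ((c : ℂ) + (t : ℂ) * I) * (n : ℂ) ^ (-((c : ℂ) + (t : ℂ) * I))

/-- the derivative of the phase, `log (t / (2πn))` -/
noncomputable def gn (n : ℕ) (t : ℝ) : ℝ := Real.log (t / (2 * Real.pi * n))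

/-- `z(t) = O(t^(κ+ε))` for all `ε > 0` -/
def Gro (κ : ℝ) : Prop := ∀ ε : ℝ, 0 < ε → ∃ C T₀ : ℝ, ∀ T : ℝ, T₀ ≤ T → ‖riemannZeta (cp T)‖ ≤ C * T ^ (κ + ε)

/-! ## Part A: Gonek's lemma with sharp cut-off -/

/-- PART: integration by parts -/
def S_PART : Prop := ∀ (c a b : ℝ) (n : ℕ), 1 / 2 ≤ c → c ≤ 4 → 12 ≤ a → a ≤ b → 1 ≤ n →
  (∀ t ∈ Icc a b, t ≠ 2 * Real.pi * n) →
  ‖∫ t in a..b, Y c n t‖ ≤ ‖Y c n a‖ / |gn n a| + ‖Y c n b‖ / |gn n b| +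
    ∫ t in a..b, ‖Y c n t‖ * (1 / (t * gn n t ^ 2) + 14 / (t * |gn n t|))

/-- SAD: the full saddle on the line `Re s = 4` -/
def S_SAD : Prop := ∀ η : ℝ, 0 < η → ∃ C : ℝ, 0 ≤ C ∧ ∀ n : ℕ, 4 ≤ n →
  ‖(∫ t in (Real.pi * n)..(4 * Real.pi * n), Y 4 n t) - ((2 * Real.pi : ℝ) : ℂ)‖ ≤ C * (n : ℝ) ^ (η - 1 / 2)

/-- SHC: from the line `Re s = 4` to the line `Re s = c` -/
def S_SHC : Prop := ∃ C : ℝ, 0 ≤ C ∧ ∀ c : ℝ, 1 / 2 ≤ c → c ≤ 4 → ∀ n : ℕ, 1 ≤ n →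
  ‖(∫ t in (Real.pi * n)..(4 * Real.pi * n), Y c n t) - ∫ t in (Real.pi * n)..(4 * Real.pi * n), Y 4 n t‖ ≤
    C * (n : ℝ) ^ (-(1 / 2 : ℝ))

/-- the bound for the truncated integral -/
noncomputable def bd (η T : ℝ) (n : ℕ) : ℝ :=
  (n : ℝ) ^ (-(1 + η)) * T ^ (1 / 2 + η) +
    if (n : ℝ) ≤ T then (n : ℝ) ^ (η - 1 / 2) + √T / (√T + |T - 2 * Real.pi * n|) else 0

/-- NEAR: the truncated integral on the line `Re s = 1 + η` -/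
def S_NEAR : Prop := ∀ η : ℝ, 0 < η → η ≤ 1 / 2 → ∃ C : ℝ, 0 ≤ C ∧ ∀ (T : ℝ) (n : ℕ), 12 ≤ T → 1 ≤ n →
  ‖(∫ t in (12 : ℝ)..T, Y (1 + η) n t) - ((if 2 * Real.pi * n ≤ T then 2 * Real.pi else 0 : ℝ) : ℂ)‖ ≤ C * bd η T n

/-- SUM: summation over `n` -/
def S_SUM : Prop := ∀ K : ℕ, 1 ≤ K → ∀ ε η : ℝ, 0 < η → 2 * η ≤ ε → η ≤ 1 / 2 → ∃ C : ℝ, 0 ≤ C ∧ ∀ T : ℝ, 12 ≤ T →
  ‖(∫ t in (12 : ℝ)..T, riemannZeta (((1 + η : ℝ) : ℂ) + (t : ℂ) * I) ^ K * XX (((1 + η : ℝ) : ℂ) + (t : ℂ) * I)) -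
    ((2 * Real.pi * DD K (T / (2 * Real.pi)) : ℝ) : ℂ)‖ ≤ C * T ^ (1 / 2 + ε)

/-! ## Part B: convexity -/

/-- CVX -/
def S_CVX : Prop := ∀ κ : ℝ, 0 ≤ κ → Gro κ → ∀ ε : ℝ, 0 < ε → ∃ C T₀ : ℝ, 0 ≤ C ∧ 1 ≤ T₀ ∧ ∀ T σ : ℝ, T₀ ≤ T →
  1 / 2 ≤ σ → σ ≤ 4 → ‖riemannZeta ((σ : ℂ) + (T : ℂ) * I)‖ ≤ C * T ^ (2 * κ * max (1 - σ) 0 + ε)

/-! ## Part C: the divisor problem of Piltz -/

/-- the remainder -/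
noncomputable def ER (K : ℕ) (P : ℝ[X]) (x : ℝ) : ℝ := DD K x - x * P.eval (Real.log x)

/-- polynomial main term with a power saving -/
def Sav (K : ℕ) (P : ℝ[X]) (δ : ℝ) : Prop := ∃ C : ℝ, ∀ x : ℝ, 1 ≤ x → |ER K P x| ≤ C * x ^ (1 - δ)

/-- `∫_1^∞ P(log x) x^{-s} dx` -/
noncomputable def MP (P : ℝ[X]) (s : ℂ) : ℂ :=
  ∑ j ∈ Finset.range (P.natDegree + 1), ((P.coeff j * (j.factorial : ℝ) : ℝ) : ℂ) / (s - 1) ^ (j + 1)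

/-- the Mellin transform of the remainder -/
noncomputable def HH (K : ℕ) (P : ℝ[X]) (s : ℂ) : ℂ := riemannZeta s ^ K / s - MP P s

/-- HOL: the Mellin transform of the remainder, to the left of `s = 1` -/
def S_HOL : Prop := ∀ (K : ℕ) (P : ℝ[X]) (δ : ℝ), 1 ≤ K → 0 < δ → δ < 1 / 2 → Sav K P δ → ∀ s : ℂ, 1 - δ < s.re →
  s ≠ 1 → ∫ x in Ioi (1 : ℝ), (ER K P x : ℂ) * (x : ℂ) ^ (-s - 1) = HH K P s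

/-- the integrated remainder -/
noncomputable def IE (K : ℕ) (P : ℝ[X]) (x : ℝ) : ℝ := ∫ u in (1 : ℝ)..x, ER K P u

/-- mild growth of `ζ^K` -/
def Mild (K : ℕ) : Prop := ∃ a C : ℝ, 0 ≤ a ∧ a < 1 ∧ ∀ s : ℂ, 1 / 2 ≤ s.re → s.re ≤ 1 → 1 ≤ s.im →
  ‖riemannZeta s‖ ^ K ≤ C * s.im ^ a

/-- the mean value of `|ζ|^K` -/
def Mean (K : ℕ) : Prop := ∀ ε : ℝ, 0 < ε → ∃ C : ℝ, ∀ T : ℝ, 1 ≤ T → ∫ t in (1 : ℝ)..T, ‖riemannZeta (cp t)‖ ^ K ≤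
  C * T ^ (1 + ε)

/-- the formula for `IE` on the line `Re s = c` -/
def Lin (K : ℕ) (P : ℝ[X]) (c : ℝ) : Prop :=
  Integrable (fun t : ℝ => HH K P ((c : ℂ) + (t : ℂ) * I) / ((c : ℂ) + 1 + (t : ℂ) * I)) ∧
  ∀ x : ℝ, 1 ≤ x → (IE K P x : ℂ) = (1 / (2 * Real.pi) : ℝ) *
    ∫ t : ℝ, HH K P ((c : ℂ) + (t : ℂ) * I) * (x : ℂ) ^ ((c : ℂ) + 1 + (t : ℂ) * I) / ((c : ℂ) + 1 + (t : ℂ) * I)

/-- INV: Mellin inversion -/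
def S_INV : Prop := ∀ (K : ℕ) (P : ℝ[X]) (δ : ℝ), 1 ≤ K → 0 < δ → δ < 1 / 2 → Sav K P δ → Mild K →
  ∀ c : ℝ, 1 - δ < c → c < 1 → Lin K P c

/-- MOVE: the contour is moved to the critical line -/
def S_MOVE : Prop := ∀ (K : ℕ) (P : ℝ[X]) (c : ℝ), 1 ≤ K → Mild K → 1 / 2 < c → c < 1 → Lin K P c → Lin K P (1 / 2)

/-- EST: the estimate of the integral -/
def S_EST : Prop := ∀ (K : ℕ) (P : ℝ[X]), 1 ≤ K → Mean K → Lin K P (1 / 2) → ∀ ε : ℝ, 0 < ε → ∃ C : ℝ, 0 ≤ C ∧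
  ∀ x Y : ℝ, 1 ≤ Y → Y ≤ x → |IE K P (x + Y) - IE K P x| ≤ C * (Y * x ^ (1 / 2 + ε))

/-- MON: from the integrated remainder to the remainder -/
def S_MON : Prop := ∀ (K : ℕ) (P : ℝ[X]), (∀ ε : ℝ, 0 < ε → ∃ C : ℝ, 0 ≤ C ∧
    ∀ x Y : ℝ, 1 ≤ Y → Y ≤ x → |IE K P (x + Y) - IE K P x| ≤ C * (Y * x ^ (1 / 2 + ε))) →
  ∀ ε : ℝ, 0 < ε → ∃ C : ℝ, 0 ≤ C ∧ ∀ x : ℝ, 1 ≤ x → |ER K P x| ≤ C * x ^ (1 / 2 + ε)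

end Pool.Agent.N30.SR
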